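import Pool.Agent.R425.G.Cl7
import Pool.Agent.R425.Tors
import Pool.Agent.R425.Alg
import Pool.Agent.Y76.GPar.Par
import Pool.Agent.Y702.G.Sel
import Pool.Agent.Y702.G.Sel2
import Pool.Agent.Y93.G.Inv
import Pool.Agent.Y141.G2.KUMP
import Pool.Agent.Y852.GS.Spl
import Pool.Agent.Y710.CV.Conv
import Pool.Agent.Y46.G2.Emb
import Pool.Agent.Y500.G.FLM
import Pool.Agent.Y67.LZ.Main
import Pool.Agent.Y125.DQ.Main

/-!
# The algebraic side of the equivalence
-/

set_option autoImplicit false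
set_option linter.all false

open NumberField IsDedekindDomain WithZero WeierstrassCurve WeierstrassCurve.Affine
open scoped NNReal Classical

namespace Pool.Agent.R425.G

open Pool.Agent.TH115.GD
open Pool.Agent.Y702.G (sh base pts)
open Pool.Agent.R425 (Ev ev_of_disc unr_of_disc)
open Pool.Agent.Y76.GPar (cb card_parity Pts no_root_W)

variable (W : WeierstrassCurve ℤ)

/-- If `a_l` is even then the cubic has a root modulo `l`. -/
theorem exists_root {l : ℕ} (hl : l.Prime) (hlD : ¬ (l : ℤ) ∣ 2 * W.Δ)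
    (hev : ¬ Odd ((l : ℤ) - pts W (ZMod l))) :
    ∃ n : ℤ, (l : ℤ) ∣ n ^ 3 + W.b₂ * n ^ 2 + 8 * W.b₄ * n + 16 * W.b₆ := by
  have hF : Fact l.Prime := ⟨hl⟩
  have h2 : (2 : ZMod l) ≠ 0 := by
    intro h
    apply hlD
    have h1 : ((2 : ℤ) : ZMod l) = 0 := by exact_mod_cast h
    rw [ZMod.intCast_zmod_eq_zero_iff_dvd] at h1
    exact h1.mul_right _
  have hne2 : l ≠ 2 := by
    rintro rfl
    exact h2 rfl
  have h3 : pts W (ZMod l) = Nat.card (Pts (ZMod l) (W.a₁ : ZMod l) W.a₂ W.a₃ W.a₄ W.a₆) := by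
    unfold Pool.Agent.Y702.G.pts
    refine Nat.card_congr (Equiv.subtypeEquivRight fun P => ?_)
    rw [WeierstrassCurve.Affine.equation_iff]
    simp only [WeierstrassCurve.map_a₁, WeierstrassCurve.map_a₂, WeierstrassCurve.map_a₃,
      WeierstrassCurve.map_a₄, WeierstrassCurve.map_a₆, eq_intCast]
  have h4 := card_parity (F := ZMod l) (W.a₁ : ZMod l) W.a₂ W.a₃ W.a₄ W.a₆ h2
  rw [← h3] at h4
  have h5 : ¬ Even (pts W (ZMod l)) := by
    intro h5
    apply hev
    have h6 : Odd (l : ℤ) := by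
      rw [Int.odd_coe_nat]
      exact hl.odd_of_ne_two hne2
    have h7 : Even ((pts W (ZMod l) : ℕ) : ℤ) := by exact_mod_cast h5
    exact h6.sub_even h7
  have e2 : (W.b₂ : ZMod l) = (W.a₁ : ZMod l) ^ 2 + 4 * (W.a₂ : ZMod l) := by
    unfold WeierstrassCurve.b₂; push_cast; ring
  have e4 : ((8 * W.b₄ : ℤ) : ZMod l) = 8 * (2 * (W.a₄ : ZMod l) + (W.a₁ : ZMod l) * W.a₃) := by
    unfold WeierstrassCurve.b₄; push_cast; ring
  have e6 : ((16 * W.b₆ : ℤ) : ZMod l) = 16 * ((W.a₃ : ZMod l) ^ 2 + 4 * W.a₆) := by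
    unfold WeierstrassCurve.b₆; push_cast; ring
  rw [← e2, ← e4, ← e6] at h4
  have h7 : Nonempty {x : ZMod l // cb (W.b₂ : ZMod l) ((8 * W.b₄ : ℤ) : ZMod l)
      ((16 * W.b₆ : ℤ) : ZMod l) x = 0} := by
    by_contra hcon
    rw [not_nonempty_iff] at hcon
    rw [Nat.card_of_isEmpty] at h4
    exact h5 (Nat.even_iff.2 h4)
  obtain ⟨⟨x, hx⟩⟩ := h7
  refine ⟨(x.val : ℤ), ?_⟩
  rw [← ZMod.intCast_zmod_eq_zero_iff_dvd _ l]
  have hxv : (((x.val : ℤ)) : ZMod l) = x := by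
    rw [Int.cast_natCast, ZMod.natCast_val, ZMod.cast_id]
  unfold cb at hx
  push_cast at hx hxv ⊢
  rw [hxv]
  linear_combination hx

/-- If `a_l` is odd then the cubic has no rational root. -/
theorem no_root_Q {l : ℕ} (hl : l.Prime) (hlD : ¬ (l : ℤ) ∣ 2 * W.Δ)
    (ho : Odd ((l : ℤ) - pts W (ZMod l))) (x : ℚ) : cub (sh W) x ≠ 0 := by
  intro hx
  have hF : Fact l.Prime := ⟨hl⟩
  have hx' : x ^ 3 + (W.b₂ : ℚ) * x ^ 2 + 8 * (W.b₄ : ℚ) * x + 16 * (W.b₆ : ℚ) = 0 := by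
    have h := hx
    unfold cub Pool.Agent.Y702.G.sh at h
    simp only [Algebra.algebraMap_self, RingHom.id_apply] at h
    exact h
  have hint : _root_.IsIntegral ℤ x := by
    refine ⟨Polynomial.X ^ 3 + Polynomial.C W.b₂ * Polynomial.X ^ 2 +
      Polynomial.C (8 * W.b₄) * Polynomial.X + Polynomial.C (16 * W.b₆), ?_, ?_⟩
    · monicity!
    · rw [Polynomial.eval₂_add, Polynomial.eval₂_add, Polynomial.eval₂_add, Polynomial.eval₂_mul,
        Polynomial.eval₂_mul, Polynomial.eval₂_pow, Polynomial.eval₂_pow, Polynomial.eval₂_X,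
        Polynomial.eval₂_C, Polynomial.eval₂_C, Polynomial.eval₂_C]
      simp only [algebraMap_int_eq, eq_intCast]
      push_cast
      exact hx'
  obtain ⟨n, rfl⟩ := IsIntegrallyClosed.isIntegral_iff.1 hint
  rw [eq_intCast] at hx'
  have h1 : n ^ 3 + W.b₂ * n ^ 2 + 8 * W.b₄ * n + 16 * W.b₆ = 0 := by exact_mod_cast hx'
  apply no_root_W W hlD ho (n : ZMod l)
  have h2 := congrArg (fun z : ℤ => (z : ZMod l)) h1
  unfold cb
  push_cast at h2 ⊢
  linear_combination h2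

section grp

variable {K : Type} [Field K] [NumberField K]

/-- the isomorphism with the points of the short model -/
noncomputable def iso (K : Type) [Field K] [NumberField K] :
    (base W K).toAffine.Point ≃+ Pt (sh W) K :=
  AddEquiv.ofBijective
    ({ toFun := Y355.G.tr (Y355.G.isSh' W K)
       map_zero' := rfl
       map_add' := fun P Q => @Y355.G.tr_add K _ _ _ (Y355.G.isSh' W K) (Classical.decEq K) P Q } :
      (base W K).toAffine.Point →+ Pt (sh W) K)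
    ⟨fun _ _ h => Y355.G.tr_inj (Y355.G.isSh' W K) h,
      fun Q => Y355.G.tr_surj (Y355.G.isSh' W K) Q⟩

theorem fg_pts (hW : W.Δ ≠ 0) : AddGroup.FG (base W K).toAffine.Point := by
  have h1 : AddGroup.FG (Pt (sh W) K) := Y355.G.mw W hW K
  exact AddGroup.fg_of_surjective (f := ((iso W K).symm : Pt (sh W) K →+ _)) (iso W K).symm.surjective

theorem two_tors (hW : W.Δ ≠ 0) (hnr : ∀ x : K, cub (sh W) x ≠ 0)
    (P : (base W K).toAffine.Point) (h : P + P = 0) : P = 0 := by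
  haveI : IsGalois K (AlgebraicClosure K) := inferInstance
  obtain ⟨a, b, c, hC⟩ := Y355.G.V_roots (V := sh W) rfl rfl (Y355.G.sh_disc hW) (AlgebraicClosure K)
  apply (iso W K).injective
  rw [map_zero]
  apply act_inj (sh W) (incl ℚ K (AlgebraicClosure K))
  rw [map_zero]
  apply no_two hC hnr
  · rw [← map_add, ← map_add, h, map_zero, map_zero]
  · intro σ
    exact rs_act_incl (sh W) σ _

theorem tors_odd (hW : W.Δ ≠ 0) (hnr : ∀ x : K, cub (sh W) x ≠ 0) :
    Odd (Nat.card {P : (base W K).toAffine.Point | ∃ n : ℕ, 0 < n ∧ n • P = 0}) :=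
  Pool.Agent.R425.tors_odd (fg_pts W hW) fun P hP => two_tors W hW hnr P hP

theorem rank_iff (hW : W.Δ ≠ 0) :
    Module.finrank ℤ (base W K).toAffine.Point = 0 ↔ Finite (base W K).toAffine.Point := by
  constructor
  · intro h
    exact Pool.Agent.R425.fin_of_rank (fg_pts W hW) h
  · intro h
    apply Module.IsTorsion.finrank_eq_zero
    intro P
    refine ⟨⟨(Nat.card (base W K).toAffine.Point : ℤ), ?_⟩, ?_⟩
    · rw [mem_nonZeroDivisors_iff_ne_zero]
      exact_mod_cast Nat.card_pos.ne'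
    · show (Nat.card (base W K).toAffine.Point : ℤ) • P = 0
      rw [natCast_zsmul]
      exact card_nsmul_eq_zero'

theorem card_odd (hW : W.Δ ≠ 0) (hnr : ∀ x : K, cub (sh W) x ≠ 0)
    (h : Finite (base W K).toAffine.Point) : Odd (Nat.card (base W K).toAffine.Point) := by
  have h1 := tors_odd W hW hnr
  have h2 : {P : (base W K).toAffine.Point | ∃ n : ℕ, 0 < n ∧ n • P = 0} = Set.univ := by
    ext P
    simp only [Set.mem_univ, iff_true]
    exact ⟨Nat.card (base W K).toAffine.Point, Nat.card_pos,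
      card_nsmul_eq_zero' (G := (base W K).toAffine.Point) (x := P)⟩
  rw [h2, Nat.card_univ] at h1
  exact h1

end grp

/-- **The algebraic side.** -/
theorem alg_iff (hΔ : W.Δ < 0) (hnr : ∀ x : ℚ, cub (sh W) x ≠ 0) (K : Type) [Field K]
    [NumberField K] [IsGalois ℚ K] (n : ℕ) (hn : Module.finrank ℚ K = 2 ^ n)
    (hco : ∀ l : ℕ, l.Prime → (l : ℤ) ∣ discr K → ¬ (l : ℤ) ∣ 2 * W.Δ)
    (hdeg : ∀ v : HeightOneSpectrum (𝓞 K), ((2 * W.Δ : ℤ) : 𝓞 K) ∈ v.asIdeal →
      (Ideal.absNorm v.asIdeal).Prime) :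
    (Finite (base W K).toAffine.Point ∧
        ∀ s : Pool.Agent.TH841.NF.D.Sha (base W K), 2 • s = 0 → s = 0) ↔
      (Finite (base W ℚ).toAffine.Point ∧
        ∀ s : Pool.Agent.TH841.NF.D.Sha (base W ℚ), 2 • s = 0 → s = 0) ∧
      ∀ l : ℕ, l.Prime → (l : ℤ) ∣ discr K → Odd ((l : ℤ) - pts W (ZMod l)) := by
  have hnrK := Pool.Agent.Y702.G.no_root (sh W) hnr K n hn
  constructor
  · rintro ⟨hfin, hsha⟩
    have hS := selT_of W K hΔ.ne hnrK hfin hsha
    refine ⟨⟨fin_Q W hfin, sha_two W hΔ.ne (selT_Q W hΔ.ne hnrK hS)⟩, fun l hl hld => ?_⟩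
    by_contra hev
    obtain ⟨r, hr⟩ := exists_root W hl (hco l hl hld) hev
    exact no_root_ram W K hΔ hnrK hS hl (hco l hl hld) (ev_of_disc K hn hl hld) r hr
  · rintro ⟨⟨hfin, hsha⟩, hodd⟩
    have hcard := card_odd W hΔ.ne hnr hfin
    have hsel := Pool.Agent.Y702.G.sel_main2 Pool.Agent.Y93.G.s_inv Pool.Agent.Y141.G2.s_kump
      Pool.Agent.Y852.GS.s_spl Pool.Agent.Y76.GPar.s_par
      (Pool.Agent.Y710.CV.s_conv Pool.Agent.Y46.G2.s_emb)
      (Pool.Agent.Y67.LZ.s_lz Pool.Agent.Y500.G.s_fl) Pool.Agent.Y125.DQ.s_descq W hΔ hnr hsha hfin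
      hcard K n (discr K).natAbs hn
      (fun l hl hlm => ⟨hco l hl (Int.natCast_dvd.2 hlm), hodd l hl (Int.natCast_dvd.2 hlm)⟩)
      (fun p hp hpm v hv => unr_of_disc K hp (fun h => hpm (Int.natCast_dvd.1 h)) v hv) hdeg
    obtain ⟨h1, h2, h3⟩ := Pool.Agent.Y355.G.s_desc W hΔ.ne K hsel hnrK
    exact ⟨h2, h1⟩

end Pool.Agent.R425.G
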