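import Pool.Agent.R425.G.Hb
import Pool.Agent.Y710.CV.Core

/-!
# Equivariant functions on the roots, and the Kummer map
-/

set_option autoImplicit false
set_option linter.all false

open WeierstrassCurve WeierstrassCurve.Affine Polynomial
open scoped Classical

namespace Pool.Agent.R425.G

open Pool.Agent.TH115.GD
open Pool.Agent.Y710.CV (neg_two)

/-- the roots of the cubic polynomial -/
abbrev Rt (V : WeierstrassCurve ℚ) (Ω' : Type) [Field Ω'] [Algebra ℚ Ω'] : Type :=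
  {e : Ω' // cub V e = 0}

section

variable {V : WeierstrassCurve ℚ} {L Ω' : Type} [Field L] [Field Ω'] [Algebra L Ω'] [Algebra ℚ L]
  [Algebra ℚ Ω'] [IsScalarTower ℚ L Ω']

/-- the action on the roots -/
def mv (σ : Ω' ≃ₐ[L] Ω') (e : Rt V Ω') : Rt V Ω' := ⟨σ e.1, by
  have := cub_map V (rs ℚ σ) e.1
  rw [e.2, map_zero] at this
  exact this⟩

theorem mv_mul (σ τ : Ω' ≃ₐ[L] Ω') (e : Rt V Ω') : mv (σ * τ) e = mv σ (mv τ e) := rfl

theorem mv_one (e : Rt V Ω') : mv (1 : Ω' ≃ₐ[L] Ω') e = e := rfl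

theorem mv_inv (σ : Ω' ≃ₐ[L] Ω') (e : Rt V Ω') : mv σ (mv σ⁻¹ e) = e := by
  rw [← mv_mul, mul_inv_cancel, mv_one]

theorem mv_inv' (σ : Ω' ≃ₐ[L] Ω') (e : Rt V Ω') : mv σ⁻¹ (mv σ e) = e := by
  rw [← mv_mul, inv_mul_cancel, mv_one]

variable (V L Ω') in
/-- the equivariant functions on the roots -/
def EE : Subgroup (Rt V Ω' → Ω'ˣ) where
  carrier := {ζ | ∀ (σ : Ω' ≃ₐ[L] Ω') (e : Rt V Ω'), σ (ζ e : Ω') = (ζ (mv σ e) : Ω')}
  one_mem' := fun σ e => by simp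
  mul_mem' := by
    intro ζ η hζ hη σ e
    simp only [Pi.mul_apply, Units.val_mul, map_mul]
    rw [hζ, hη]
  inv_mem' := by
    intro ζ hζ σ e
    simp only [Pi.inv_apply, Units.val_inv_eq_inv_val, map_inv₀]
    rw [hζ]

theorem mem_EE {ζ : Rt V Ω' → Ω'ˣ} : ζ ∈ EE V L Ω' ↔
    ∀ (σ : Ω' ≃ₐ[L] Ω') (e : Rt V Ω'), σ (ζ e : Ω') = (ζ (mv σ e) : Ω') := Iff.rfl

theorem equi (ζ : EE V L Ω') (σ : Ω' ≃ₐ[L] Ω') (e : Rt V Ω') :
    σ (ζ.1 e : Ω') = (ζ.1 (mv σ e) : Ω') := ζ.2 σ e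

variable (V Ω') in
/-- the constants -/
def dl : Lˣ →* EE V L Ω' where
  toFun d := ⟨fun _ => Units.map (algebraMap L Ω' : L →* Ω') d, fun σ e => by
    show σ (algebraMap L Ω' d) = algebraMap L Ω' d
    rw [σ.commutes]⟩
  map_one' := by
    apply Subtype.ext
    funext e
    simp
  map_mul' := fun x y => by
    apply Subtype.ext
    funext e
    simp

theorem dl_apply (d : Lˣ) (e : Rt V Ω') : ((dl V Ω' d).1 e : Ω') = algebraMap L Ω' d := rfl

/-- the Kummer map -/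
noncomputable def kpf (P : Pt V L) (e : Rt V Ω') : Ω' :=
  match P with
  | .zero => 1
  | .some x _ _ => if algebraMap L Ω' x = e.1 then cub' V e.1 else algebraMap L Ω' x - e.1

variable {a b c : Ω'}

theorem root_set (hC : IsC (V.baseChange Ω').toAffine a b c) (e : Rt V Ω') :
    ∃ e' e'', IsC (V.baseChange Ω').toAffine e.1 e' e'' := hC.at_root (hC.root e.2)

theorem isC_pair {b' c' : Ω'} (h : IsC (V.baseChange Ω').toAffine a b c)
    (h' : IsC (V.baseChange Ω').toAffine a b' c') : (b = b' ∧ c = c') ∨ (b = c' ∧ c = b') := by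
  have hb := h'.root h.root_b
  have hc := h'.root h.root_c
  rcases hb with rfl | rfl | rfl
  · exact absurd rfl h.ab
  · rcases hc with rfl | rfl | rfl
    · exact absurd rfl h.ac
    · exact absurd rfl h.bc
    · exact Or.inl ⟨rfl, rfl⟩
  · rcases hc with rfl | rfl | rfl
    · exact absurd rfl h.ac
    · exact Or.inr ⟨rfl, rfl⟩
    · exact absurd rfl h.bc

theorem hc_indep {b' c' : Ω'} (h : IsC (V.baseChange Ω').toAffine a b c)
    (h' : IsC (V.baseChange Ω').toAffine a b' c') (Q : Pt V Ω') :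
    hc a b c Q = hc a b' c' Q := by
  rcases isC_pair h h' with ⟨rfl, rfl⟩ | ⟨rfl, rfl⟩
  · rfl
  · exact hc_swap Q

theorem kpf_eq (P : Pt V L) (e : Rt V Ω') {b c : Ω'}
    (h : IsC (V.baseChange Ω').toAffine e.1 b c) :
    kpf P e = dc e.1 b c (act V (incl ℚ L Ω') P) := by
  rcases P with _ | ⟨x, y, hxy⟩
  · rfl
  · obtain ⟨h1, h2⟩ := act_some V (incl ℚ L Ω') hxy
    rw [h2]
    have e1 : (incl ℚ L Ω') x = algebraMap L Ω' x := rfl
    simp only [kpf, dc, e1]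
    rw [h.cub'_eq]

theorem kpf_ne (hC : IsC (V.baseChange Ω').toAffine a b c) (P : Pt V L) (e : Rt V Ω') :
    kpf P e ≠ 0 := by
  obtain ⟨e', e'', h⟩ := root_set hC e
  rw [kpf_eq P e h]
  exact dc_ne h _

theorem kpf_equi (P : Pt V L) (σ : Ω' ≃ₐ[L] Ω') (e : Rt V Ω') :
    σ (kpf P e) = kpf P (mv σ e) := by
  have hc' : σ (cub' V e.1) = cub' V (mv σ e).1 := (cub'_map V (rs ℚ σ) e.1).symm
  rcases P with _ | ⟨x, y, hxy⟩
  · exact map_one σ
  · have h1 : algebraMap L Ω' x = (mv σ e).1 ↔ algebraMap L Ω' x = e.1 := by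
      show algebraMap L Ω' x = σ e.1 ↔ _
      rw [← σ.commutes x]
      rw [σ.injective.eq_iff]
      rw [σ.commutes x]
    simp only [kpf]
    by_cases h : algebraMap L Ω' x = e.1
    · rw [if_pos h, if_pos (h1.2 h), hc']
    · rw [if_neg h, if_neg (fun h' => h (h1.1 h')), map_sub, σ.commutes]
      rfl

/-- the Kummer map -/
noncomputable def kp (hC : IsC (V.baseChange Ω').toAffine a b c) (P : Pt V L) : EE V L Ω' :=
  ⟨fun e => Units.mk0 (kpf P e) (kpf_ne hC P e), fun σ e => kpf_equi P σ e⟩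

theorem kp_apply (hC : IsC (V.baseChange Ω').toAffine a b c) (P : Pt V L) (e : Rt V Ω') :
    ((kp hC P).1 e : Ω') = kpf P e := rfl

theorem EE_ext {ζ η : EE V L Ω'} (h : ∀ e, (ζ.1 e : Ω') = η.1 e) : ζ = η := by
  apply Subtype.ext
  funext e
  exact Units.ext (h e)

section mul

variable [IsSepClosed Ω'] [IsGalois L Ω']

theorem kp_mul (hC : IsC (V.baseChange Ω').toAffine a b c) (P P' : Pt V L) :
    ∃ η : EE V L Ω', kp hC (P + P') = kp hC P * kp hC P' * η ^ 2 := by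
  by_cases hP : P = 0
  · refine ⟨1, ?_⟩
    subst hP
    have h1 : kp hC (0 : Pt V L) = 1 := EE_ext fun e => rfl
    rw [zero_add, h1, one_pow, one_mul, mul_one]
  by_cases hP' : P' = 0
  · refine ⟨1, ?_⟩
    subst hP'
    have h1 : kp hC (0 : Pt V L) = 1 := EE_ext fun e => rfl
    rw [add_zero, h1, one_pow, mul_one, mul_one]
  by_cases hPP : P + P' = 0
  · have h2 : P' = -P := (neg_eq_of_add_eq_zero_right hPP).symm
    refine ⟨(kp hC P)⁻¹, ?_⟩
    have h1 : kp hC (0 : Pt V L) = 1 := EE_ext fun e => rfl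
    have h3 : kp hC P' = kp hC P := by
      apply EE_ext
      intro e
      rw [h2]
      rcases P with _ | ⟨x, y, hxy⟩
      · rfl
      · rfl
    rw [hPP, h1, h3]
    rw [inv_pow, ← pow_two, mul_inv_cancel]
  obtain ⟨Q, hQ⟩ := halveC hC (act V (incl ℚ L Ω') P)
  obtain ⟨Q', hQ'⟩ := halveC hC (act V (incl ℚ L Ω') P')
  choose o1 o2 ho using fun e : Rt V Ω' => root_set hC e
  have hQQ : (Q + Q') + (Q + Q') = act V (incl ℚ L Ω') (P + P') := by
    rw [map_add, ← hQ, ← hQ']; abel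
  have ne0 : ∀ R : Pt V L, R ≠ 0 → act V (incl ℚ L Ω') R ≠ 0 := fun R hR h =>
    hR (act_inj V (incl ℚ L Ω') (by rw [h, map_zero]))
  have hne : ∀ (X : Pt V Ω') (e : Rt V Ω'), hc e.1 (o1 e) (o2 e) X ≠ 0 := fun X e => hc_ne (ho e) X
  -- the action on the square roots
  have key : ∀ (X : Pt V Ω') (R : Pt V L), X + X = act V (incl ℚ L Ω') R → R ≠ 0 →
      ∀ (σ : Ω' ≃ₐ[L] Ω') (e : Rt V Ω'), (act V (rs ℚ σ) X - X) + (act V (rs ℚ σ) X - X) = 0 ∧
        σ (hc e.1 (o1 e) (o2 e) X) = sC (mv σ e).1 (act V (rs ℚ σ) X - X) *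
          hc (mv σ e).1 (o1 (mv σ e)) (o2 (mv σ e)) X := by
    intro X R hX hR σ e
    have hT : (act V (rs ℚ σ) X - X) + (act V (rs ℚ σ) X - X) = 0 := by
      have h1 : act V (rs ℚ σ) (X + X) = X + X := by rw [hX, rs_act_incl]
      rw [map_add] at h1
      have h3 : (act V (rs ℚ σ) X - X) + (act V (rs ℚ σ) X - X) =
          (act V (rs ℚ σ) X + act V (rs ℚ σ) X) - (X + X) := by abel
      rw [h3, h1, sub_self]
    refine ⟨hT, ?_⟩
    have h1 := hc_act V (rs ℚ σ) e.1 (o1 e) (o2 e) X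
    have hC1 : IsC (V.baseChange Ω').toAffine ((rs ℚ σ) e.1) ((rs ℚ σ) (o1 e)) ((rs ℚ σ) (o2 e)) :=
      (ho e).map (rs ℚ σ)
    have h2 := hc_indep hC1 (ho (mv σ e)) (act V (rs ℚ σ) X)
    have h3 : act V (rs ℚ σ) X = X + (act V (rs ℚ σ) X - X) := by abel
    have h4 := hc_translate (ho (mv σ e)) (P := X) hT (fun h => by
      exfalso
      exact ne0 R hR (by rw [← hX, h]))
    rw [← h3] at h4
    exact h1.symm.trans (h2.trans h4)
  have hPP0 : P + P' ≠ 0 := hPP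
  let η : Rt V Ω' → Ω'ˣ := fun e => Units.mk0 (hc e.1 (o1 e) (o2 e) (Q + Q') /
    (hc e.1 (o1 e) (o2 e) Q * hc e.1 (o1 e) (o2 e) Q'))
    (div_ne_zero (hne _ e) (mul_ne_zero (hne _ e) (hne _ e)))
  have hη : η ∈ EE V L Ω' := by
    intro σ e
    obtain ⟨t1, k1⟩ := key Q P hQ hP σ e
    obtain ⟨t2, k2⟩ := key Q' P' hQ' hP' σ e
    obtain ⟨t3, k3⟩ := key (Q + Q') (P + P') hQQ hPP0 σ e
    show σ (hc e.1 (o1 e) (o2 e) (Q + Q') /
      (hc e.1 (o1 e) (o2 e) Q * hc e.1 (o1 e) (o2 e) Q')) = _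
    rw [map_div₀, map_mul, k1, k2, k3]
    have e1 : act V (rs ℚ σ) (Q + Q') - (Q + Q') =
        (act V (rs ℚ σ) Q - Q) + (act V (rs ℚ σ) Q' - Q') := by
      rw [map_add]; abel
    rw [e1, sC_add (ho (mv σ e)) t1 t2]
    have n1 := sC_ne (a := (mv σ e).1) (act V (rs ℚ σ) Q - Q)
    have n2 := sC_ne (a := (mv σ e).1) (act V (rs ℚ σ) Q' - Q')
    show _ = hc (mv σ e).1 (o1 (mv σ e)) (o2 (mv σ e)) (Q + Q') /
      (hc (mv σ e).1 (o1 (mv σ e)) (o2 (mv σ e)) Q * hc (mv σ e).1 (o1 (mv σ e)) (o2 (mv σ e)) Q')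
    have m1 := hne Q (mv σ e)
    have m2 := hne Q' (mv σ e)
    rw [div_eq_div_iff (mul_ne_zero (mul_ne_zero n1 m1) (mul_ne_zero n2 m2)) (mul_ne_zero m1 m2)]
    ring
  refine ⟨⟨η, hη⟩, ?_⟩
  apply EE_ext
  intro e
  show kpf (P + P') e = kpf P e * kpf P' e * (hc e.1 (o1 e) (o2 e) (Q + Q') /
    (hc e.1 (o1 e) (o2 e) Q * hc e.1 (o1 e) (o2 e) Q')) ^ 2
  rw [kpf_eq _ _ (ho e), kpf_eq _ _ (ho e), kpf_eq _ _ (ho e), ← hQ, ← hQ', ← hQQ,
    ← hc_sq (ho e), ← hc_sq (ho e), ← hc_sq (ho e)]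
  have m1 := hne Q e
  have m2 := hne Q' e
  field_simp

end mul

section inj

variable [IsSepClosed Ω'] [IsGalois L Ω']

/-- a Galois invariant element -/
theorem fixed_mem {x : Ω'} (h : ∀ σ : Ω' ≃ₐ[L] Ω', σ x = x) : ∃ y : L, algebraMap L Ω' y = x := by
  have h1 : x ∈ (⊥ : IntermediateField L Ω') := by
    rw [← InfiniteGalois.fixedField_bot]
    rw [IntermediateField.mem_fixedField_iff]
    intro σ _
    exact h σ
  exact IntermediateField.mem_bot.1 h1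

/-- the product over the roots -/
theorem prod_fixed (hC : IsC (V.baseChange Ω').toAffine a b c) (η : EE V L Ω') :
    ∃ y : L, algebraMap L Ω' y = (η.1 ⟨a, hC.root_a⟩ : Ω') * η.1 ⟨b, hC.root_b⟩ *
      η.1 ⟨c, hC.root_c⟩ := by
  apply fixed_mem
  intro σ
  rw [map_mul, map_mul, equi, equi, equi]
  set t : Rt V Ω' → Ω' := fun e => (η.1 e : Ω') with ht
  have key : ∀ (x y z : Rt V Ω'), x ≠ y → x ≠ z → y ≠ z →
      t x * t y * t z = t ⟨a, hC.root_a⟩ * t ⟨b, hC.root_b⟩ * t ⟨c, hC.root_c⟩ := by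
    intro x y z hxy hxz hyz
    have hx : x = ⟨a, hC.root_a⟩ ∨ x = ⟨b, hC.root_b⟩ ∨ x = ⟨c, hC.root_c⟩ := by
      rcases hC.root x.2 with h | h | h
      · exact Or.inl (Subtype.ext h)
      · exact Or.inr (Or.inl (Subtype.ext h))
      · exact Or.inr (Or.inr (Subtype.ext h))
    have hy : y = ⟨a, hC.root_a⟩ ∨ y = ⟨b, hC.root_b⟩ ∨ y = ⟨c, hC.root_c⟩ := by
      rcases hC.root y.2 with h | h | h
      · exact Or.inl (Subtype.ext h)
      · exact Or.inr (Or.inl (Subtype.ext h))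
      · exact Or.inr (Or.inr (Subtype.ext h))
    have hz : z = ⟨a, hC.root_a⟩ ∨ z = ⟨b, hC.root_b⟩ ∨ z = ⟨c, hC.root_c⟩ := by
      rcases hC.root z.2 with h | h | h
      · exact Or.inl (Subtype.ext h)
      · exact Or.inr (Or.inl (Subtype.ext h))
      · exact Or.inr (Or.inr (Subtype.ext h))
    rcases hx with rfl | rfl | rfl <;> rcases hy with rfl | rfl | rfl <;>
      rcases hz with rfl | rfl | rfl <;>
      first
        | exact absurd rfl hxy
        | exact absurd rfl hxz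
        | exact absurd rfl hyz
        | ring
  have hmv : ∀ x y : Rt V Ω', x ≠ y → mv σ x ≠ mv σ y := by
    intro x y hxy h
    apply hxy
    rw [← mv_inv' σ x, h, mv_inv']
  refine key _ _ _ (hmv _ _ ?_) (hmv _ _ ?_) (hmv _ _ ?_)
  · exact fun h => hC.ab (congrArg Subtype.val h)
  · exact fun h => hC.ac (congrArg Subtype.val h)
  · exact fun h => hC.bc (congrArg Subtype.val h)

/-- the norm of the Kummer map is a square -/
theorem kp_norm (hC : IsC (V.baseChange Ω').toAffine a b c) (P : Pt V L) :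
    ∃ y : L, kpf P (⟨a, hC.root_a⟩ : Rt V Ω') * kpf P (⟨b, hC.root_b⟩ : Rt V Ω') *
      kpf P (⟨c, hC.root_c⟩ : Rt V Ω') = algebraMap L Ω' y ^ 2 := by
  rcases P with _ | ⟨x, y, hxy⟩
  · exact ⟨1, by simp [kpf]⟩
  · simp only [kpf]
    have hcx : ∀ x : L, algebraMap L Ω' (cub' V x) = cub' V (algebraMap L Ω' x) := fun x =>
      (cub'_map V (incl ℚ L Ω') x).symm
    by_cases h1 : algebraMap L Ω' x = a
    · have h2 : algebraMap L Ω' x ≠ b := by rw [h1]; exact hC.ab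
      have h3 : algebraMap L Ω' x ≠ c := by rw [h1]; exact hC.ac
      refine ⟨cub' V x, ?_⟩
      rw [if_pos h1, if_neg h2, if_neg h3, hcx, h1, hC.cub'_eq]
      ring
    by_cases h2 : algebraMap L Ω' x = b
    · have h3 : algebraMap L Ω' x ≠ c := by rw [h2]; exact hC.bc
      refine ⟨cub' V x, ?_⟩
      rw [if_neg h1, if_pos h2, if_neg h3, hcx, h2, hC.rot.cub'_eq]
      ring
    by_cases h3 : algebraMap L Ω' x = c
    · refine ⟨cub' V x, ?_⟩
      rw [if_neg h1, if_neg h2, if_pos h3, hcx, h3, hC.rot.rot.cub'_eq]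
      ring
    · refine ⟨y, ?_⟩
      rw [if_neg h1, if_neg h2, if_neg h3]
      obtain ⟨h, hh⟩ := act_some V (incl ℚ L Ω') hxy
      exact (hC.eqn h).symm

/-- injectivity of the Kummer map -/
theorem kp_inj (hC : IsC (V.baseChange Ω').toAffine a b c) (P : Pt V L) (d : Lˣ) (η : EE V L Ω')
    (h : kp hC P * dl V Ω' d = η ^ 2) :
    (∃ s : Lˣ, s ^ 2 = d) ∧ ∃ R : Pt V L, R + R = P := by
  have he : ∀ e : Rt V Ω', kpf P e * algebraMap L Ω' d = (η.1 e : Ω') ^ 2 := by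
    intro e
    have h1 := congrArg (fun z : EE V L Ω' => (z.1 e : Ω')) h
    exact h1
  have hd : ∃ s : Lˣ, s ^ 2 = d := by
    obtain ⟨y, hy⟩ := kp_norm hC P
    obtain ⟨n, hn⟩ := prod_fixed hC η
    have h1 : algebraMap L Ω' y ^ 2 * algebraMap L Ω' d ^ 3 = algebraMap L Ω' n ^ 2 := by
      rw [hn, ← hy, mul_pow, mul_pow, ← he, ← he, ← he]
      ring
    have hy0 : y ≠ 0 := by
      rintro rfl
      rw [map_zero, zero_pow two_ne_zero] at hy
      exact mul_ne_zero (mul_ne_zero (kpf_ne hC P _) (kpf_ne hC P _)) (kpf_ne hC P _) hy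
    have h2 : y ^ 2 * (d : L) ^ 3 = n ^ 2 := by
      apply (algebraMap L Ω').injective
      simp only [map_mul, map_pow]
      exact h1
    have hd0 : (d : L) ≠ 0 := d.ne_zero
    have h3 : (n / (y * d)) ^ 2 = (d : L) := by
      rw [div_pow, ← h2]
      field_simp
    have hn0 : n ≠ 0 := by
      rintro rfl
      rw [zero_pow two_ne_zero] at h2
      exact mul_ne_zero (pow_ne_zero 2 hy0) (pow_ne_zero 3 hd0) h2
    exact ⟨Units.mk0 (n / (y * d)) (div_ne_zero hn0 (mul_ne_zero hy0 hd0)), Units.ext h3⟩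
  refine ⟨hd, ?_⟩
  obtain ⟨s, hs⟩ := hd
  obtain ⟨Q, hQ⟩ := halveC hC (act V (incl ℚ L Ω') P)
  have hT : ∀ σ : Ω' ≃ₐ[L] Ω', (act V (rs ℚ σ) Q - Q) + (act V (rs ℚ σ) Q - Q) = 0 := by
    intro σ
    have h1 : act V (rs ℚ σ) (Q + Q) = Q + Q := by rw [hQ, rs_act_incl]
    rw [map_add] at h1
    have h3 : (act V (rs ℚ σ) Q - Q) + (act V (rs ℚ σ) Q - Q) =
        (act V (rs ℚ σ) Q + act V (rs ℚ σ) Q) - (Q + Q) := by abel
    rw [h3, h1, sub_self]
  have hmul : ∀ σ τ : Ω' ≃ₐ[L] Ω', (act V (rs ℚ (σ * τ)) Q - Q) =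
      (act V (rs ℚ σ) Q - Q) + act V (rs ℚ σ) (act V (rs ℚ τ) Q - Q) := by
    intro σ τ
    rw [Pool.Agent.Y710.CV.act_mul_rs, map_sub]
    abel
  obtain ⟨S, hS, hS2⟩ := Pool.Agent.Y710.CV.cobL (K := ℚ) (L := L) hC
    (h := fun σ => act V (rs ℚ σ) Q - Q) hmul hT (by
      intro e he0 σ hσ
      obtain ⟨b', c', hC1⟩ := hC.at_root (hC.root he0)
      have h1 := he ⟨e, he0⟩
      rw [kpf_eq P ⟨e, he0⟩ hC1, ← hQ, ← hc_sq hC1, ← hs] at h1
      have h2 : (hc e b' c' Q * algebraMap L Ω' s) ^ 2 = (η.1 ⟨e, he0⟩ : Ω') ^ 2 := by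
        rw [← h1, mul_pow, Units.val_pow_eq_pow_val, map_pow]
      have hσe : mv σ (⟨e, he0⟩ : Rt V Ω') = ⟨e, he0⟩ := Subtype.ext hσ
      have h3 : σ (η.1 ⟨e, he0⟩ : Ω') = η.1 ⟨e, he0⟩ := by rw [equi, hσe]
      have hs0 : algebraMap L Ω' (s : L) ≠ 0 := (_root_.map_ne_zero _).2 s.ne_zero
      have h4 : σ (hc e b' c' Q) = hc e b' c' Q := by
        rcases sq_eq_sq_iff_eq_or_eq_neg.1 h2 with h5 | h5
        · have h6 := congrArg σ h5
          rw [h3, ← h5, map_mul, σ.commutes] at h6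
          exact mul_right_cancel₀ hs0 h6
        · have h6 := congrArg σ h5
          rw [map_neg, h3, ← h5, map_mul, σ.commutes] at h6
          exact mul_right_cancel₀ hs0 h6
      have hrσ : (rs ℚ σ) e = e := hσ
      have hcσ : σ (hc e b' c' Q) = sC e (act V (rs ℚ σ) Q - Q) * hc e b' c' Q :=
        hc_sign hC1 hrσ (hT σ)
      rw [h4] at hcσ
      apply mul_right_cancel₀ (hc_ne hC1 Q)
      rw [← hcσ, one_mul])
  have hfix : ∀ σ : Ω' ≃ₐ[L] Ω', act V (rs ℚ σ) (Q - S) = Q - S := by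
    intro σ
    have h1 := hS2 σ
    rw [map_sub]
    have h2 : act V (rs ℚ σ) Q - Q = act V (rs ℚ σ) S - S := h1
    have h3 : act V (rs ℚ σ) Q - act V (rs ℚ σ) S - (Q - S) = 0 := by
      have : act V (rs ℚ σ) Q - act V (rs ℚ σ) S - (Q - S) =
        (act V (rs ℚ σ) Q - Q) - (act V (rs ℚ σ) S - S) := by abel
      rw [this, h2, sub_self]
    exact sub_eq_zero.1 h3
  obtain ⟨R, hR⟩ := fixed_point (K := ℚ) (F := L) V (Q - S) hfix
  refine ⟨R, ?_⟩
  apply act_inj V (incl ℚ L Ω')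
  rw [map_add, hR, ← hQ]
  have : Q - S + (Q - S) = (Q + Q) - (S + S) := by abel
  rw [this, hS, sub_zero]

end inj

end

end Pool.Agent.R425.G
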