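import Pool.Agent.R425.G.Hb

/-!
# The group of points over a local field modulo two
-/

set_option autoImplicit false
set_option linter.all false

open WeierstrassCurve WeierstrassCurve.Affine
open scoped NNReal Classical

namespace Pool.Agent.R425.G

/-- the data of a local field with residue field of `p` elements and uniformizer `p` -/
structure LD {L : Type} [Field L] (u : Valuation L ℝ≥0) (p : ℕ) : Prop where
  pr : p.Prime
  lt : u (p : L) < 1
  ne : u (p : L) ≠ 0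
  disc : ∀ x : L, x ≠ 0 → ∃ n : ℤ, u x = u (p : L) ^ n
  res : ∀ x : L, u x ≤ 1 → ∃ a : ℕ, a < p ∧ u (x - a) < 1
  sq : ∀ x : L, u (x - 1) < u 4 → ∃ y : L, y ^ 2 = x

section ld

variable {L : Type} [Field L] {u : Valuation L ℝ≥0} {p : ℕ}

theorem u_nat (u : Valuation L ℝ≥0) (n : ℕ) : u (n : L) ≤ 1 := by
  have h : (n : L) ∈ u.valuationSubring := natCast_mem _ n
  exact h

theorem u_add {x y : L} {r : ℝ≥0} (hx : u x ≤ r) (hy : u y ≤ r) : u (x + y) ≤ r :=
  (Valuation.map_add _ _ _).trans (max_le hx hy)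

theorem u_sub {x y : L} {r : ℝ≥0} (hx : u x ≤ r) (hy : u y ≤ r) : u (x - y) ≤ r :=
  (Valuation.map_sub _ _ _).trans (max_le hx hy)

theorem LD.p0 (h : LD u p) : (p : L) ≠ 0 := by
  intro h0
  apply h.ne
  rw [h0, map_zero]

theorem LD.le_of_lt (h : LD u p) {x : L} (hx : u x < 1) : u x ≤ u (p : L) := by
  by_cases hx0 : x = 0
  · rw [hx0, map_zero]; exact zero_le
  · obtain ⟨n, hn⟩ := h.disc x hx0
    rw [hn] at hx ⊢
    have h1 : 0 < n := by
      by_contra hcon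
      rw [not_lt] at hcon
      have : 1 ≤ u (p : L) ^ n := one_le_zpow_of_nonpos₀ (pos_of_ne_zero h.ne) h.lt.le hcon
      exact absurd hx (not_lt.2 this)
    calc u (p : L) ^ n ≤ u (p : L) ^ (1 : ℤ) :=
          zpow_le_zpow_right_of_le_one₀ (pos_of_ne_zero h.ne) h.lt.le (by omega)
      _ = u (p : L) := zpow_one _

theorem LD.approx (h : LD u p) (N : ℕ) : ∀ x : L, u x ≤ 1 →
    ∃ a : ℕ, a < p ^ N ∧ u (x - a) ≤ u (p : L) ^ N := by
  induction N with
  | zero =>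
    intro x hx
    exact ⟨0, by simp, by simpa using hx⟩
  | succ N ih =>
    intro x hx
    obtain ⟨a, ha, hxa⟩ := h.res x hx
    have h1 := h.le_of_lt hxa
    have h2 : u ((x - a) / p) ≤ 1 := by
      rw [map_div₀]
      exact div_le_one_of_le₀ h1 zero_le
    obtain ⟨b, hb, hxb⟩ := ih _ h2
    refine ⟨a + p * b, ?_, ?_⟩
    · rw [pow_succ]
      have : p * b + p ≤ p ^ N * p := by
        have : b + 1 ≤ p ^ N := hb
        calc p * b + p = (b + 1) * p := by ring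
          _ ≤ p ^ N * p := Nat.mul_le_mul_right _ this
      omega
    · have h3 : x - ((a + p * b : ℕ) : L) = p * ((x - a) / p - b) := by
        push_cast
        field_simp [h.p0]
        ring
      rw [h3, map_mul, pow_succ']
      exact mul_le_mul_right hxb _

theorem LD.two_eq (h : LD u p) (h2 : p ≠ 2) : u 2 = 1 := by
  apply le_antisymm
  · exact_mod_cast u_nat u 2
  · by_contra hcon
    rw [not_le] at hcon
    obtain ⟨k, hk⟩ := h.pr.odd_of_ne_two h2
    have h1 : (1 : L) = p - 2 * k := by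
      rw [hk]; push_cast; ring
    have h3 : u (1 : L) < 1 := by
      rw [h1]
      refine (Valuation.map_sub _ _ _).trans_lt (max_lt h.lt ?_)
      rw [map_mul]
      exact mul_lt_one_of_lt_of_le hcon (u_nat u k)
    rw [map_one] at h3
    exact lt_irrefl _ h3

theorem LD.two_ne (h : LD u p) : u 2 ≠ 0 := by
  by_cases h2 : p = 2
  · have := h.ne
    rw [h2] at this
    exact_mod_cast this
  · rw [h.two_eq h2]; exact one_ne_zero

end ld

section line

variable {K : Type} [Field K] {W : WeierstrassCurve.Affine K}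

/-- The relations between the coordinates of `P`, `Q`, `-(P + Q)`. -/
theorem line_rel {x₁ x₂ y₁ y₂ : K} (h₁ : W.Equation x₁ y₁) (h₂ : W.Equation x₂ y₂)
    (hxy : ¬(x₁ = x₂ ∧ y₁ = W.negY x₂ y₂)) :
    let l := W.slope x₁ x₂ y₁ y₂
    let c := y₁ - l * x₁
    let x₃ := W.addX x₁ x₂ l
    x₁ + x₂ + x₃ = l ^ 2 + W.a₁ * l - W.a₂ ∧
      x₁ * x₂ + x₁ * x₃ + x₂ * x₃ = -(2 * l * c + W.a₁ * c + W.a₃ * l - W.a₄) := by
  intro l c x₃
  refine ⟨?_, ?_⟩
  · show x₁ + x₂ + W.addX x₁ x₂ l = _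
    rw [Affine.addX]
    ring
  · have h3 := addPolynomial_slope h₁ h₂ hxy
    rw [addPolynomial_eq, neg_inj, Cubic.prod_X_sub_C_eq, Cubic.toPoly_injective] at h3
    have h4 := congrArg Cubic.c h3
    simp only at h4
    show x₁ * x₂ + x₁ * W.addX x₁ x₂ l + x₂ * W.addX x₁ x₂ l =
      -(2 * l * (y₁ - l * x₁) + W.a₁ * (y₁ - l * x₁) + W.a₃ * l - W.a₄)
    linear_combination -h4

end line

section core

variable {L : Type} [Field L] {u : Valuation L ℝ≥0}

theorem core1 {x1 x2 x3 l c A B C : L} (hA : u A ≤ 1) (hB : u B ≤ 1) (hC : u C ≤ 1)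
    (h1 : x1 + x2 + x3 = l ^ 2 - A) (h2 : x1 * x2 + x1 * x3 + x2 * x3 = B - 2 * l * c)
    (h3 : x1 * x2 * x3 = c ^ 2 - C) (g1 : 1 < u x1) (g2 : 1 < u x2) (h12 : u x2 ≤ u x1) :
    u x2 ≤ u x3 := by
  by_contra hcon
  rw [not_le] at hcon
  have h31 : u x3 < u x1 := hcon.trans_le h12
  have hl : u l ^ 2 ≤ u x1 := by
    have e : l ^ 2 = x1 + x2 + x3 + A := by linear_combination -h1
    rw [← map_pow, e]
    exact u_add (u_add (u_add le_rfl h12) h31.le) (hA.trans g1.le)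
  have p1 : (0 : ℝ≥0) < u x1 := zero_lt_one.trans g1
  have p2 : (0 : ℝ≥0) < u x2 := zero_lt_one.trans g2
  have hc : u c ^ 2 < u x1 * u x2 ^ 2 := by
    have e : c ^ 2 = x1 * x2 * x3 + C := by linear_combination -h3
    rw [← map_pow, e]
    refine (Valuation.map_add _ _ _).trans_lt (max_lt ?_ ?_)
    · rw [map_mul, map_mul, pow_two, mul_assoc]
      exact mul_lt_mul_of_pos_left (mul_lt_mul_of_pos_left hcon p2) p1
    · exact hC.trans_lt (one_lt_mul_of_lt_of_le g1 (one_le_pow₀ g2.le))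
  have hlc : u (2 * l * c) = u x1 * u x2 := by
    have e : 2 * l * c = -(x1 * x2 + (x3 * (x1 + x2) - B)) := by linear_combination h2
    rw [e, Valuation.map_neg, ← map_mul]
    apply Valuation.map_add_eq_of_lt_left
    refine (Valuation.map_sub _ _ _).trans_lt (max_lt ?_ ?_)
    · rw [map_mul, map_mul, mul_comm]
      have h5 : u (x1 + x2) ≤ u x1 := u_add le_rfl h12
      calc u (x1 + x2) * u x3 ≤ u x1 * u x3 := mul_le_mul_left h5 _
        _ < u x1 * u x2 := mul_lt_mul_of_pos_left hcon p1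
    · rw [map_mul]
      exact hB.trans_lt (one_lt_mul_of_lt_of_le g1 g2.le)
  have h5 : u x1 * u x2 ≤ u l * u c := by
    rw [← hlc, map_mul, map_mul, mul_assoc]
    exact mul_le_of_le_one_left' (by exact_mod_cast u_nat u 2)
  have h6 : (u x1 * u x2) ^ 2 ≤ u l ^ 2 * u c ^ 2 := by
    rw [← mul_pow]
    exact pow_le_pow_left₀ zero_le h5 2
  have h7 : u l ^ 2 * u c ^ 2 < (u x1 * u x2) ^ 2 := by
    calc u l ^ 2 * u c ^ 2 ≤ u x1 * u c ^ 2 := mul_le_mul_left hl _
      _ < u x1 * (u x1 * u x2 ^ 2) := mul_lt_mul_of_pos_left hc p1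
      _ = (u x1 * u x2) ^ 2 := by ring
  exact absurd h6 (not_le.2 h7)

theorem core2 {x1 x2 x3 l c A B C : L} (hA : u A ≤ 1) (hB : u B ≤ 1) (hC : u C ≤ 1)
    (h1 : x1 + x2 + x3 = l ^ 2 - A) (h2 : x1 * x2 + x1 * x3 + x2 * x3 = B - 2 * l * c)
    (h3 : x1 * x2 * x3 = c ^ 2 - C) {R : ℝ≥0} (hR : 1 < R) (g1 : R ≤ u x1) (g2 : R ≤ u x2) :
    R ≤ u x3 := by
  rcases le_total (u x2) (u x1) with h | h
  · exact g2.trans (core1 hA hB hC h1 h2 h3 (hR.trans_le g1) (hR.trans_le g2) h)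
  · exact g1.trans (core1 (l := l) (c := c) hA hB hC (by linear_combination h1) (by linear_combination h2)
      (by linear_combination h3) (hR.trans_le g2) (hR.trans_le g1) h)

end core

section grp

variable {L : Type} [Field L] {u : Valuation L ℝ≥0} {W : WeierstrassCurve.Affine L}

/-- the equation -/
structure WI (u : Valuation L ℝ≥0) (W : WeierstrassCurve.Affine L) : Prop where
  a1 : W.a₁ = 0
  a3 : W.a₃ = 0
  a2 : u W.a₂ ≤ 1
  a4 : u W.a₄ ≤ 1
  a6 : u W.a₆ ≤ 1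

theorem WI.eqn (h : WI u W) {x y : L} (hxy : W.Equation x y) :
    y ^ 2 = x ^ 3 + W.a₂ * x ^ 2 + W.a₄ * x + W.a₆ := by
  rw [Affine.equation_iff, h.a1, h.a3] at hxy
  linear_combination hxy

theorem WI.neg (h : WI u W) (x y : L) : W.negY x y = -y := by
  rw [Affine.negY, h.a1, h.a3]; ring

theorem WI.rel (h : WI u W) {x₁ x₂ y₁ y₂ : L} (h₁ : W.Equation x₁ y₁) (h₂ : W.Equation x₂ y₂)
    (hxy : ¬(x₁ = x₂ ∧ y₁ = W.negY x₂ y₂)) :
    let l := W.slope x₁ x₂ y₁ y₂
    let c := y₁ - l * x₁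
    let x₃ := W.addX x₁ x₂ l
    x₁ + x₂ + x₃ = l ^ 2 - W.a₂ ∧
      x₁ * x₂ + x₁ * x₃ + x₂ * x₃ = W.a₄ - 2 * l * c ∧ x₁ * x₂ * x₃ = c ^ 2 - W.a₆ := by
  intro l c x₃
  obtain ⟨r1, r2⟩ := line_rel h₁ h₂ hxy
  have e1 := h.eqn h₁
  rw [h.a1, h.a3] at r2
  rw [h.a1] at r1
  have r1' : x₁ + x₂ + x₃ = l ^ 2 - W.a₂ := by linear_combination r1
  have r2' : x₁ * x₂ + x₁ * x₃ + x₂ * x₃ = W.a₄ - 2 * l * c := by linear_combination r2
  refine ⟨r1', r2', ?_⟩
  have hc : y₁ = l * x₁ + c := by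
    show y₁ = l * x₁ + (y₁ - l * x₁)
    ring
  rw [hc] at e1
  linear_combination (-x₁ ^ 2) * r1' + x₁ * r2' - e1

/-- the subgroup of the points with large coordinates -/
noncomputable def HR (u : Valuation L ℝ≥0) (W : WeierstrassCurve.Affine L) (hW : WI u W) (R : ℝ≥0)
    (hR : 1 < R) : AddSubgroup W.Point where
  carrier := {P | ∀ x y h, P = Point.some x y h → R ≤ u x}
  zero_mem' := fun x y h he => absurd he.symm (Point.some_ne_zero _)
  neg_mem' := by
    intro P hP x y h he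
    rcases P with _ | ⟨x₁, y₁, h₁⟩
    · rw [← Point.zero_def, neg_zero] at he
      exact absurd he.symm (Point.some_ne_zero _)
    · rw [Point.neg_some] at he
      obtain ⟨e1, e2⟩ := Point.some.inj he
      rw [← e1]
      exact hP x₁ y₁ h₁ rfl
  add_mem' := by
    intro P Q hP hQ x y h he
    rcases P with _ | ⟨x₁, y₁, h₁⟩
    · rw [← Point.zero_def, zero_add] at he
      exact hQ x y h he
    rcases Q with _ | ⟨x₂, y₂, h₂⟩
    · rw [← Point.zero_def, add_zero] at he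
      exact hP x y h he
    by_cases hxy : x₁ = x₂ ∧ y₁ = W.negY x₂ y₂
    · rw [Point.add_of_Y_eq hxy.1 hxy.2] at he
      exact absurd he.symm (Point.some_ne_zero _)
    · rw [Point.add_some hxy] at he
      obtain ⟨e1, e2⟩ := Point.some.inj he
      obtain ⟨r1, r2, r3⟩ := hW.rel h₁.1 h₂.1 hxy
      rw [← e1]
      exact core2 hW.a2 hW.a4 hW.a6 r1 r2 r3 hR (hP x₁ y₁ h₁ rfl) (hQ x₂ y₂ h₂ rfl)

theorem cub_big (hW : WI u W) {x : L} (hx : 1 < u x) :
    u (x ^ 3 + W.a₂ * x ^ 2 + W.a₄ * x + W.a₆) = u x ^ 3 := by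
  have e : x ^ 3 + W.a₂ * x ^ 2 + W.a₄ * x + W.a₆ = x ^ 3 + (W.a₂ * x ^ 2 + W.a₄ * x + W.a₆) := by
    ring
  rw [e, ← map_pow]
  apply Valuation.map_add_eq_of_lt_left
  rw [map_pow]
  have h2 : u x ^ 2 < u x ^ 3 := pow_lt_pow_right₀ hx (by norm_num)
  have h1 : u x ≤ u x ^ 2 := by
    calc u x = u x ^ 1 := (pow_one _).symm
      _ ≤ u x ^ 2 := pow_le_pow_right₀ hx.le (by norm_num)
  have h0 : 1 ≤ u x ^ 2 := one_le_pow₀ hx.le
  refine (u_add (r := u x ^ 2) (u_add ?_ ?_) ?_).trans_lt h2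
  · rw [map_mul, map_pow]
    exact mul_le_of_le_one_left' hW.a2
  · rw [map_mul]
    exact (mul_le_of_le_one_left' hW.a4).trans h1
  · exact hW.a6.trans h0

theorem HR_two (hW : WI u W) (h2 : u 2 ≠ 0) {R : ℝ≥0} (hR : 1 < R) {P : W.Point}
    (hP : P ∈ HR u W hW R hR) (hPP : P + P = 0) : P = 0 := by
  rcases P with _ | ⟨x, y, h⟩
  · rfl
  · exfalso
    have hx : R ≤ u x := hP x y h rfl
    have h1 : Point.some x y h = - Point.some x y h := (neg_eq_of_add_eq_zero_left hPP).symm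
    rw [Point.neg_some] at h1
    obtain ⟨-, e2⟩ := Point.some.inj h1
    rw [hW.neg] at e2
    have h20 : (2 : L) ≠ 0 := fun h => h2 (by rw [h, map_zero])
    have hy : y = 0 := by
      have : 2 * y = 0 := by linear_combination e2
      exact (mul_eq_zero.1 this).resolve_left h20
    have h3 := hW.eqn h.1
    have h4 := cub_big hW (hR.trans_le hx)
    rw [← h3, hy] at h4
    rw [zero_pow two_ne_zero, map_zero] at h4
    exact (pow_ne_zero 3 (zero_lt_one.trans (hR.trans_le hx)).ne') h4.symm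

theorem HR_dbl (hW : WI u W) (h2 : u 2 ≠ 0) {R : ℝ≥0} (hR : 1 < R) {P : W.Point}
    (hP : P ∈ HR u W hW R hR) {x' y' : L} {h' : W.Nonsingular x' y'}
    (he : P + P = Point.some x' y' h') :
    ∃ x y h, P = Point.some x y h ∧ u 4 * u x' = u x := by
  rcases P with _ | ⟨x, y, h⟩
  · rw [← Point.zero_def, add_zero] at he
    exact absurd he.symm (Point.some_ne_zero _)
  · refine ⟨x, y, h, rfl, ?_⟩
    have hx : R ≤ u x := hP x y h rfl
    have hx1 : 1 < u x := hR.trans_le hx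
    have h20 : (2 : L) ≠ 0 := fun h => h2 (by rw [h, map_zero])
    have hxy : ¬ (x = x ∧ y = W.negY x y) := by
      rintro ⟨-, h1⟩
      rw [Point.add_of_Y_eq rfl h1] at he
      exact absurd he.symm (Point.some_ne_zero _)
    have hy : y ≠ W.negY x y := fun h => hxy ⟨rfl, h⟩
    rw [Point.add_some hxy] at he
    obtain ⟨e1, e2⟩ := Point.some.inj he
    have hsl := slope_of_Y_ne (W := W) (x₁ := x) (x₂ := x) (y₁ := y) (y₂ := y) rfl hy
    have h3 := hW.eqn h.1
    have hy0 : y ≠ 0 := by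
      rintro rfl
      apply hy
      rw [hW.neg, neg_zero]
    have hx' : 4 * y ^ 2 * x' = x ^ 4 - 2 * W.a₄ * x ^ 2 - 8 * W.a₆ * x +
        (W.a₄ ^ 2 - 4 * W.a₂ * W.a₆) := by
      have e3 : W.slope x x y y * (2 * y) = 3 * x ^ 2 + 2 * W.a₂ * x + W.a₄ := by
        rw [hsl, hW.neg, hW.a1]
        have : y - -y = 2 * y := by ring
        rw [this]
        field_simp
        ring
      rw [← e1, Affine.addX, hW.a1]
      have e4 : 4 * y ^ 2 * (W.slope x x y y ^ 2 + 0 * W.slope x x y y - W.a₂ - x - x) =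
          (W.slope x x y y * (2 * y)) ^ 2 - 4 * y ^ 2 * (W.a₂ + 2 * x) := by ring
      rw [e4, e3, h3]
      ring
    have h5 : u (x ^ 4 - 2 * W.a₄ * x ^ 2 - 8 * W.a₆ * x + (W.a₄ ^ 2 - 4 * W.a₂ * W.a₆)) =
        u x ^ 4 := by
      have e : x ^ 4 - 2 * W.a₄ * x ^ 2 - 8 * W.a₆ * x + (W.a₄ ^ 2 - 4 * W.a₂ * W.a₆) =
        x ^ 4 + (-(2 * W.a₄ * x ^ 2) - 8 * W.a₆ * x + (W.a₄ ^ 2 - 4 * W.a₂ * W.a₆)) := by ring
      rw [e, ← map_pow]
      apply Valuation.map_add_eq_of_lt_left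
      rw [map_pow]
      have k2 : u x ^ 2 < u x ^ 4 := pow_lt_pow_right₀ hx1 (by norm_num)
      have k1 : u x ≤ u x ^ 2 := by
        calc u x = u x ^ 1 := (pow_one _).symm
          _ ≤ u x ^ 2 := pow_le_pow_right₀ hx1.le (by norm_num)
      have k0 : 1 ≤ u x ^ 2 := one_le_pow₀ hx1.le
      have n2 : u (2 : L) ≤ 1 := by exact_mod_cast u_nat u 2
      have n8 : u (8 : L) ≤ 1 := by exact_mod_cast u_nat u 8
      have n4 : u (4 : L) ≤ 1 := by exact_mod_cast u_nat u 4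
      refine (u_add (r := u x ^ 2) (u_sub ?_ ?_) ?_).trans_lt k2
      · rw [Valuation.map_neg, map_mul, map_mul, map_pow]
        exact mul_le_of_le_one_left' (mul_le_one' n2 hW.a4)
      · rw [map_mul, map_mul]
        exact (mul_le_of_le_one_left' (mul_le_one' n8 hW.a6)).trans k1
      · refine (u_sub (r := 1) ?_ ?_).trans k0
        · rw [map_pow]; exact pow_le_one₀ zero_le hW.a4
        · rw [map_mul, map_mul]; exact mul_le_one' (mul_le_one' n4 hW.a2) hW.a6
    have h6 := congrArg u hx'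
    rw [h5, map_mul, map_mul, map_pow, ← map_pow u y 2, h3, cub_big hW hx1] at h6
    have h7 : u x ^ 3 ≠ 0 := pow_ne_zero 3 (zero_lt_one.trans hx1).ne'
    apply mul_left_cancel₀ h7
    rw [← pow_succ, ← h6]
    ring

end grp

end Pool.Agent.R425.G
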