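import Pool.Agent.R425.G.Ix
import Pool.Agent.R425.G.Ft
import Pool.Agent.R425.G.Eq
import Pool.Agent.R425.Sq

/-!
# The equivariant functions modulo squares over a local field
-/

set_option autoImplicit false
set_option linter.all false

open WeierstrassCurve WeierstrassCurve.Affine
open scoped NNReal Classical

namespace Pool.Agent.R425.G

open Pool.Agent.TH115.GD

section orbits

variable {V : WeierstrassCurve ℚ} {L Ω' : Type} [Field L] [Field Ω'] [Algebra L Ω'] [Algebra ℚ L]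
  [Algebra ℚ Ω'] [IsScalarTower ℚ L Ω'] {a b c : Ω'}

variable (V L Ω') in
/-- the orbits -/
def orb : Setoid (Rt V Ω') where
  r e e' := ∃ σ : Ω' ≃ₐ[L] Ω', mv σ e = e'
  iseqv :=
    { refl := fun e => ⟨1, mv_one e⟩
      symm := by
        rintro e _ ⟨σ, rfl⟩
        exact ⟨σ⁻¹, mv_inv' σ e⟩
      trans := by
        rintro e _ _ ⟨σ, rfl⟩ ⟨τ, rfl⟩
        exact ⟨τ * σ, mv_mul τ σ e⟩ }

variable (V L Ω') in
/-- the set of the orbits -/
abbrev Orb := Quotient (orb V L Ω')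

theorem rt_list (hC : IsC (V.baseChange Ω').toAffine a b c) (e : Rt V Ω') :
    e = (⟨a, hC.root_a⟩ : Rt V Ω') ∨ e = (⟨b, hC.root_b⟩ : Rt V Ω') ∨
      e = (⟨c, hC.root_c⟩ : Rt V Ω') := by
  rcases hC.root e.2 with h | h | h
  · exact Or.inl (Subtype.ext h)
  · exact Or.inr (Or.inl (Subtype.ext h))
  · exact Or.inr (Or.inr (Subtype.ext h))

theorem rt_finite (hC : IsC (V.baseChange Ω').toAffine a b c) : Finite (Rt V Ω') := by
  refine Set.Finite.to_subtype (s := {e : Ω' | cub V e = 0}) (Set.Finite.subset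
    (Set.toFinite {a, b, c}) fun e he => ?_)
  rcases hC.root he with h | h | h <;> simp [h]

theorem rt_univ (hC : IsC (V.baseChange Ω').toAffine a b c) [Fintype (Rt V Ω')] :
    (Finset.univ : Finset (Rt V Ω')) =
      {(⟨a, hC.root_a⟩ : Rt V Ω'), (⟨b, hC.root_b⟩ : Rt V Ω'), (⟨c, hC.root_c⟩ : Rt V Ω')} := by
  ext e
  simp only [Finset.mem_univ, Finset.mem_insert, Finset.mem_singleton, true_iff]
  exact rt_list hC e

theorem rt_card (hC : IsC (V.baseChange Ω').toAffine a b c) [Fintype (Rt V Ω')] :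
    Fintype.card (Rt V Ω') = 3 := by
  rw [← Finset.card_univ, rt_univ hC, Finset.card_insert_of_notMem, Finset.card_insert_of_notMem,
    Finset.card_singleton]
  · simp only [Finset.mem_singleton]
    exact fun h => hC.bc (congrArg Subtype.val h)
  · simp only [Finset.mem_insert, Finset.mem_singleton]
    rintro (h | h)
    · exact hC.ab (congrArg Subtype.val h)
    · exact hC.ac (congrArg Subtype.val h)

open Polynomial in
/-- Lagrange interpolation of the equivariant functions -/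
theorem interp0 [IsGalois L Ω'] (hC : IsC (V.baseChange Ω').toAffine a b c) (f : Rt V Ω' → Ω')
    (hf : ∀ (σ : Ω' ≃ₐ[L] Ω') (e : Rt V Ω'), σ (f e) = f (mv σ e)) :
    ∃ l : Fin 3 → L, ∀ e : Rt V Ω', f e = algebraMap L Ω' (l 0) + algebraMap L Ω' (l 1) * e.1 +
      algebraMap L Ω' (l 2) * e.1 ^ 2 := by
  set η : Ω' → Ω' := fun x => if h : cub V x = 0 then f ⟨x, h⟩ else 0 with hη
  have hηe : ∀ e : Rt V Ω', η e.1 = f e := by
    intro e
    rw [hη]
    simp only
    rw [dif_pos e.2]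
  set s : Finset Ω' := {a, b, c} with hs
  have hms : ∀ e, e ∈ s ↔ cub V e = 0 := by
    intro e
    rw [hs]
    simp only [Finset.mem_insert, Finset.mem_singleton]
    constructor
    · rintro (rfl | rfl | rfl)
      · exact hC.root_a
      · exact hC.root_b
      · exact hC.root_c
    · exact fun h => hC.root h
  have hs3 : s.card = 3 := by
    rw [hs, Finset.card_insert_of_notMem (by simp [hC.ab, hC.ac]),
      Finset.card_insert_of_notMem (by simp [hC.bc]), Finset.card_singleton]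
  set H : Ω'[X] := Lagrange.interpolate s id η with hH
  have hinj : Set.InjOn (id : Ω' → Ω') (s : Set Ω') := fun _ _ _ _ h => h
  have hdeg : H.degree < 3 := by
    have := Lagrange.degree_interpolate_lt (s := s) (v := id) η hinj
    rwa [hs3] at this
  have hev : ∀ e ∈ s, H.eval e = η e := fun e he' =>
    Lagrange.eval_interpolate_at_node (s := s) (v := id) η hinj he'
  have hmap : ∀ σ : Ω' ≃ₐ[L] Ω', H.map (σ : Ω' →+* Ω') = H := by
    intro σ
    refine Polynomial.eq_of_degrees_lt_of_eval_finset_eq s ?_ ?_ ?_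
    · rw [hs3]
      exact (degree_map_le).trans_lt hdeg
    · rw [hs3]; exact hdeg
    · intro x hx
      set e : Rt V Ω' := ⟨x, (hms x).1 hx⟩ with he
      have hx' : (mv σ⁻¹ e).1 ∈ s := (hms _).2 (mv σ⁻¹ e).2
      have hxx : σ ((mv σ⁻¹ e).1) = x := by
        have := congrArg Subtype.val (mv_inv σ e)
        exact this
      have h1 : eval x (H.map (σ : Ω' →+* Ω')) = σ (eval ((mv σ⁻¹ e).1) H) := by
        conv_lhs => rw [← hxx]
        rw [eval_map]
        exact (hom_eval₂ H (RingHom.id Ω') (σ : Ω' →+* Ω') ((mv σ⁻¹ e).1)).symm.trans (by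
          rfl)
      rw [h1, hev _ hx', hηe, hf, mv_inv, hev x hx, ← hηe]
  have hco : ∀ n, ∃ l : L, algebraMap L Ω' l = H.coeff n := fun n => by
    refine Pool.Agent.R425.mem_of_fixed fun σ => ?_
    have h1 := congrArg (fun p => coeff p n) (hmap σ)
    simp only [coeff_map] at h1
    exact h1
  choose l hl using hco
  refine ⟨fun i => l i.1, fun e => ?_⟩
  rw [← hηe, ← hev e.1 ((hms _).2 e.2)]
  have hnd : H.natDegree < 3 := by
    by_cases hH0 : H = 0
    · rw [hH0, natDegree_zero]; norm_num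
    · exact (natDegree_lt_iff_degree_lt hH0).2 hdeg
  rw [eval_eq_sum_range' hnd, Finset.sum_range_succ, Finset.sum_range_succ, Finset.sum_range_one,
    pow_zero, pow_one, mul_one]
  show _ = algebraMap L Ω' (l 0) + algebraMap L Ω' (l 1) * e.1 + algebraMap L Ω' (l 2) * e.1 ^ 2
  rw [hl, hl, hl]

end orbits

section loc

variable {V : WeierstrassCurve ℚ} {L Ω' : Type} [Field L] [Field Ω'] [Algebra L Ω'] [Algebra ℚ L]
  [Algebra ℚ Ω'] [IsScalarTower ℚ L Ω'] {a b c : Ω'} (w : Valuation Ω' ℝ≥0) {p : ℕ}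

variable (V L Ω') in
/-- the integral equivariant functions -/
def OO : AddSubgroup (Rt V Ω' → Ω') where
  carrier := {f | (∀ (σ : Ω' ≃ₐ[L] Ω') (e : Rt V Ω'), σ (f e) = f (mv σ e)) ∧ ∀ e, w (f e) ≤ 1}
  zero_mem' := ⟨fun σ e => by simp, fun e => by simp⟩
  add_mem' := by
    rintro f g ⟨h1, h2⟩ ⟨h3, h4⟩
    refine ⟨fun σ e => ?_, fun e => u_add (h2 e) (h4 e)⟩
    rw [Pi.add_apply, Pi.add_apply, map_add, h1, h3]
  neg_mem' := by
    rintro f ⟨h1, h2⟩
    refine ⟨fun σ e => ?_, fun e => ?_⟩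
    · rw [Pi.neg_apply, Pi.neg_apply, map_neg, h1]
    · rw [Pi.neg_apply, Valuation.map_neg]; exact h2 e

theorem w_alg (hL : LD (w.comap (algebraMap L Ω')) p) : w (p : Ω') < 1 ∧ w (p : Ω') ≠ 0 := by
  have h1 := hL.lt
  have h2 := hL.ne
  rw [Valuation.comap_apply, map_natCast] at h1 h2
  exact ⟨h1, h2⟩

theorem w_two (hL : LD (w.comap (algebraMap L Ω')) p) : w (2 : Ω') ≠ 0 := by
  have h2 := hL.two_ne
  rw [Valuation.comap_apply, map_ofNat] at h2
  exact h2

theorem oo_idx [IsGalois L Ω'] (hC : IsC (V.baseChange Ω').toAffine a b c)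
    (hL : LD (w.comap (algebraMap L Ω')) p) :
    (Mul (OO V L Ω' w) p).index ≠ 0 ∧ (Mul (OO V L Ω' w) p).index ≤ p ^ 3 := by
  haveI : Fact p.Prime := ⟨hL.pr⟩
  refine mul_idx 3 fun x => ?_
  choose l hl using fun i => interp0 hC (x i).1 (x i).2.1
  have hdep : ¬ LinearIndependent L l := by
    intro h
    have := h.fintype_card_le_finrank
    rw [Module.finrank_fintype_fun_eq_card, Fintype.card_fin, Fintype.card_fin] at this
    omega
  rw [Fintype.not_linearIndependent_iff] at hdep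
  obtain ⟨g, hg, i1, hi1⟩ := hdep
  obtain ⟨i0, -, hi0⟩ := Finset.exists_max_image Finset.univ
    (fun i => w (algebraMap L Ω' (g i))) ⟨i1, Finset.mem_univ _⟩
  have hi0' : ∀ i, w (algebraMap L Ω' (g i)) ≤ w (algebraMap L Ω' (g i0)) :=
    fun i => hi0 i (Finset.mem_univ _)
  have hg0 : g i0 ≠ 0 := by
    intro h
    have h1 := hi0' i1
    rw [h, map_zero, map_zero] at h1
    have h3 : w (algebraMap L Ω' (g i1)) = 0 := le_antisymm h1 zero_le
    rw [map_eq_zero, map_eq_zero] at h3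
    exact hi1 h3
  have hwg0 : w (algebraMap L Ω' (g i0)) ≠ 0 := (Valuation.ne_zero_iff _).2
    ((_root_.map_ne_zero _).2 hg0)
  set k : Fin 4 → L := fun i => g i / g i0 with hk
  have hk1 : ∀ i, w (algebraMap L Ω' (k i)) ≤ 1 := by
    intro i
    rw [hk]
    simp only
    rw [map_div₀, map_div₀]
    exact div_le_one_of_le₀ (hi0' i) zero_le
  have hk0 : k i0 = 1 := div_self hg0
  have hsum : ∀ e : Rt V Ω', ∑ i, algebraMap L Ω' (k i) * (x i).1 e = 0 := by
    intro e
    have h1 : ∀ j, ∑ i, g i * l i j = 0 := by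
      intro j
      have := congrFun hg j
      rw [Finset.sum_apply] at this
      exact this
    have h2 : ∑ i, algebraMap L Ω' (g i) * (x i).1 e = 0 := by
      have h3 : ∀ j, ∑ i, algebraMap L Ω' (g i) * algebraMap L Ω' (l i j) = 0 := by
        intro j
        have := congrArg (algebraMap L Ω') (h1 j)
        rw [map_sum, map_zero] at this
        rw [← this]
        exact Finset.sum_congr rfl fun i _ => (map_mul _ _ _).symm
      calc ∑ i, algebraMap L Ω' (g i) * (x i).1 e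
          = ∑ i, (algebraMap L Ω' (g i) * algebraMap L Ω' (l i 0) +
            (algebraMap L Ω' (g i) * algebraMap L Ω' (l i 1)) * e.1 +
            (algebraMap L Ω' (g i) * algebraMap L Ω' (l i 2)) * e.1 ^ 2) := by
              refine Finset.sum_congr rfl fun i _ => ?_
              rw [hl]; ring
        _ = (∑ i, algebraMap L Ω' (g i) * algebraMap L Ω' (l i 0)) +
            (∑ i, algebraMap L Ω' (g i) * algebraMap L Ω' (l i 1)) * e.1 +
            (∑ i, algebraMap L Ω' (g i) * algebraMap L Ω' (l i 2)) * e.1 ^ 2 := by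
              rw [Finset.sum_add_distrib, Finset.sum_add_distrib, Finset.sum_mul, Finset.sum_mul]
        _ = 0 := by rw [h3, h3, h3]; ring
    have h4 : ∑ i, algebraMap L Ω' (k i) * (x i).1 e =
        (algebraMap L Ω' (g i0))⁻¹ * ∑ i, algebraMap L Ω' (g i) * (x i).1 e := by
      rw [Finset.mul_sum]
      refine Finset.sum_congr rfl fun i _ => ?_
      rw [hk]
      simp only
      rw [map_div₀]
      field_simp
    rw [h4, h2, mul_zero]
  -- the residues
  choose α hα1 hα2 using fun i => hL.res (k i) (by rw [Valuation.comap_apply]; exact hk1 i)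
  have hα3 : ∀ i, w (algebraMap L Ω' (k i) - (α i : Ω')) ≤ w (p : Ω') := by
    intro i
    have := hL.le_of_lt (hα2 i)
    rw [Valuation.comap_apply, Valuation.comap_apply, map_natCast, map_sub, map_natCast] at this
    exact this
  obtain ⟨wp1, wp0⟩ := w_alg w hL
  have hp0 : (p : Ω') ≠ 0 := (Valuation.ne_zero_iff _).1 wp0
  refine ⟨α, ⟨i0, ?_⟩, ?_⟩
  · intro hdvd
    obtain ⟨m, hm⟩ := hdvd
    have h1 := hα3 i0
    rw [hk0, map_one] at h1
    have h2 : w ((α i0 : ℕ) : Ω') < 1 := by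
      rw [hm, Nat.cast_mul, map_mul]
      exact mul_lt_one_of_lt_of_le wp1 (u_nat w m)
    have h3 : w (1 : Ω') < 1 := by
      have e : (1 : Ω') = (1 - (α i0 : Ω')) + (α i0 : Ω') := by ring
      rw [e]
      exact Valuation.map_add_lt _ (h1.trans_lt wp1) h2
    rw [map_one] at h3
    exact lt_irrefl _ h3
  · set y : Rt V Ω' → Ω' := fun e =>
      ∑ i, ((α i : Ω') - algebraMap L Ω' (k i)) / (p : Ω') * (x i).1 e with hy
    have hyO : y ∈ OO V L Ω' w := by
      refine ⟨fun σ e => ?_, fun e => ?_⟩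
      · simp only [hy]
        rw [map_sum]
        refine Finset.sum_congr rfl fun i _ => ?_
        rw [map_mul, map_div₀, map_sub, map_natCast, map_natCast, σ.commutes, (x i).2.1]
      · simp only [hy]
        refine Valuation.map_sum_le _ fun i _ => ?_
        rw [map_mul, map_div₀]
        refine mul_le_one' ?_ ((x i).2.2 e)
        rw [Valuation.map_sub_swap]
        exact div_le_one_of_le₀ (hα3 i) zero_le
    refine ⟨⟨y, hyO⟩, ?_⟩
    apply Subtype.ext
    funext e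
    have h1 : ((∑ i, α i • x i : OO V L Ω' w) : Rt V Ω' → Ω') e = ∑ i, (α i : Ω') * (x i).1 e := by
      rw [AddSubgroup.val_finset_sum, Finset.sum_apply]
      refine Finset.sum_congr rfl fun i _ => ?_
      rw [AddSubgroup.coe_nsmul, Pi.smul_apply, nsmul_eq_mul]
    rw [h1]
    have h2 : (((nsmulAddMonoidHom p : OO V L Ω' w →+ OO V L Ω' w) ⟨y, hyO⟩ : OO V L Ω' w) :
        Rt V Ω' → Ω') e = (p : Ω') * y e := by
      show ((p • (⟨y, hyO⟩ : OO V L Ω' w) : OO V L Ω' w) : Rt V Ω' → Ω') e = _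
      rw [AddSubgroup.coe_nsmul, Pi.smul_apply, nsmul_eq_mul]
    rw [h2]
    simp only [hy]
    rw [Finset.mul_sum]
    have h3 : ∑ i, (p : Ω') * (((α i : Ω') - algebraMap L Ω' (k i)) / (p : Ω') * (x i).1 e) =
        ∑ i, (α i : Ω') * (x i).1 e - ∑ i, algebraMap L Ω' (k i) * (x i).1 e := by
      rw [← Finset.sum_sub_distrib]
      refine Finset.sum_congr rfl fun i _ => ?_
      field_simp
    rw [h3, hsum, sub_zero]

/-- square roots near one -/
theorem sq1 [IsAlgClosed Ω'] {x : Ω'} (hx : w (x - 1) < w 4) :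
    ∃ y : Ω', y ^ 2 = x ∧ w (y - 1) < w 2 ∧ w (y - 1) * w 2 = w (x - 1) := by
  have h4 : w (4 : Ω') = w 2 * w 2 := by rw [← map_mul]; norm_num
  obtain ⟨y0, hy0⟩ := IsAlgClosed.exists_pow_nat_eq x (n := 2) (by norm_num)
  have key : ∀ y : Ω', y ^ 2 = x → w (y - 1) < w 2 → w (y - 1) * w 2 = w (x - 1) := by
    intro y hy h
    have h1 : w (y + 1) = w 2 := by
      have e : y + 1 = 2 + (y - 1) := by ring
      rw [e]
      exact Valuation.map_add_eq_of_lt_left _ h
    rw [← h1, ← map_mul, ← hy]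
    congr 1
    ring
  by_cases h : w (y0 - 1) < w 2
  · exact ⟨y0, hy0, h, key y0 hy0 h⟩
  · rw [not_lt] at h
    have h2 : w (y0 + 1) < w 2 := by
      by_contra hcon
      rw [not_lt] at hcon
      have h3 : w 4 ≤ w (x - 1) := by
        rw [h4, ← hy0]
        have e : y0 ^ 2 - 1 = (y0 - 1) * (y0 + 1) := by ring
        rw [e, map_mul]
        exact mul_le_mul' h hcon
      exact absurd hx (not_lt.2 h3)
    have h3 : w (-y0 - 1) < w 2 := by
      have e : -y0 - 1 = -(y0 + 1) := by ring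
      rw [e, Valuation.map_neg]
      exact h2
    exact ⟨-y0, by rw [neg_sq, hy0], h3, key _ (by rw [neg_sq, hy0]) h3⟩

theorem sq1_uniq {y y' : Ω'} (h : y ^ 2 = y' ^ 2) (h1 : w (y - 1) < w 2) (h2 : w (y' - 1) < w 2) :
    y = y' := by
  rcases sq_eq_sq_iff_eq_or_eq_neg.1 h with h3 | h3
  · exact h3
  · exfalso
    rw [h3] at h1
    have h4 : w (2 : Ω') < w 2 := by
      have e : (2 : Ω') = -((-y' - 1) + (y' - 1)) := by ring
      nth_rewrite 1 [e]
      rw [Valuation.map_neg]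
      exact (Valuation.map_add _ _ _).trans_lt (max_lt h1 h2)
    exact lt_irrefl _ h4

variable (V L Ω') in
/-- the units -/
def E0 : Subgroup (EE V L Ω') where
  carrier := {ζ | ∀ e, w (ζ.1 e : Ω') = 1}
  one_mem' := fun e => by simp
  mul_mem' := by
    intro ζ η h1 h2 e
    have : ((ζ * η).1 e : Ω') = ζ.1 e * η.1 e := rfl
    rw [this, map_mul, h1, h2, one_mul]
  inv_mem' := by
    intro ζ h1 e
    have : ((ζ⁻¹).1 e : Ω') = (ζ.1 e : Ω')⁻¹ := Units.val_inv_eq_inv_val _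
    rw [this, map_inv₀, h1, _root_.inv_one]

theorem w_one_of {x : Ω'} (h : w (x - 1) < 1) : w x = 1 := by
  have e : x = 1 + (x - 1) := by ring
  rw [e, Valuation.map_add_eq_of_lt_left _ (by rw [map_one]; exact h), map_one]

variable (V L Ω') in
/-- the units near one -/
def EN (p : ℕ) (hp : w (p : Ω') < 1) : Subgroup (EE V L Ω') where
  carrier := {ζ | ∀ e, w ((ζ.1 e : Ω') - 1) ≤ w (p : Ω') ^ 3}
  one_mem' := fun e => by simp
  mul_mem' := by
    intro ζ η h1 h2 e
    have h3 : ((ζ * η).1 e : Ω') - 1 = ζ.1 e * (η.1 e - 1) + (ζ.1 e - 1) := by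
      show (ζ.1 e : Ω') * η.1 e - 1 = _
      ring
    rw [h3]
    refine u_add ?_ (h1 e)
    rw [map_mul, w_one_of w ((h1 e).trans_lt (pow_lt_one₀ zero_le hp (by norm_num))), one_mul]
    exact h2 e
  inv_mem' := by
    intro ζ h1 e
    have h3 : ((ζ⁻¹).1 e : Ω') - 1 = -((ζ.1 e : Ω') - 1) * (ζ.1 e : Ω')⁻¹ := by
      have : ((ζ⁻¹).1 e : Ω') = (ζ.1 e : Ω')⁻¹ := Units.val_inv_eq_inv_val _
      rw [this]
      field_simp
      ring
    rw [h3, map_mul, Valuation.map_neg, map_inv₀,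
      w_one_of w ((h1 e).trans_lt (pow_lt_one₀ zero_le hp (by norm_num))), _root_.inv_one, mul_one]
    exact h1 e

variable [IsAlgClosed Ω'] [IsGalois L Ω'] (hσ : ∀ (σ : Ω' ≃ₐ[L] Ω') (x : Ω'), w (σ x) = w x)
  (hC : IsC (V.baseChange Ω').toAffine a b c) (hL : LD (w.comap (algebraMap L Ω')) p)

theorem p3_lt (hL : LD (w.comap (algebraMap L Ω')) p) : w (p : Ω') ^ 3 < w (2 : Ω') := by
  obtain ⟨wp1, wp0⟩ := w_alg w hL
  by_cases h2 : p = 2
  · subst h2
    have h3 : (0 : ℝ≥0) < w ((2 : ℕ) : Ω') := pos_of_ne_zero wp0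
    calc w ((2 : ℕ) : Ω') ^ 3 < w ((2 : ℕ) : Ω') ^ 1 := pow_lt_pow_right_of_lt_one₀ h3 wp1 (by norm_num)
      _ = w 2 := by rw [pow_one]; norm_num
  · have h3 := hL.two_eq h2
    rw [Valuation.comap_apply, map_ofNat] at h3
    rw [h3]
    exact pow_lt_one₀ zero_le wp1 (by norm_num)

include hσ hL in
/-- the squares near one -/
theorem en_sq (ζ : EE V L Ω') (hζ : ∀ e, w ((ζ.1 e : Ω') - 1) ≤ w 2 * w (p : Ω') ^ 3) :
    ∃ η : EE V L Ω', (∀ e, w ((η.1 e : Ω') - 1) ≤ w (p : Ω') ^ 3) ∧ η ^ 2 = ζ := by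
  have h4 : w (4 : Ω') = w 2 * w 2 := by rw [← map_mul]; norm_num
  have h20 := w_two w hL
  have hlt : ∀ e, w ((ζ.1 e : Ω') - 1) < w 4 := by
    intro e
    rw [h4]
    exact (hζ e).trans_lt (mul_lt_mul_of_pos_left (p3_lt w hL) (pos_of_ne_zero h20))
  choose y hy1 hy2 hy3 using fun e => sq1 w (hlt e)
  have hy0 : ∀ e, y e ≠ 0 := by
    intro e h
    have := hy1 e
    rw [h, zero_pow two_ne_zero] at this
    exact (ζ.1 e).ne_zero this.symm
  refine ⟨⟨fun e => Units.mk0 (y e) (hy0 e), fun σ e => ?_⟩, fun e => ?_, ?_⟩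
  · show σ (y e) = y (mv σ e)
    refine sq1_uniq w ?_ ?_ (hy2 _)
    · rw [← map_pow, hy1, hy1, equi]
    · have e1 : σ (y e) - 1 = σ (y e - 1) := by rw [map_sub, map_one]
      rw [e1, hσ]
      exact hy2 e
  · have h1 := hy3 e
    have h3 := hζ e
    rw [← h1, mul_comm (w 2)] at h3
    exact le_of_mul_le_mul_right h3 (pos_of_ne_zero h20)
  · apply EE_ext
    intro e
    exact hy1 e

variable (V L) in
/-- the logarithm of a unit near one -/
noncomputable def lg (hp : w (p : Ω') < 1) (hp0 : w (p : Ω') ≠ 0) (ζ : EN V L Ω' w p hp) :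
    OO V L Ω' w :=
  ⟨fun e => ((ζ.1.1 e : Ω') - 1) / (p : Ω') ^ 3, fun σ e => by
    rw [map_div₀, map_sub, map_one, map_pow, map_natCast, equi], fun e => by
    rw [map_div₀, map_pow]
    exact div_le_one_of_le₀ (ζ.2 e) zero_le⟩

include hσ hL hC in
theorem en_idx (hp : w (p : Ω') < 1) :
    (SqrH (EN V L Ω' w p hp)).relIndex (EN V L Ω' w p hp) ≠ 0 ∧
    (SqrH (EN V L Ω' w p hp)).relIndex (EN V L Ω' w p hp) ≤ (if p = 2 then 8 else 1) := by
  obtain ⟨wp1, wp0⟩ := w_alg w hL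
  have hp0 : (p : Ω') ≠ 0 := (Valuation.ne_zero_iff _).1 wp0
  have h20 := w_two w hL
  have h2' : (2 : Ω') ≠ 0 := (Valuation.ne_zero_iff _).1 h20
  -- the quotient
  have hQ : (Mul (OO V L Ω' w) 2).index ≠ 0 ∧
      (Mul (OO V L Ω' w) 2).index ≤ (if p = 2 then 8 else 1) := by
    by_cases h2 : p = 2
    · subst h2
      rw [if_pos rfl]
      exact oo_idx w hC hL
    · rw [if_neg h2]
      have hw2 : w (2 : Ω') = 1 := by
        have h3 := hL.two_eq h2
        rwa [Valuation.comap_apply, map_ofNat] at h3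
      have : Mul (OO V L Ω' w) 2 = ⊤ := by
        rw [eq_top_iff]
        rintro x -
        refine ⟨⟨fun e => x.1 e / 2, fun σ e => ?_, fun e => ?_⟩, ?_⟩
        · rw [map_div₀, map_ofNat, x.2.1]
        · rw [map_div₀, hw2, div_one]; exact x.2.2 e
        · apply Subtype.ext
          funext e
          show ((2 : ℕ) • (fun e => x.1 e / 2) : Rt V Ω' → Ω') e = x.1 e
          rw [Pi.smul_apply, nsmul_eq_mul]
          push_cast
          field_simp
      rw [this]
      simp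
  haveI : Finite (OO V L Ω' w ⧸ Mul (OO V L Ω' w) 2) := by
    haveI : (Mul (OO V L Ω' w) 2).FiniteIndex := ⟨hQ.1⟩
    exact AddSubgroup.finite_quotient_of_finiteIndex
  haveI : Finite (Multiplicative (OO V L Ω' w ⧸ Mul (OO V L Ω' w) 2)) := this
  let ψ : EN V L Ω' w p hp →* Multiplicative (OO V L Ω' w ⧸ Mul (OO V L Ω' w) 2) :=
    { toFun := fun ζ => Multiplicative.ofAdd (QuotientAddGroup.mk (lg V L w hp wp0 ζ))
      map_one' := by
        have : lg V L w hp wp0 1 = 0 := by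
          apply Subtype.ext
          funext e
          show (((1 : EE V L Ω').1 e : Ω') - 1) / (p : Ω') ^ 3 = 0
          have : ((1 : EE V L Ω').1 e : Ω') = 1 := rfl
          rw [this, sub_self, zero_div]
        rw [this]
        rfl
      map_mul' := by
        intro ζ η
        rw [← ofAdd_add, ← QuotientAddGroup.mk_add]
        congr 1
        rw [QuotientAddGroup.eq]
        have hm : w ((p : Ω') ^ 3 / 2) ≤ 1 := by
          rw [map_div₀, map_pow]
          exact div_le_one_of_le₀ (p3_lt w hL).le zero_le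
        have hz : (fun e => (p : Ω') ^ 3 / 2 * ((lg V L w hp wp0 ζ).1 e *
            (lg V L w hp wp0 η).1 e)) ∈ OO V L Ω' w := by
          refine ⟨fun σ e => ?_, fun e => ?_⟩
          · rw [map_mul, map_div₀, map_pow, map_natCast, map_ofNat, map_mul,
              (lg V L w hp wp0 ζ).2.1, (lg V L w hp wp0 η).2.1]
          · rw [map_mul, map_mul]
            exact mul_le_one' hm (mul_le_one' ((lg V L w hp wp0 ζ).2.2 e)
              ((lg V L w hp wp0 η).2.2 e))
        refine ⟨-⟨_, hz⟩, ?_⟩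
        · apply Subtype.ext
          funext e
          have e1 : ((ζ * η : EN V L Ω' w p hp).1.1 e : Ω') = ζ.1.1 e * η.1.1 e := rfl
          show (2 : ℕ) • (-((p : Ω') ^ 3 / 2 * ((((ζ.1.1 e : Ω') - 1) / (p : Ω') ^ 3) *
            (((η.1.1 e : Ω') - 1) / (p : Ω') ^ 3)))) =
            -((((ζ * η : EN V L Ω' w p hp).1.1 e : Ω') - 1) / (p : Ω') ^ 3) +
            (((ζ.1.1 e : Ω') - 1) / (p : Ω') ^ 3 + ((η.1.1 e : Ω') - 1) / (p : Ω') ^ 3)
          rw [e1, nsmul_eq_mul]
          push_cast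
          field_simp
          ring }
  have hcard : Nat.card (Multiplicative (OO V L Ω' w ⧸ Mul (OO V L Ω' w) 2)) =
      (Mul (OO V L Ω' w) 2).index := Nat.card_congr Multiplicative.toAdd
  obtain ⟨k1, k2⟩ := idx_of_ker ψ ((SqrH (EN V L Ω' w p hp)).subgroupOf (EN V L Ω' w p hp)) (by
    intro ζ hζ
    have h1 : lg V L w hp wp0 ζ ∈ Mul (OO V L Ω' w) 2 := by
      rw [← QuotientAddGroup.eq_zero_iff]
      exact congrArg Multiplicative.toAdd hζ
    obtain ⟨y, hy⟩ := h1
    obtain ⟨η, hη1, hη2⟩ := en_sq w hσ hL ζ.1 (fun e => by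
      have h3 := congrFun (congrArg Subtype.val hy) e
      have h4 : (2 : ℕ) • y.1 e = ((ζ.1.1 e : Ω') - 1) / (p : Ω') ^ 3 := h3
      rw [nsmul_eq_mul, eq_div_iff (pow_ne_zero 3 hp0)] at h4
      rw [← h4, map_mul, map_mul, map_pow]
      push_cast
      exact mul_le_mul_left (mul_le_of_le_one_right' (y.2.2 e)) _)
    exact ⟨η, hη1, hη2⟩)
  exact ⟨k1, k2.trans (hcard ▸ hQ.2)⟩

include hC hL in
theorem en_fin (hp : w (p : Ω') < 1) :
    (EN V L Ω' w p hp).relIndex (E0 V L Ω' w) ≠ 0 := by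
  obtain ⟨wp1, wp0⟩ := w_alg w hL
  have hp0 : (p : Ω') ≠ 0 := (Valuation.ne_zero_iff _).1 wp0
  have h1 := mul_pow_idx (oo_idx w hC hL).1 3
  haveI : Finite (OO V L Ω' w ⧸ Mul (OO V L Ω' w) (p ^ 3)) := by
    haveI : (Mul (OO V L Ω' w) (p ^ 3)).FiniteIndex := ⟨h1⟩
    exact AddSubgroup.finite_quotient_of_finiteIndex
  refine fi_of_map' _ _ (T := OO V L Ω' w ⧸ Mul (OO V L Ω' w) (p ^ 3))
    (fun ζ => QuotientAddGroup.mk (⟨fun e => (ζ.1.1 e : Ω'), fun σ e => equi ζ.1 σ e,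
      fun e => (ζ.2 e).le⟩ : OO V L Ω' w)) fun ζ η h => ?_
  rw [QuotientAddGroup.eq] at h
  obtain ⟨y, hy⟩ := h
  intro e
  have h3 := congrFun (congrArg Subtype.val hy) e
  have h4 : (p ^ 3 : ℕ) • y.1 e = -(ζ.1.1 e : Ω') + η.1.1 e := h3
  have h5 : ((ζ.1 / η.1 : EE V L Ω').1 e : Ω') = ζ.1.1 e / η.1.1 e := by
    show (((ζ.1.1 / η.1.1 : Rt V Ω' → Ω'ˣ) e : Ω'ˣ) : Ω') = _
    rw [Pi.div_apply, Units.val_div_eq_div_val]
  rw [h5]
  have h6 : (ζ.1.1 e : Ω') / η.1.1 e - 1 = -((p : Ω') ^ 3 * y.1 e) / η.1.1 e := by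
    rw [nsmul_eq_mul] at h4
    push_cast at h4
    field_simp
    linear_combination h4
  rw [h6, map_div₀, Valuation.map_neg, map_mul, map_pow, η.2 e, div_one]
  exact mul_le_of_le_one_right' (y.2.2 e)

include hσ hL hC in
theorem exists_lam (ζ : EE V L Ω') (e : Rt V Ω') :
    ∃ n : ℤ, w (ζ.1 e : Ω') ^ 6 = w (p : Ω') ^ n := by
  haveI := rt_finite hC
  haveI : Fintype (Rt V Ω') := Fintype.ofFinite _
  obtain ⟨wp1, wp0⟩ := w_alg w hL
  set O : Finset (Rt V Ω') := Finset.univ.filter (fun e' => ∃ σ : Ω' ≃ₐ[L] Ω', mv σ e = e') with hO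
  have hmO : ∀ e', e' ∈ O ↔ ∃ σ : Ω' ≃ₐ[L] Ω', mv σ e = e' := by
    intro e'
    rw [hO]
    simp
  have hfix : ∀ τ : Ω' ≃ₐ[L] Ω', τ (∏ e' ∈ O, (ζ.1 e' : Ω')) = ∏ e' ∈ O, (ζ.1 e' : Ω') := by
    intro τ
    rw [map_prod]
    refine Finset.prod_bij (fun e' _ => mv τ e') ?_ ?_ ?_ ?_
    · intro e' he'
      rw [hmO] at he' ⊢
      obtain ⟨σ, rfl⟩ := he'
      exact ⟨τ * σ, mv_mul _ _ _⟩
    · intro e1 _ e2 _ h
      rw [← mv_inv' τ e1, h, mv_inv']
    · intro e' he'
      refine ⟨mv τ⁻¹ e', ?_, mv_inv τ e'⟩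
      rw [hmO] at he' ⊢
      obtain ⟨σ, rfl⟩ := he'
      exact ⟨τ⁻¹ * σ, mv_mul _ _ _⟩
    · intro e' _
      exact equi ζ τ e'
  obtain ⟨x, hx⟩ := fixed_mem hfix
  have hx0 : x ≠ 0 := by
    rintro rfl
    rw [map_zero] at hx
    exact (Finset.prod_ne_zero_iff.2 fun e' _ => (ζ.1 e').ne_zero) hx.symm
  obtain ⟨n, hn⟩ := hL.disc x hx0
  rw [Valuation.comap_apply, Valuation.comap_apply, map_natCast, hx, map_prod] at hn
  have h1 : ∏ e' ∈ O, w (ζ.1 e' : Ω') = w (ζ.1 e : Ω') ^ O.card := by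
    rw [← Finset.prod_const]
    refine Finset.prod_congr rfl fun e' he' => ?_
    obtain ⟨σ, rfl⟩ := (hmO _).1 he'
    rw [← equi, hσ]
  rw [h1] at hn
  have hc1 : 0 < O.card := Finset.card_pos.2 ⟨e, (hmO e).2 ⟨1, mv_one e⟩⟩
  have hc2 : O.card ≤ 3 := by
    rw [← rt_card hC]
    exact Finset.card_le_univ _
  obtain ⟨k, hk⟩ : ∃ k : ℕ, 6 = O.card * k := by
    interval_cases h : O.card
    · exact ⟨6, by norm_num⟩
    · exact ⟨3, by norm_num⟩
    · exact ⟨2, by norm_num⟩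
  refine ⟨n * k, ?_⟩
  rw [hk, pow_mul, hn, zpow_mul, zpow_natCast]

include hσ hC hL in
/-- the index of the squares -/
theorem ee_idx : (Sqr (EE V L Ω')).index ≠ 0 ∧
    (Sqr (EE V L Ω')).index ≤ 4 ^ Nat.card (Orb V L Ω') * (if p = 2 then 8 else 1) := by
  obtain ⟨wp1, wp0⟩ := w_alg w hL
  have hp0 : (p : Ω') ≠ 0 := (Valuation.ne_zero_iff _).1 wp0
  have h20 := w_two w hL
  haveI := rt_finite hC
  haveI : Finite (Orb V L Ω') := Quotient.finite _
  haveI : Fintype (Orb V L Ω') := Fintype.ofFinite _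
  have huniq : ∀ n m : ℤ, w (p : Ω') ^ n = w (p : Ω') ^ m → n = m := by
    intro n m h
    exact (zpow_right_injective₀ (pos_of_ne_zero wp0) wp1.ne) h
  choose lam hlam using fun (ζ : EE V L Ω') (e : Rt V Ω') => exists_lam w hσ hC hL ζ e
  let f : EE V L Ω' →* Multiplicative (Orb V L Ω' → ℤ) :=
    { toFun := fun ζ => Multiplicative.ofAdd (fun o => lam ζ o.out)
      map_one' := by
        have : (fun o : Orb V L Ω' => lam 1 o.out) = 0 := by
          funext o
          apply huniq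
          rw [← hlam]
          have : ((1 : EE V L Ω').1 o.out : Ω') = 1 := rfl
          rw [this, map_one, one_pow, Pi.zero_apply, zpow_zero]
        rw [this]; rfl
      map_mul' := by
        intro ζ η
        rw [← ofAdd_add]
        congr 1
        funext o
        apply huniq
        rw [← hlam, Pi.add_apply, zpow_add₀ wp0, ← hlam, ← hlam]
        have : ((ζ * η).1 o.out : Ω') = ζ.1 o.out * η.1 o.out := rfl
        rw [this, map_mul, mul_pow] }
  obtain ⟨k1, k2⟩ := idx_lattice f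
  have hker : f.ker ≤ E0 V L Ω' w := by
    intro ζ hζ e
    have h1 : lam ζ (Quotient.mk (orb V L Ω') e).out = 0 :=
      congrFun (congrArg Multiplicative.toAdd hζ) _
    obtain ⟨σ, hσe⟩ : ∃ σ : Ω' ≃ₐ[L] Ω', mv σ (Quotient.mk (orb V L Ω') e).out = e :=
      Quotient.mk_out (s := orb V L Ω') e
    have h3 := hlam ζ (Quotient.mk (orb V L Ω') e).out
    rw [h1, zpow_zero] at h3
    have h4 : w (ζ.1 (Quotient.mk (orb V L Ω') e).out : Ω') = 1 :=
      (pow_eq_one_iff_of_nonneg zero_le (by norm_num)).1 h3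
    rw [← hσ σ, equi, hσe] at h4
    exact h4
  have hle : Sqr (EE V L Ω') ⊔ f.ker ≤ Sqr (EE V L Ω') ⊔ E0 V L Ω' w := sup_le_sup_left hker _
  have hd := Subgroup.index_dvd_of_le hle
  have k3 : (Sqr (EE V L Ω') ⊔ E0 V L Ω' w).index ≠ 0 := fun h => k1 (by
    rw [h] at hd; exact Nat.eq_zero_of_zero_dvd hd)
  have k4 : (Sqr (EE V L Ω') ⊔ E0 V L Ω' w).index ≤ 2 ^ Nat.card (Orb V L Ω') := by
    rw [Nat.card_eq_fintype_card]
    exact (Nat.le_of_dvd (Nat.pos_of_ne_zero k1) hd).trans k2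
  -- the units
  have hNE : EN V L Ω' w p wp1 ≤ E0 V L Ω' w := by
    intro ζ hζ e
    exact w_one_of w ((hζ e).trans_lt (pow_lt_one₀ zero_le wp1 (by norm_num)))
  have h2N : ∀ x ∈ EN V L Ω' w p wp1, x ^ 2 = 1 → x = 1 := by
    intro ζ hζ h2
    apply EE_ext
    intro e
    have h3 : (ζ.1 e : Ω') ^ 2 = 1 ^ 2 := by
      have := congrArg (fun z : EE V L Ω' => (z.1 e : Ω')) h2
      rw [one_pow]
      exact this
    refine sq1_uniq w h3 ((hζ e).trans_lt (p3_lt w hL)) ?_
    show w ((1 : Ω') - 1) < w 2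
    rw [sub_self, map_zero]
    exact pos_of_ne_zero h20
  have hH := herbrand_rel hNE (en_fin w hC hL wp1) h2N
  obtain ⟨k5, k6⟩ := en_idx w hσ hC hL wp1
  -- the elements of order two
  have h2' : (2 : Ω') ≠ 0 := (Valuation.ne_zero_iff _).1 h20
  have hone : (-1 : Ω') ≠ 1 := by
    intro h
    apply h2'
    linear_combination -h
  have h1pm : ∀ x : Two (E0 V L Ω' w), ∀ e, (x.1.1.1 e : Ω') = 1 ∨ (x.1.1.1 e : Ω') = -1 := by
    intro x e
    have h3 : (x.1.1.1 e : Ω') ^ 2 = 1 ^ 2 := by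
      have h4 := x.2
      rw [mem_two] at h4
      have := congrArg (fun z : E0 V L Ω' w => (z.1.1 e : Ω')) h4
      rw [one_pow]
      exact this
    exact sq_eq_sq_iff_eq_or_eq_neg.1 h3
  have hinj : Function.Injective (fun (x : Two (E0 V L Ω' w)) (o : Orb V L Ω') =>
      (decide ((x.1.1.1 o.out : Ω') = 1) : Bool)) := by
    intro x y hxy
    apply Subtype.ext
    apply Subtype.ext
    apply EE_ext
    intro e
    obtain ⟨σ, hσe⟩ : ∃ σ : Ω' ≃ₐ[L] Ω', mv σ (Quotient.mk (orb V L Ω') e).out = e :=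
      Quotient.mk_out (s := orb V L Ω') e
    have h3 := congrFun hxy (Quotient.mk (orb V L Ω') e)
    simp only at h3
    rw [decide_eq_decide] at h3
    have h4 : (x.1.1.1 (Quotient.mk (orb V L Ω') e).out : Ω') =
        y.1.1.1 (Quotient.mk (orb V L Ω') e).out := by
      rcases h1pm x (Quotient.mk (orb V L Ω') e).out with h5 | h5
      · rw [h5, h3.1 h5]
      · rcases h1pm y (Quotient.mk (orb V L Ω') e).out with h6 | h6
        · rw [h6, h3.2 h6]
        · rw [h5, h6]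
    have h5 := congrArg σ h4
    rw [equi, equi, hσe] at h5
    exact h5
  haveI : Finite (Two (E0 V L Ω' w)) := Finite.of_injective _ hinj
  have hc2 : Nat.card (Two (E0 V L Ω' w)) ≤ 2 ^ Nat.card (Orb V L Ω') := by
    refine (Nat.card_le_card_of_injective _ hinj).trans ?_
    rw [Nat.card_fun]
    simp
  have hc0 : Nat.card (Two (E0 V L Ω' w)) ≠ 0 := Nat.card_pos.ne'
  have hfin := sqr_idx (E0 := E0 V L Ω' w) (fun x hx e => by
    have h3 : w (x.1 e : Ω') ^ 2 = 1 := by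
      have := hx e
      have e1 : ((x ^ 2).1 e : Ω') = (x.1 e : Ω') ^ 2 := rfl
      rw [e1, map_pow] at this
      exact this
    exact (pow_eq_one_iff_of_nonneg zero_le (by norm_num)).1 h3)
  rw [hfin, hH]
  refine ⟨mul_ne_zero (mul_ne_zero k5 hc0) k3, ?_⟩
  calc (SqrH (EN V L Ω' w p wp1)).relIndex (EN V L Ω' w p wp1) * Nat.card (Two (E0 V L Ω' w)) *
        (Sqr (EE V L Ω') ⊔ E0 V L Ω' w).index
      ≤ (if p = 2 then 8 else 1) * 2 ^ Nat.card (Orb V L Ω') * 2 ^ Nat.card (Orb V L Ω') :=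
        Nat.mul_le_mul (Nat.mul_le_mul k6 hc2) k4
    _ = 4 ^ Nat.card (Orb V L Ω') * (if p = 2 then 8 else 1) := by
        have : (4 : ℕ) = 2 * 2 := rfl
        rw [this, mul_pow]
        ring

end loc

end Pool.Agent.R425.G
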