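import Pool.Agent.R425.G.Ur
import Pool.Agent.TH115.TC.LocC
import Pool.Agent.TH115.TC.Compl

/-!
# Base change of the local condition
-/

set_option autoImplicit false
set_option linter.all false

open NumberField IsDedekindDomain WithZero WeierstrassCurve WeierstrassCurve.Affine
open scoped NNReal Classical

namespace Pool.Agent.R425.G

open Pool.Agent.TH115.GD
open Pool.Agent.Y710.CV (Cond)

section conv

theorem cond_conv {L Ω' A : Type} [Field L] [Field Ω'] [Field A] [Algebra L Ω']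
    (i1 i1' : Algebra ℚ L) (i2 i2' : Algebra ℚ Ω') (s : @IsScalarTower ℚ L Ω' i1.toSMul _ i2.toSMul)
    (s' : @IsScalarTower ℚ L Ω' i1'.toSMul _ i2'.toSMul) {V : WeierstrassCurve ℚ} {θ z : A}
    (h : @Cond L Ω' A _ _ _ i1 _ i2 s V θ z) : @Cond L Ω' A _ _ _ i1' _ i2' s' V θ z := by
  have e1 : i1 = i1' := Subsingleton.elim _ _
  have e2 : i2 = i2' := Subsingleton.elim _ _
  subst e1
  subst e2
  exact h

end conv

section base

variable {V : WeierstrassCurve ℚ} {A : Type} [Field A] [NumberField A] {θ : A}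

/-- the values do not depend on the order of the other roots -/
theorem dc_indep {F : Type} [Field F] [Algebra ℚ F] {a b c b' c' : F}
    (h : IsC (V.baseChange F).toAffine a b c) (h' : IsC (V.baseChange F).toAffine a b' c')
    (P : Pt V F) : dc a b c P = dc a b' c' P := by
  rcases P with _ | ⟨x, y, hxy⟩
  · rfl
  · simp only [dc]
    rw [← h.cub'_eq, ← h'.cub'_eq]

theorem cond_base (h : CF V A θ) {L Ω' E Ω'' : Type} [Field L] [Field Ω'] [Algebra L Ω']
    [Algebra ℚ L] [Algebra ℚ Ω'] [IsScalarTower ℚ L Ω'] [IsGalois L Ω'] [Field E] [Field Ω'']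
    [Algebra E Ω''] [Algebra ℚ E] [Algebra ℚ Ω''] [IsScalarTower ℚ E Ω''] [IsGalois E Ω'']
    [IsSepClosed Ω''] {a b c : Ω'} (hC : IsC (V.baseChange Ω').toAffine a b c) (j : L →+* E)
    {z : A} (hc : Cond L Ω' V θ z) : Cond E Ω'' V θ z := by
  obtain ⟨κ, hκ1, hκ2⟩ := exists_kappa (F := ℚ) (L := L) (Ω' := Ω') (E := E) (Ω'' := Ω'') j
    (fun x => by simp)
  obtain ⟨R, hR, hφ⟩ := hc
  refine ⟨act V κ R, fun τ => ?_, fun φ => ?_⟩
  · obtain ⟨τ', hτ⟩ := hκ2 τ
    have e1 : (rs ℚ τ).comp κ = κ.comp (rs ℚ τ') := AlgHom.ext fun x => hτ x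
    rw [act_act, e1, ← act_act, hR]
  · have hC'' := hC.map κ
    obtain ⟨e, he⟩ : ∃ e : Rt V Ω', κ e.1 = φ θ := by
      rcases hC''.root (root_em h φ) with h1 | h1 | h1
      · exact ⟨⟨a, hC.root_a⟩, h1.symm⟩
      · exact ⟨⟨b, hC.root_b⟩, h1.symm⟩
      · exact ⟨⟨c, hC.root_c⟩, h1.symm⟩
    have hem : ∀ y : A, φ y = κ (em h e y) := by
      intro y
      have h1 := em_uniq h (⟨φ θ, root_em h φ⟩ : Rt V Ω'') φ rfl y
      have h2 := em_uniq h (⟨φ θ, root_em h φ⟩ : Rt V Ω'')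
        ((κ : Ω' →+* Ω'').comp (em h e : A →+* Ω')) (by
          show κ (em h e θ) = φ θ
          rw [em_root, he]) y
      exact h1.trans h2.symm
    obtain ⟨w, hw, hw2⟩ := hφ (em h e : A →+* Ω')
    have hθe : (em h e : A →+* Ω') θ = e.1 := em_root h e
    refine ⟨κ w, fun τ hτ => ?_, fun b' c' hC' => ?_⟩
    · obtain ⟨τ', hτ'⟩ := hκ2 τ
      rw [hτ', hw τ']
      rw [hθe]
      have h5 : κ (τ' e.1) = κ e.1 := by
        rw [← hτ', he]
        exact hτ
      exact (κ : Ω' →+* Ω'').injective h5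
    · obtain ⟨b0, c0, hC0⟩ := hC.at_root (hC.root e.2)
      have h1 := hw2 b0 c0 (by rw [hθe]; exact hC0)
      rw [hθe] at h1
      have h2 : φ z = κ ((em h e : A →+* Ω') z) := hem z
      rw [h2, h1, map_mul, map_pow]
      congr 1
      rw [← dc_act V κ e.1 b0 c0 R]
      have h3 := hC0.map κ
      rw [he] at h3 ⊢
      exact dc_indep h3 hC' _

end base

section places

variable {K : Type} [Field K] [NumberField K] (v : HeightOneSpectrum (𝓞 K))
  (p : HeightOneSpectrum (𝓞 ℚ))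

theorem val_int (h : ((ng p : ℕ) : 𝓞 K) ∈ v.asIdeal) (x : ℚ) (hx : p.valuation ℚ x ≤ 1) :
    ∃ n d : ℤ, ¬ (ng p : ℤ) ∣ d ∧ (d : ℚ) * x = n ∧ v.valuation K ((d : ℤ) : K) = 1 := by
  obtain ⟨n, d, hnd⟩ := p.exists_primeCompl_mul_eq_of_integer (K := ℚ) x hx
  obtain ⟨n', rfl⟩ := int_of n
  obtain ⟨d', hd'⟩ := int_of (d : 𝓞 ℚ)
  have hd2 : ¬ (ng p : ℤ) ∣ d' := by
    rw [← mem_iff, ← hd']
    exact d.2
  refine ⟨n', d', hd2, ?_, ?_⟩
  · rw [hd'] at hnd
    rw [mul_comm]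
    simpa using hnd
  · have h1 : ((d' : ℤ) : 𝓞 K) ∉ v.asIdeal := fun hmem => hd2 (not_both (ng_prime p) h hmem)
    have h2 := (HeightOneSpectrum.valuation_lt_one_iff_mem (K := K) v ((d' : ℤ) : 𝓞 K)).not.2 h1
    have h3 := v.valuation_le_one (K := K) ((d' : ℤ) : 𝓞 K)
    have h4 : v.valuation K (algebraMap (𝓞 K) K ((d' : ℤ) : 𝓞 K)) = 1 :=
      le_antisymm h3 (not_lt.1 h2)
    rwa [map_intCast] at h4

theorem val_le (h : ((ng p : ℕ) : 𝓞 K) ∈ v.asIdeal) (x : ℚ) (hx : p.valuation ℚ x ≤ 1) :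
    v.valuation K (algebraMap ℚ K x) ≤ 1 := by
  obtain ⟨n, d, hd, hdx, hv⟩ := val_int v p h x hx
  have h1 := congrArg (algebraMap ℚ K) hdx
  rw [map_mul, map_intCast, map_intCast] at h1
  have h2 := congrArg (v.valuation K) h1
  rw [map_mul, hv, one_mul] at h2
  rw [h2]
  have h3 : v.valuation K (algebraMap (𝓞 K) K ((n : ℤ) : 𝓞 K)) ≤ 1 := v.valuation_le_one _
  rwa [map_intCast] at h3

theorem val_lt (h : ((ng p : ℕ) : 𝓞 K) ∈ v.asIdeal) (x : ℚ) (hx : p.valuation ℚ x < 1) :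
    v.valuation K (algebraMap ℚ K x) < 1 := by
  obtain ⟨n, d, hd, hdx, hv⟩ := val_int v p h x hx.le
  have hn : (ng p : ℤ) ∣ n := by
    have h4 : p.valuation ℚ (algebraMap (𝓞 ℚ) ℚ ((n : ℤ) : 𝓞 ℚ)) < 1 := by
      rw [map_intCast, ← hdx, map_mul]
      refine lt_of_le_of_lt (mul_le_of_le_one_left' ?_) hx
      have h3 : p.valuation ℚ (algebraMap (𝓞 ℚ) ℚ ((d : ℤ) : 𝓞 ℚ)) ≤ 1 := p.valuation_le_one _
      rwa [map_intCast] at h3
    exact (mem_iff p n).1 ((HeightOneSpectrum.valuation_lt_one_iff_mem (K := ℚ) p _).1 h4)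
  have h1 := congrArg (algebraMap ℚ K) hdx
  rw [map_mul, map_intCast, map_intCast] at h1
  have h2 := congrArg (v.valuation K) h1
  rw [map_mul, hv, one_mul] at h2
  rw [h2]
  have h3 : v.valuation K (algebraMap (𝓞 K) K ((n : ℤ) : 𝓞 K)) < 1 :=
    (HeightOneSpectrum.valuation_lt_one_iff_mem (K := K) v ((n : ℤ) : 𝓞 K)).2 (by
    obtain ⟨k, rfl⟩ := hn
    push_cast
    exact v.asIdeal.mul_mem_right _ h)
  rwa [map_intCast] at h3

theorem exists_j (h : ((ng p : ℕ) : 𝓞 K) ∈ v.asIdeal) :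
    Nonempty (p.adicCompletion ℚ →+* v.adicCompletion K) := by
  obtain ⟨j, -, -, -⟩ := exists_compl_map p v (algebraMap ℚ K) (val_le v p h) (val_lt v p h)
  exact ⟨j⟩

/-- the condition at a place of a number field follows from the condition over the rational
numbers -/
theorem cond_place {V : WeierstrassCurve ℚ} (hV : IV V) {A : Type} [Field A] [NumberField A]
    {θ z : A} (hcf : CF V A θ) (h : ((ng p : ℕ) : 𝓞 K) ∈ v.asIdeal)
    (hc : Cond (p.adicCompletion ℚ) (AlgebraicClosure (p.adicCompletion ℚ)) V θ z) :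
    Cond (v.adicCompletion K) (AlgebraicClosure (v.adicCompletion K)) V θ z := by
  haveI := gal_p p
  haveI : IsGalois (v.adicCompletion K) (AlgebraicClosure (v.adicCompletion K)) := by
    haveI : CharZero (v.adicCompletion K) := algebraRat.charZero _
    infer_instance
  obtain ⟨j⟩ := exists_j v p h
  obtain ⟨a, b, c, hC⟩ := Y355.G.V_roots hV.a1 hV.a3 hV.Δ (AlgebraicClosure (p.adicCompletion ℚ))
  exact cond_base hcf hC j hc

end places

end Pool.Agent.R425.G
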