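import Pool.Agent.R425.G.Cl1
import Pool.Agent.R425.Ram

/-!
# The local condition at the places of good reduction
-/

set_option autoImplicit false
set_option linter.all false

open NumberField IsDedekindDomain WithZero WeierstrassCurve WeierstrassCurve.Affine
open scoped NNReal Classical

namespace Pool.Agent.R425.G

open Pool.Agent.TH115.GD
open Pool.Agent.Y710.CV (Cond cond1 cond2)
open Pool.Agent.Y702.G (sh base pts)
open Pool.Agent.R425 (lz exists_data Ev)

theorem exists_prime_nat {F : Type} [Field F] [NumberField F] (v : HeightOneSpectrum (𝓞 F)) (n : ℕ)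
    (hn : n ≠ 0) (h : (n : 𝓞 F) ∈ v.asIdeal) :
    ∃ p : ℕ, p.Prime ∧ p ∣ n ∧ (p : 𝓞 F) ∈ v.asIdeal := by
  induction n using Nat.strong_induction_on with
  | _ n ih =>
    by_cases h1 : n = 1
    · exfalso
      rw [h1, Nat.cast_one] at h
      exact v.isPrime.ne_top ((Ideal.eq_top_iff_one _).2 h)
    · have hp := Nat.minFac_prime h1
      obtain ⟨m, hm⟩ := Nat.minFac_dvd n
      have hm0 : m ≠ 0 := by
        rintro rfl
        rw [mul_zero] at hm
        exact hn hm
      have hmn : m < n := by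
        conv_rhs => rw [hm]
        have := hp.two_le
        nlinarith [Nat.pos_of_ne_zero hm0]
      rw [hm, Nat.cast_mul] at h
      rcases v.isPrime.mem_or_mem h with h3 | h3
      · exact ⟨n.minFac, hp, Nat.minFac_dvd n, h3⟩
      · obtain ⟨p, hp1, hp2, hp3⟩ := ih m hmn hm0 h3
        exact ⟨p, hp1, hp2.trans ⟨n.minFac, by rw [mul_comm]; exact hm⟩, hp3⟩

theorem exists_prime_mem {F : Type} [Field F] [NumberField F] (v : HeightOneSpectrum (𝓞 F)) :
    ∃ p : ℕ, p.Prime ∧ (p : 𝓞 F) ∈ v.asIdeal := by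
  have h1 : ((Ideal.absNorm v.asIdeal : ℕ) : 𝓞 F) ∈ v.asIdeal := Ideal.absNorm_mem v.asIdeal
  have h2 : Ideal.absNorm v.asIdeal ≠ 0 := fun h => v.ne_bot (Ideal.absNorm_eq_zero_iff.1 h)
  obtain ⟨p, hp, _, hpv⟩ := exists_prime_nat v _ h2 h1
  exact ⟨p, hp, hpv⟩

section good

variable {V : WeierstrassCurve ℚ} {A : Type} [Field A] [NumberField A] {θ : A}

/-- the function on the roots -/
noncomputable def zf (h : CF V A θ) (z : A) {F : Type} [Field F] [Algebra ℚ F] (e : F) : F :=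
  if he : cub V e = 0 then em h (⟨e, he⟩ : Rt V F) z else 0

theorem zf_root (h : CF V A θ) (z : A) {F : Type} [Field F] [Algebra ℚ F] (e : Rt V F) :
    zf h z e.1 = em h e z := by
  unfold zf
  rw [dif_pos e.2]

theorem zf_hom (h : CF V A θ) (z : A) {F : Type} [Field F] [Algebra ℚ F] (φ : A →+* F) :
    zf h z (φ θ) = φ z :=
  (zf_root h z (⟨φ θ, root_em h φ⟩ : Rt V F)).trans
    (em_uniq h (⟨φ θ, root_em h φ⟩ : Rt V F) φ rfl z).symm

theorem zf_equi (h : CF V A θ) (z : A) {L Ω' : Type} [Field L] [Field Ω'] [Algebra L Ω']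
    [Algebra ℚ L] [Algebra ℚ Ω'] [IsScalarTower ℚ L Ω'] (σ : Ω' ≃ₐ[L] Ω') {e : Ω'}
    (he : cub V e = 0) : σ (zf h z e) = zf h z (σ e) := by
  have h1 := em_equi h σ (⟨e, he⟩ : Rt V Ω') z
  rw [← zf_root, ← zf_root] at h1
  exact h1

end good

section good2

variable {W : WeierstrassCurve ℤ} {A : Type} [Field A] [NumberField A] {θ : A}

theorem cond_lz (h : CF (sh W) A θ) (hW : W.Δ ≠ 0) {O : Type} [CommRing O] (P : Ideal O)
    [hP : P.IsMaximal] [hfin : Finite (O ⧸ P)]
    {L Ω' : Type} [Field L] [Field Ω'] [Algebra L Ω'] [IsAlgClosed Ω'] [IsGalois L Ω']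
    [Algebra ℚ L] [Algebra ℚ Ω'] [IsScalarTower ℚ L Ω']
    (j : O →+* L) (w : Valuation Ω' ℝ≥0)
    (hσ : ∀ (σ : Ω' ≃ₐ[L] Ω') (x : Ω'), w (σ x) = w x)
    (hj : ∀ a, w (algebraMap L Ω' (j a)) ≤ 1) (hjP : ∀ a, w (algebraMap L Ω' (j a)) < 1 ↔ a ∈ P)
    (happ : ∀ x : L, w (algebraMap L Ω' x) ≤ 1 →
      ∃ a : O, w (algebraMap L Ω' x - algebraMap L Ω' (j a)) < 1)
    (h2 : w 2 = 1) (hΔw : w (256 * ((W.Δ : ℤ) : Ω')) = 1) {z : A} {r : ℚ}
    (hr : Algebra.norm ℚ z = r ^ 2)
    (hev : ∀ φ : A →+* Ω', ∃ s : L, s ≠ 0 ∧ w (φ z) = w (algebraMap L Ω' s) ^ 2) :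
    Cond L Ω' (sh W) θ z := by
  haveI : CharZero Ω' := algebraRat.charZero Ω'
  have hV := iv_sh W hW
  obtain ⟨e1, e2, e3, hC⟩ := Y355.G.V_roots hV.a1 hV.a3 hV.Δ Ω'
  obtain ⟨d12, d13, d23⟩ := w_sub_one w hC hΔw
  have hnorm := norm_em h hC z
  rw [← zf_root h z ⟨e1, hC.root_a⟩, ← zf_root h z ⟨e2, hC.root_b⟩,
    ← zf_root h z ⟨e3, hC.root_c⟩] at hnorm
  have main := lz P j w hσ hj hjP happ Pool.Agent.Y500.G.s_fl h2 (V := sh W) (a := W.b₂)
    (b := 8 * W.b₄) (c := 16 * W.b₆)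
    (fun {F} _ _ x => by rw [cub_sh]; push_cast; ring)
    (fun {F} _ _ x => by rw [cub'_sh]; push_cast; ring)
    (e1 := e1) (e2 := e2) (e3 := e3) hC.cub_eq (w_rt w hC.root_a) (w_rt w hC.root_b)
    (w_rt w hC.root_c) d12 d13 d23 (fun e => zf h z e)
    (fun σ e he => zf_equi h z σ he)
    (fun e he => by
      obtain ⟨s, hs0, hs⟩ := hev (em h (⟨e, he⟩ : Rt (sh W) Ω') : A →+* Ω')
      exact ⟨s, hs0, by rw [← hs]; exact congrArg w (zf_root h z ⟨e, he⟩)⟩)
    (algebraMap ℚ L r)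
    (by
      show zf h z e1 * zf h z e2 * zf h z e3 = _
      rw [← hnorm, hr, map_pow, ← IsScalarTower.algebraMap_apply])
  rcases main with hA | ⟨X, Y, hXY, hB⟩
  · refine cond1 fun φ => ?_
    obtain ⟨y, hy, hy2⟩ := hA (φ θ) (root_em h φ)
    exact ⟨y, hy, by rw [← hy2]; exact (zf_hom h z φ).symm⟩
  · refine cond2 hV.a1 hV.a3 hV.Δ hXY fun φ => ?_
    obtain ⟨y, D, hy, hy2, hD⟩ := hB (φ θ) (root_em h φ)
    exact ⟨y, D, hy, by rw [← hy2]; exact (zf_hom h z φ).symm, hD⟩

theorem cond_good (h : CF (sh W) A θ) (hW : W.Δ ≠ 0) {l : ℕ} (hl : l.Prime)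
    (hlD : ¬ (l : ℤ) ∣ 2 * W.Δ) {z : A} (hz0 : z ≠ 0) {r : ℚ} (hr : Algebra.norm ℚ z = r ^ 2)
    (hz : ∀ u : HeightOneSpectrum (𝓞 A), (((2 * W.Δ) * l : ℤ) : 𝓞 A) ∉ u.asIdeal →
      u.valuation A z = 1)
    {K : Type} [Field K] [NumberField K] (hram : Ev K l) (v : HeightOneSpectrum (𝓞 K))
    (hv : ((2 * W.Δ : ℤ) : 𝓞 K) ∉ v.asIdeal) :
    Cond (v.adicCompletion K) (AlgebraicClosure (v.adicCompletion K)) (sh W) θ z := by
  haveI : CharZero (v.adicCompletion K) := algebraRat.charZero _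
  haveI : IsGalois (v.adicCompletion K) (AlgebraicClosure (v.adicCompletion K)) := inferInstance
  haveI : CharZero (AlgebraicClosure (v.adicCompletion K)) := algebraRat.charZero _
  obtain ⟨w, hw1, hw2, hw3, hw4, hw5⟩ := exists_data v
  obtain ⟨q, hq, hqv⟩ := exists_prime_mem v
  have hV := iv_sh W hW
  have hlZ : Prime (l : ℤ) := Nat.prime_iff_prime_int.1 hl
  have hqZ : Prime (q : ℤ) := Nat.prime_iff_prime_int.1 hq
  have hint : ∀ m : ℤ, w ((m : ℤ) : AlgebraicClosure (v.adicCompletion K)) < 1 ↔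
      ((m : ℤ) : 𝓞 K) ∈ v.asIdeal := by
    intro m
    rw [← hw4]
    simp only [map_intCast]
  have hone : ∀ m : ℤ, ((m : ℤ) : 𝓞 K) ∉ v.asIdeal →
      w ((m : ℤ) : AlgebraicClosure (v.adicCompletion K)) = 1 := by
    intro m hm
    apply le_antisymm (u_int w m)
    by_contra hcon
    rw [not_le] at hcon
    exact hm ((hint m).1 hcon)
  have hqw : w ((q : ℕ) : AlgebraicClosure (v.adicCompletion K)) < 1 := by
    have := (hint (q : ℤ)).2 (by exact_mod_cast hqv)
    exact_mod_cast this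
  have hqD : ¬ (q : ℤ) ∣ 2 * W.Δ := by
    rintro ⟨k, hk⟩
    apply hv
    rw [hk]
    push_cast
    exact v.asIdeal.mul_mem_right _ (by exact_mod_cast hqv)
  have h2 : w (2 : AlgebraicClosure (v.adicCompletion K)) = 1 := by
    have := hone 2 (fun hm => hv (by
      push_cast
      exact v.asIdeal.mul_mem_right _ (by exact_mod_cast hm)))
    exact_mod_cast this
  have hΔw : w (256 * ((W.Δ : ℤ) : AlgebraicClosure (v.adicCompletion K))) = 1 := by
    have h3 := hone W.Δ (fun hm => hv (by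
      push_cast
      exact v.asIdeal.mul_mem_left _ (by exact_mod_cast hm)))
    have e : (256 : AlgebraicClosure (v.adicCompletion K)) = 2 ^ 8 := by norm_num
    rw [map_mul, e, map_pow, h2, h3, one_pow, one_mul]
  -- the valuations
  have hev : ∀ φ : A →+* AlgebraicClosure (v.adicCompletion K),
      ∃ s : v.adicCompletion K, s ≠ 0 ∧ w (φ z) = w (algebraMap (v.adicCompletion K)
        (AlgebraicClosure (v.adicCompletion K)) s) ^ 2 := by
    intro φ
    have hmem := q_mem_plc w φ hq.ne_zero hqw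
    by_cases hql : q = l
    · subst hql
      have hu := unr_A h hW hq hqD (u := plc w φ
        hq.ne_zero hqw) hmem
      obtain ⟨k, hk⟩ := plc_unr w φ hq.ne_zero hqw
        hu hz0
      obtain ⟨s', hs'⟩ := hram v hqv
      have hq0 : (q : K) ≠ 0 := by exact_mod_cast hq.ne_zero
      have hs0 : s' ≠ 0 := by
        rintro rfl
        rw [map_zero, zero_pow two_ne_zero] at hs'
        exact hq0 ((Valuation.zero_iff _).1 hs'.symm)
      have hqs : w ((q : ℕ) : AlgebraicClosure (v.adicCompletion K)) = w (algebraMap _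
          (AlgebraicClosure (v.adicCompletion K)) (algebraMap K (v.adicCompletion K) s')) ^ 2 := by
        have g1 : ((q : ℕ) : AlgebraicClosure (v.adicCompletion K)) =
            algebraMap (v.adicCompletion K) _ ((q : ℕ) : v.adicCompletion K) := by
          rw [map_natCast]
        have g2 : w (algebraMap _ (AlgebraicClosure (v.adicCompletion K))
            (algebraMap K (v.adicCompletion K) s')) ^ 2 =
            w (algebraMap _ (AlgebraicClosure (v.adicCompletion K))
              ((algebraMap K (v.adicCompletion K) s') ^ 2)) := by rw [map_pow, map_pow]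
        have g3 : Valued.v ((q : ℕ) : v.adicCompletion K) =
            Valued.v ((algebraMap K (v.adicCompletion K) s') ^ 2) := by
          have g4 : ((q : ℕ) : v.adicCompletion K) = algebraMap K (v.adicCompletion K) (q : K) := by
            rw [map_natCast]
          rw [g4, map_pow]
          have g5 : ∀ x : K, Valued.v (algebraMap K (v.adicCompletion K) x) = v.valuation K x :=
            fun x => HeightOneSpectrum.valuedAdicCompletion_eq_valuation' v x
          rw [g5, g5, hs']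
        rw [g1, g2]
        exact le_antisymm ((hw2 _ _).2 g3.le) ((hw2 _ _).2 g3.ge)
      refine ⟨(algebraMap K (v.adicCompletion K) s') ^ k,
        zpow_ne_zero _ ((_root_.map_ne_zero _).2 hs0), ?_⟩
      have hk' : w (φ z) = w ((q : ℕ) : AlgebraicClosure (v.adicCompletion K)) ^ k := hk
      rw [hk', hqs, map_zpow₀, map_zpow₀, ← zpow_natCast, ← zpow_natCast, ← zpow_mul, ← zpow_mul,
        mul_comm]
    · have hval : (plc w φ hq.ne_zero
          hqw).valuation A z = 1 := by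
        apply hz
        intro hcon
        have h5 := not_both hq hmem hcon
        rcases hqZ.dvd_or_dvd h5 with h6 | h6
        · exact hqD h6
        · have h7 : q ∣ l := by exact_mod_cast h6
          exact hql ((Nat.prime_dvd_prime_iff_eq hq hl).1 h7)
      have h8 := plc_one w φ hq.ne_zero hqw hval
      exact ⟨1, one_ne_zero, by
        rw [map_one, map_one, one_pow]
        exact h8⟩
  haveI : v.asIdeal.IsMaximal := v.isMaximal
  haveI : Finite (𝓞 K ⧸ v.asIdeal) := Ring.HasFiniteQuotients.finiteQuotient v.ne_bot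
  let j : 𝓞 K →+* (v.adicCompletion K) :=
    (algebraMap K (v.adicCompletion K)).comp (algebraMap (𝓞 K) K)
  exact cond_conv _ _ _ _ _ _ (cond_lz h hW v.asIdeal j w hw1 hw3 hw4 hw5 h2 hΔw hr hev)

end good2

end Pool.Agent.R425.G
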