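import Pool.Agent.R425.G.Cl1

/-!
# The local condition at the infinite places
-/

set_option autoImplicit false
set_option linter.all false

open NumberField IsDedekindDomain WithZero WeierstrassCurve WeierstrassCurve.Affine
open scoped NNReal Classical

namespace Pool.Agent.R425.G

open Pool.Agent.TH115.GD
open Pool.Agent.Y710.CV (Cond cond1 cond2)
open Pool.Agent.Y702.G (sh base pts)

section inf

variable {W : WeierstrassCurve ℤ} {A : Type} [Field A] [NumberField A] {θ : A}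

theorem pos_real (h : CF (sh W) A θ) (hW : W.Δ < 0) {z : A} {r : ℚ} (hr0 : r ≠ 0)
    (hr : Algebra.norm ℚ z = r ^ 2) (φ : A →+* ℂ) (hφ : starRingEnd ℂ (φ θ) = φ θ) :
    ∃ s : ℝ, φ z = (s : ℂ) ∧ 0 < s := by
  have hV := iv_sh W hW.ne
  obtain ⟨a, b, c, hC0⟩ := Y355.G.V_roots hV.a1 hV.a3 hV.Δ ℂ
  obtain ⟨e2, e3, hC⟩ := hC0.at_root (hC0.root (root_em h φ))
  set e := φ θ with he
  have hd := disc_sh hC
  have hroot : ∀ x : ℂ, cub (sh W) x = 0 → cub (sh W) (starRingEnd ℂ x) = 0 := by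
    intro x hx
    have h1 := congrArg (starRingEnd ℂ) hx
    rw [cub_sh] at h1 ⊢
    simpa only [map_add, map_mul, map_pow, map_ofNat, map_intCast, map_zero] using h1
  obtain ⟨x1, hx1⟩ := Complex.conj_eq_iff_real.1 hφ
  have hsum : e + e2 + e3 = -(W.b₂ : ℂ) := by
    have h2 := hC.e2
    have c2 : algebraMap ℚ ℂ (sh W).a₂ = (W.b₂ : ℂ) := by
      show algebraMap ℚ ℂ ((W.b₂ : ℤ) : ℚ) = _
      rw [map_intCast]
    rw [c2] at h2
    linear_combination h2
  have h2r : starRingEnd ℂ e2 ≠ e2 := by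
    intro h2
    obtain ⟨x2, hx2⟩ := Complex.conj_eq_iff_real.1 h2
    have hx3 : e3 = ((-(W.b₂ : ℝ) - x1 - x2 : ℝ) : ℂ) := by
      push_cast
      rw [← hx1, ← hx2]
      linear_combination hsum
    rw [hx1, hx2, hx3] at hd
    have hd' : (x1 - x2) ^ 2 * (x1 - (-(W.b₂ : ℝ) - x1 - x2)) ^ 2 *
        (x2 - (-(W.b₂ : ℝ) - x1 - x2)) ^ 2 = 256 * (W.Δ : ℝ) := by exact_mod_cast hd
    have h0 : 0 ≤ (x1 - x2) ^ 2 * (x1 - (-(W.b₂ : ℝ) - x1 - x2)) ^ 2 *
        (x2 - (-(W.b₂ : ℝ) - x1 - x2)) ^ 2 := by positivity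
    rw [hd'] at h0
    have h1 : ((W.Δ : ℤ) : ℝ) < 0 := by exact_mod_cast hW
    linarith
  have h23 : starRingEnd ℂ e2 = e3 := by
    rcases hC.root (hroot e2 hC.root_b) with h1 | h1 | h1
    · exfalso
      apply hC.ab
      have h2 := congrArg (starRingEnd ℂ) h1
      rw [Complex.conj_conj, hφ] at h2
      exact h2.symm
    · exact absurd h1 h2r
    · exact h1
  have hnorm := norm_em h hC z
  set E1 := em h (⟨e, hC.root_a⟩ : Rt (sh W) ℂ) with hE1
  set E2 := em h (⟨e2, hC.root_b⟩ : Rt (sh W) ℂ) with hE2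
  set E3 := em h (⟨e3, hC.root_c⟩ : Rt (sh W) ℂ) with hE3
  have hφz : φ z = E1 z := em_uniq h (⟨e, hC.root_a⟩ : Rt (sh W) ℂ) φ rfl z
  have hc1 : starRingEnd ℂ (φ z) = φ z := by
    have h1 := em_uniq h (⟨e, hC.root_a⟩ : Rt (sh W) ℂ) ((starRingEnd ℂ).comp φ) (by
      show starRingEnd ℂ (φ θ) = e
      exact hφ) z
    rw [hφz, ← hφz]
    exact h1.trans hφz.symm
  have hc3 : E3 z = starRingEnd ℂ (E2 z) := by
    have h1 := em_uniq h (⟨e3, hC.root_c⟩ : Rt (sh W) ℂ) ((starRingEnd ℂ).comp (E2 : A →+* ℂ)) (by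
      show starRingEnd ℂ (E2 θ) = e3
      rw [hE2, em_root]
      exact h23) z
    exact h1.symm
  obtain ⟨s, hs⟩ := Complex.conj_eq_iff_real.1 hc1
  refine ⟨s, hs, ?_⟩
  rw [← hφz, hs, hc3, mul_assoc, Complex.mul_conj, hr] at hnorm
  have h5 : ((r : ℝ)) ^ 2 = s * Complex.normSq (E2 z) := by
    have h1 : (((r : ℝ) ^ 2 : ℝ) : ℂ) = ((s * Complex.normSq (E2 z) : ℝ) : ℂ) := by
      push_cast
      rw [← hnorm, map_pow]
      simp
    exact_mod_cast h1
  have h6 : 0 < (r : ℝ) ^ 2 := by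
    have : (r : ℝ) ≠ 0 := by exact_mod_cast hr0
    positivity
  rw [h5] at h6
  exact pos_of_mul_pos_left h6 (Complex.normSq_nonneg _)

theorem cond_cplx {V : WeierstrassCurve ℚ} {L : Type} [Field L] [Algebra ℚ L] [IsAlgClosed L]
    (z : A) : Cond L (AlgebraicClosure L) V θ z := by
  refine cond1 fun φ => ?_
  obtain ⟨y, hy⟩ := IsAlgClosed.exists_pow_nat_eq (φ z) (n := 2) (by norm_num)
  refine ⟨y, fun σ _ => ?_, hy.symm⟩
  obtain ⟨x, rfl⟩ := (IsAlgClosed.algebraMap_bijective_of_isIntegral (k := L)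
    (K := AlgebraicClosure L)).2 y
  exact σ.commutes x

theorem cond_real (h : CF (sh W) A θ) (hW : W.Δ < 0) {z : A} {r : ℚ} (hr0 : r ≠ 0)
    (hr : Algebra.norm ℚ z = r ^ 2) {L : Type} [Field L] [Algebra ℚ L] (κ : L ≃+* ℝ) :
    Cond L (AlgebraicClosure L) (sh W) θ z := by
  letI algC : Algebra L ℂ := (Complex.ofRealHom.comp (κ : L →+* ℝ)).toAlgebra
  letI algR : Algebra L ℝ := (κ : L →+* ℝ).toAlgebra
  haveI : IsScalarTower L ℝ ℂ := IsScalarTower.of_algebraMap_eq fun x => rfl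
  haveI : Algebra.IsAlgebraic L ℝ := by
    refine ⟨fun x => ?_⟩
    have h : x = algebraMap L ℝ (κ.symm x) := (κ.apply_symm_apply x).symm
    rw [h]
    exact isAlgebraic_algebraMap _
  haveI : Algebra.IsAlgebraic ℝ ℂ := Algebra.IsAlgebraic.of_finite ℝ ℂ
  haveI : Algebra.IsAlgebraic L ℂ := Algebra.IsAlgebraic.trans L ℝ ℂ
  haveI : IsAlgClosure L ℂ := ⟨inferInstance, inferInstance⟩
  let φ : AlgebraicClosure L ≃ₐ[L] ℂ := IsAlgClosure.equiv L (AlgebraicClosure L) ℂ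
  have hφL : ∀ x : L, φ (algebraMap L _ x) = ((κ x : ℝ) : ℂ) := fun x => φ.commutes x
  have haut : ∀ σ : AlgebraicClosure L ≃ₐ[L] AlgebraicClosure L,
      (∀ x, φ (σ x) = φ x) ∨ ∀ x, φ (σ x) = starRingEnd ℂ (φ x) := by
    intro σ
    let f : ℂ →ₐ[ℝ] ℂ := AlgHom.mk' ((φ.symm.trans (σ.trans φ) : ℂ ≃ₐ[L] ℂ) : ℂ →+* ℂ) (by
      intro r x
      show φ (σ (φ.symm (r • x))) = r • φ (σ (φ.symm x))
      have h1 : r • x = φ (algebraMap L _ (κ.symm r)) * x := by
        rw [hφL, κ.apply_symm_apply, Complex.real_smul]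
      rw [h1]
      have h2 : φ.symm (φ (algebraMap L _ (κ.symm r)) * x) =
          algebraMap L _ (κ.symm r) * φ.symm x := by
        rw [map_mul, φ.symm_apply_apply]
      rw [h2, map_mul, σ.commutes, map_mul, hφL, κ.apply_symm_apply, Complex.real_smul])
    have hf : ∀ x, f (φ x) = φ (σ x) := by
      intro x
      show φ (σ (φ.symm (φ x))) = _
      rw [φ.symm_apply_apply]
    rcases Complex.real_algHom_eq_id_or_conj f with h | h
    · left
      intro x
      rw [← hf, h]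
      rfl
    · right
      intro x
      rw [← hf, h]
      rfl
  refine cond1 fun ψ => ?_
  by_cases hre : starRingEnd ℂ (φ (ψ θ)) = φ (ψ θ)
  · obtain ⟨s, hs, hs0⟩ := pos_real h hW hr0 hr
      ((φ : AlgebraicClosure L →+* ℂ).comp ψ) hre
    refine ⟨φ.symm ((√s : ℝ) : ℂ), fun σ _ => ?_, ?_⟩
    · apply φ.injective
      rcases haut σ with h | h
      · rw [h]
      · rw [h, φ.apply_symm_apply, Complex.conj_ofReal]
    · apply φ.injective
      rw [map_pow, φ.apply_symm_apply]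
      have h3 : φ (ψ z) = ((φ : AlgebraicClosure L →+* ℂ).comp ψ) z := rfl
      rw [h3, hs, ← Complex.ofReal_pow, Real.sq_sqrt hs0.le]
  · obtain ⟨y, hy⟩ := IsAlgClosed.exists_pow_nat_eq (ψ z) (n := 2) (by norm_num)
    refine ⟨y, fun σ hσ => ?_, hy.symm⟩
    apply φ.injective
    rcases haut σ with h | h
    · exact h y
    · exfalso
      apply hre
      rw [← h, hσ]

theorem cond_inf (h : CF (sh W) A θ) (hW : W.Δ < 0) {z : A} {r : ℚ} (hr0 : r ≠ 0)
    (hr : Algebra.norm ℚ z = r ^ 2) {K : Type} [Field K] [NumberField K] (v : InfinitePlace K) :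
    Cond v.Completion (AlgebraicClosure v.Completion) (sh W) θ z := by
  rcases v.isReal_or_isComplex with hv | hv
  · exact cond_conv _ _ _ _ _ _
      (cond_real h hW hr0 hr (InfinitePlace.Completion.ringEquivRealOfIsReal hv))
  · haveI : IsAlgClosed v.Completion :=
      IsAlgClosed.of_ringEquiv _ _ (InfinitePlace.Completion.ringEquivComplexOfIsComplex hv).symm
    exact cond_conv _ _ _ _ _ _ (cond_cplx z)

end inf

end Pool.Agent.R425.G
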