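import Pool.Agent.R425.G.Cl2
import Pool.Agent.R425.G.Cl3

/-!
# A nontrivial locally trivial class
-/

set_option autoImplicit false
set_option linter.all false

open NumberField IsDedekindDomain WithZero WeierstrassCurve WeierstrassCurve.Affine
open scoped NNReal Classical

namespace Pool.Agent.R425.G

open Pool.Agent.TH115.GD
open Pool.Agent.Y710.CV (Cond cond1 cond2)
open Pool.Agent.Y702.G (sh base pts)
open Pool.Agent.R425 (Ev exists_cls sq_of_triv)
open Pool.Agent.Y809.BS (presQ)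

section sq

variable {V : WeierstrassCurve ℚ} {A : Type} [Field A] [NumberField A] {θ : A}

/-- an element fixed by the stabilizer of a root comes from the cubic field -/
theorem mem_of_stab (h : CF V A θ) {Ω : Type} [Field Ω] [Algebra ℚ Ω] [IsGalois ℚ Ω]
    (e : Rt V Ω) {x : Ω} (hfix : ∀ σ : Ω ≃ₐ[ℚ] Ω, σ e.1 = e.1 → σ x = x) :
    ∃ s : A, em h e s = x := by
  have h5 : x ∈ IntermediateField.fixedField ((em h e).fieldRange.fixingSubgroup) := by
    rw [IntermediateField.mem_fixedField_iff]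
    intro σ hσ
    apply hfix
    rw [IntermediateField.mem_fixingSubgroup_iff] at hσ
    have h6 := hσ (em h e θ) ⟨θ, rfl⟩
    rwa [em_root] at h6
  rw [InfiniteGalois.fixedField_fixingSubgroup] at h5
  obtain ⟨s, hs⟩ := h5
  exact ⟨s, hs⟩

end sq

/-- A class over `ℚ`, locally trivial over `K`, nontrivial over `K`. -/
theorem exists_class (K : Type) [Field K] [NumberField K] [IsGalois ℚ K] {W : WeierstrassCurve ℤ}
    (hW : W.Δ < 0) (hnr : ∀ x : K, cub (sh W) x ≠ 0) {l : ℕ} (hl : l.Prime)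
    (hlD : ¬ (l : ℤ) ∣ 2 * W.Δ) {n : ℤ}
    (hn : (l : ℤ) ∣ n ^ 3 + W.b₂ * n ^ 2 + 8 * W.b₄ * n + 16 * W.b₆) (hram : Ev K l) :
    ∃ g : (AlgebraicClosure K ≃ₐ[ℚ] AlgebraicClosure K) → Pt (sh W) (AlgebraicClosure K),
      IsLocallyConstant g ∧ (∀ σ τ, g (σ * τ) = g σ + act (sh W) (ak σ) (g τ)) ∧
      (∀ σ, g σ + g σ = 0) ∧
      (∀ v : HeightOneSpectrum (𝓞 K), LocTriv (F := ℚ) (Ω := AlgebraicClosure K) (sh W)
        (v.adicCompletion K) (AlgebraicClosure (v.adicCompletion K)) g) ∧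
      (∀ v : InfinitePlace K, LocTriv (F := ℚ) (Ω := AlgebraicClosure K) (sh W)
        v.Completion (AlgebraicClosure v.Completion) g) ∧
      ¬ ∃ T : Pt (sh W) (AlgebraicClosure K), T + T = 0 ∧
        ∀ σ : AlgebraicClosure K ≃ₐ[K] AlgebraicClosure K,
          g (σ.restrictScalars ℚ) = act (sh W) (rs ℚ σ) T - T := by
  haveI : IsGalois ℚ (AlgebraicClosure K) := IsGalois.mk
  haveI : CharZero (AlgebraicClosure K) := algebraRat.charZero _
  have hV := iv_sh W hW.ne
  have hnrQ : ∀ x : ℚ, cub (sh W) x ≠ 0 := by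
    intro x hx
    apply hnr (algebraMap ℚ K x)
    have h := cub_map (sh W) (incl ℚ ℚ K) x
    rw [hx, map_zero] at h
    exact h
  obtain ⟨A, hA1, hA2, θ, hcf⟩ := exists_cf hV hnrQ
  have hD0 : 2 * W.Δ ≠ 0 := mul_ne_zero two_ne_zero hW.ne
  have hl0 : (l : ℤ) ≠ 0 := by exact_mod_cast hl.ne_zero
  obtain ⟨z, ⟨r, hr0, hr⟩, hzsq, hzv, hzc⟩ := exists_z hcf hV hD0 hl hlD
    (tq_two hcf hW.ne hl hlD hn) (mul_ne_zero hD0 hl0)
  obtain ⟨a, b, c, hC⟩ := Y355.G.V_roots hV.a1 hV.a3 hV.Δ (AlgebraicClosure K)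
  -- the local conditions
  have hcondF : ∀ v : HeightOneSpectrum (𝓞 K),
      Cond (v.adicCompletion K) (AlgebraicClosure (v.adicCompletion K)) (sh W) θ (z : A) := by
    intro v
    by_cases hv : ((2 * W.Δ : ℤ) : 𝓞 K) ∈ v.asIdeal
    · obtain ⟨q, hq, hqv⟩ := exists_prime_mem v
      obtain ⟨p, rfl⟩ := exists_ng hq
      exact cond_place v p hV hcf hqv (hzc p (not_both hq hqv hv))
    · exact cond_good hcf hW.ne hl hlD z.ne_zero hr hzv hram v hv
  have hcondI : ∀ v : InfinitePlace K,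
      Cond v.Completion (AlgebraicClosure v.Completion) (sh W) θ (z : A) :=
    fun v => cond_inf hcf hW hr0 hr v
  have hnorm := norm_em hcf hC (z : A)
  rw [← zf_root hcf (z : A) ⟨a, hC.root_a⟩, ← zf_root hcf (z : A) ⟨b, hC.root_b⟩,
    ← zf_root hcf (z : A) ⟨c, hC.root_c⟩, hr, map_pow] at hnorm
  have hζ0 : ∀ e : AlgebraicClosure K, cub (sh W) e = 0 → zf hcf (z : A) e ≠ 0 := by
    intro e he h0
    have h1 := zf_root hcf (z : A) (⟨e, he⟩ : Rt (sh W) (AlgebraicClosure K))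
    rw [h0] at h1
    exact z.ne_zero ((em hcf _).injective ((map_zero _).trans h1).symm)
  obtain ⟨g, tt, hg1, hg2, hg3, hg4, hg5, hg6⟩ := exists_cls hC (fun e => zf hcf (z : A) e)
    (fun σ e he => zf_equi hcf (z : A) σ he) hζ0 (r := r) hnorm.symm
  set ia := em hcf (⟨a, hC.root_a⟩ : Rt (sh W) (AlgebraicClosure K)) with hia
  have hθ : (ia : A →+* AlgebraicClosure K) θ = a := em_root hcf _
  have hk : ∀ τ : AlgebraicClosure K ≃ₐ[ℚ] AlgebraicClosure K, τ a = a →
      τ (tt a) = sC a (g τ) * tt a := by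
    intro τ hτ
    have h := hg6 τ a hC.root_a
    have h3 : τ⁻¹ a = a := by
      apply τ.injective
      rw [← AlgEquiv.mul_apply, mul_inv_cancel]
      exact hτ.symm
    rwa [h3] at h
  have hta : tt a ^ 2 = (ia : A →+* AlgebraicClosure K) (z : A) :=
    (hg4 a hC.root_a).2.trans (zf_root hcf (z : A) ⟨a, hC.root_a⟩)
  refine ⟨g, hg1, hg2, hg3, fun v => ?_, fun v => ?_, ?_⟩
  · haveI : IsGalois (v.adicCompletion K) (AlgebraicClosure (v.adicCompletion K)) := by
      haveI : CharZero (v.adicCompletion K) := algebraRat.charZero _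
      infer_instance
    exact Pool.Agent.Y710.CV.core' (sh W) (ia : A →+* AlgebraicClosure K) (θ := θ)
      (b := b) (c := c) (by rw [hθ]; exact hC) hnrQ hg2 hg3
      (t := tt a) (hg4 a hC.root_a).1 hta
      (by rw [hθ]; exact hk) (hcondF v)
  · haveI : IsGalois v.Completion (AlgebraicClosure v.Completion) := by
      haveI : CharZero v.Completion := algebraRat.charZero _
      infer_instance
    exact Pool.Agent.Y710.CV.core' (sh W) (ia : A →+* AlgebraicClosure K) (θ := θ)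
      (b := b) (c := c) (by rw [hθ]; exact hC) hnrQ hg2 hg3
      (t := tt a) (hg4 a hC.root_a).1 hta
      (by rw [hθ]; exact hk) (hcondI v)
  · rintro ⟨T, hT, hT2⟩
    -- the subgroup
    set H : Subgroup (AlgebraicClosure K ≃ₐ[ℚ] AlgebraicClosure K) :=
      (AlgEquiv.restrictScalarsHom ℚ :
        (AlgebraicClosure K ≃ₐ[K] AlgebraicClosure K) →* _).range with hH
    haveI : H.Normal := by
      refine ⟨fun σ hσ τ => ?_⟩
      obtain ⟨σ0, rfl⟩ := hσ
      obtain ⟨σ', hσ'⟩ := exists_conj (presQ K) τ⁻¹ σ0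
      refine ⟨σ', AlgEquiv.ext fun x => ?_⟩
      show σ' x = τ (σ0 (τ⁻¹ x))
      have h := hσ' x
      rw [← h, ← AlgEquiv.mul_apply, mul_inv_cancel]
      rfl
    have htrans : ∀ e, cub (sh W) e = 0 → ∃ σ ∈ H, σ a = e := by
      intro e he
      obtain ⟨σ, hσ⟩ := trans_roots hC hnr e (hC.root he)
      exact ⟨σ.restrictScalars ℚ, ⟨σ, rfl⟩, hσ⟩
    obtain ⟨t', ht1, ht2⟩ := sq_of_triv hC (ζ := fun e => zf hcf (z : A) e) (g := g) (t := tt)
      (r := r) hr0 hg3 hg4 hg5 hg6 H htrans hT (by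
        rintro σ ⟨σ0, rfl⟩
        exact hT2 σ0)
    obtain ⟨s, hs⟩ := mem_of_stab hcf (⟨a, hC.root_a⟩ : Rt (sh W) (AlgebraicClosure K))
      (x := t' a) (fun σ hσ => by
        have hσ' : σ a = a := hσ
        rw [ht2 σ a hC.root_a, hσ'])
    apply hzsq
    have key : em hcf (⟨a, hC.root_a⟩ : Rt (sh W) (AlgebraicClosure K)) (z : A) =
        em hcf (⟨a, hC.root_a⟩ : Rt (sh W) (AlgebraicClosure K)) (s ^ 2) := by
      rw [map_pow, hs]
      exact ((ht1 a hC.root_a).trans (zf_root hcf (z : A) ⟨a, hC.root_a⟩)).symm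
    exact ⟨s, (em hcf (⟨a, hC.root_a⟩ : Rt (sh W) (AlgebraicClosure K))).toRingHom.injective key⟩

end Pool.Agent.R425.G
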