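import Pool.Agent.R425.G.Cl4

/-!
# The Tate-Shafarevich group and the Selmer group modulo two over a number field
-/

set_option autoImplicit false
set_option linter.all false

open NumberField IsDedekindDomain WithZero WeierstrassCurve WeierstrassCurve.Affine
open scoped NNReal Classical

namespace Pool.Agent.R425.G

open Pool.Agent.TH115.GD
open Pool.Agent.Y702.G (sh base pts)
open Pool.Agent.Y355.G (trE trE_inj trE_surj trE_act V_roots sh_disc isSh')
open Pool.Agent.R425 (Ev)

/-- The 2-Selmer group of `V` over the number field `K`, with the conditions at all places, is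
trivial. -/
def SelT (V : WeierstrassCurve ℚ) (K : Type) [Field K] [NumberField K] : Prop :=
  ∀ f : (AlgebraicClosure K ≃ₐ[K] AlgebraicClosure K) → Pt V (AlgebraicClosure K),
    IsCoc V f → (∀ σ, f σ + f σ = 0) →
    (∀ v : HeightOneSpectrum (𝓞 K),
      LocTriv V (v.adicCompletion K) (AlgebraicClosure (v.adicCompletion K)) f) →
    (∀ v : InfinitePlace K, LocTriv V v.Completion (AlgebraicClosure v.Completion) f) →
    ∃ T : Pt V (AlgebraicClosure K), T + T = 0 ∧ ∀ σ, f σ = act V (rs ℚ σ) T - T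

section transfer

variable (W : WeierstrassCurve ℤ) {K : Type} [Field K] [NumberField K]

/-- from the short model to the model -/
theorem loc_to (L : Type) [Field L] [Algebra K L] [Algebra ℚ L] [IsScalarTower ℚ K L]
    {g : (AlgebraicClosure K ≃ₐ[K] AlgebraicClosure K) → Pt (sh W) (AlgebraicClosure K)}
    (hg : IsCoc (F := K) (sh W) g)
    (hloc : LocTriv (F := K) (Ω := AlgebraicClosure K) (sh W) L (AlgebraicClosure L) g)
    {f : Pool.Agent.TH841.SH.D.Coch (base W K)}
    (hf : ∀ σ, trE W (AlgebraicClosure K) (f σ) = g σ) :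
    Pool.Agent.TH841.SH.D.LocTriv (base W K) L f := by
  intro ι
  obtain ⟨P0, hP0⟩ := LocTriv.of_any (sh W) hg hloc ι
  obtain ⟨P, hP⟩ := trE_surj W (K := K) (AlgebraicClosure L) P0
  refine ⟨P, fun τ σ h => ?_⟩
  apply trE_inj W (K := K) (AlgebraicClosure L)
  have h1 := hP0 τ σ h
  have e1 := trE_act W (K := K) ι (ι.restrictScalars ℚ) (fun x => rfl) (f σ)
  have e2 := trE_act W (K := K) (AlgHom.restrictScalars K τ.toAlgHom) (rs ℚ τ) (fun x => rfl) P
  rw [map_sub, hP]
  refine e1.trans ?_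
  rw [hf]
  refine Eq.trans ?_ (h1.trans ?_)
  · rfl
  · rw [hP] at e2
    exact (congrArg (fun z => z - P0) e2).symm

/-- from the model to the short model -/
theorem loc_from (L : Type) [Field L] [Algebra K L] [Algebra ℚ L] [IsScalarTower ℚ K L]
    {f : Pool.Agent.TH841.SH.D.Coch (base W K)}
    (hf : Pool.Agent.TH841.SH.D.LocTriv (base W K) L f) :
    LocTriv (F := K) (Ω := AlgebraicClosure K) (sh W) L (AlgebraicClosure L)
      (fun σ => trE W (AlgebraicClosure K) (f σ)) := by
  let ι : AlgebraicClosure K →ₐ[K] AlgebraicClosure L := IsAlgClosed.lift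
  obtain ⟨P0, hP0⟩ := hf ι
  refine ⟨ι, trE W _ P0, fun τ σ h => ?_⟩
  have h1 := hP0 τ σ h
  have e1 := trE_act W (K := K) ι (ι.restrictScalars ℚ) (fun x => rfl) (f σ)
  have e2 := trE_act W (K := K) (AlgHom.restrictScalars K τ.toAlgHom) (rs ℚ τ) (fun x => rfl) P0
  refine e1.symm.trans ((congrArg (trE W (AlgebraicClosure L)) h1).trans ?_)
  rw [map_sub]
  exact congrArg (fun z => z - trE W (AlgebraicClosure L) P0) e2

end transfer

section main

variable (W : WeierstrassCurve ℤ) (K : Type) [Field K] [NumberField K] (hW : W.Δ ≠ 0)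

include hW in
/-- The Selmer group is trivial if the group of the points is finite and the Tate-Shafarevich group
has no element of order two. -/
theorem selT_of (hnr : ∀ x : K, cub (sh W) x ≠ 0) (hfin : Finite (base W K).toAffine.Point)
    (hsha : ∀ s : Pool.Agent.TH841.NF.D.Sha (base W K), 2 • s = 0 → s = 0) : SelT (sh W) K := by
  intro g hg1 hg3 hg4 hg5
  obtain ⟨a, b, c, hC⟩ := V_roots (V := sh W) rfl rfl (sh_disc hW) (AlgebraicClosure K)
  have hsurj := trE_surj W (K := K) (AlgebraicClosure K)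
  choose inv hinv using hsurj
  set f : Pool.Agent.TH841.SH.D.Coch (base W K) := fun σ => inv (g σ) with hf
  have hfe : ∀ σ, trE W (AlgebraicClosure K) (f σ) = g σ := fun σ => hinv _
  have nat : ∀ (σ : AlgebraicClosure K ≃ₐ[K] AlgebraicClosure K)
      (R : Pool.Agent.TH841.SH.D.Pt (base W K) (AlgebraicClosure K)),
      trE W (AlgebraicClosure K) (Pool.Agent.TH841.SH.D.act (base W K) σ.toAlgHom R) =
        act (sh W) (rs ℚ σ) (trE W (AlgebraicClosure K) R) := fun σ R =>
    trE_act W σ.toAlgHom (rs ℚ σ) (fun x => rfl) R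
  have hcoc : Pool.Agent.TH841.SH.D.IsCoc (base W K) f := by
    refine ⟨hg1.1.comp inv, fun σ τ => ?_⟩
    apply trE_inj W (K := K) (AlgebraicClosure K)
    rw [map_add, nat, hfe, hfe, hfe]
    exact hg1.2 σ τ
  have hmem : f ∈ Pool.Agent.TH841.NF.D.shaCoc (base W K) := by
    refine ⟨hcoc, fun v => ?_, fun v => ?_⟩
    · exact loc_to W _ hg1 (hg4 v) hfe
    · exact loc_to W _ hg1 (hg5 v) hfe
  -- the class in the Tate-Shafarevich group
  set s : Pool.Agent.TH841.NF.D.Sha (base W K) := QuotientAddGroup.mk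
    (⟨f, hmem⟩ : Pool.Agent.TH841.NF.D.shaCoc (base W K)) with hs
  have h2f : (2 : ℕ) • (⟨f, hmem⟩ : Pool.Agent.TH841.NF.D.shaCoc (base W K)) = 0 := by
    apply Subtype.ext
    funext σ
    apply trE_inj W (K := K) (AlgebraicClosure K)
    show trE W (AlgebraicClosure K) (((2 : ℕ) • f) σ) = trE W (AlgebraicClosure K) 0
    rw [map_zero]
    have e1 : ((2 : ℕ) • f) σ = f σ + f σ := by
      rw [two_nsmul]
      rfl
    rw [e1, map_add, hfe, hg3]
  have h2s : (2 : ℕ) • s = 0 := by
    have e1 : (2 : ℕ) • s = QuotientAddGroup.mk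
      ((2 : ℕ) • (⟨f, hmem⟩ : Pool.Agent.TH841.NF.D.shaCoc (base W K))) := rfl
    rw [e1, h2f]
    rfl
  have hs0 := hsha s h2s
  rw [hs] at hs0
  have hs1 := (QuotientAddGroup.eq_zero_iff _).1 hs0
  rw [AddSubgroup.mem_addSubgroupOf] at hs1
  obtain ⟨P, hP⟩ := hs1
  set Q := trE W (AlgebraicClosure K) P with hQ
  have hgQ : ∀ σ : AlgebraicClosure K ≃ₐ[K] AlgebraicClosure K,
      g σ = act (sh W) (rs ℚ σ) Q - Q := by
    intro σ
    rw [← hfe, hQ, ← nat, ← map_sub]
    exact congrArg (trE W (AlgebraicClosure K)) (hP σ)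
  -- the double is a point over `K`
  have hfix : ∀ σ : AlgebraicClosure K ≃ₐ[K] AlgebraicClosure K,
      act (sh W) (rs ℚ σ) (Q + Q) = Q + Q := by
    intro σ
    have h3 := hg3 σ
    rw [hgQ σ] at h3
    rw [map_add, ← sub_eq_zero, ← h3]
    abel
  obtain ⟨R, hR⟩ := fixed_point (K := ℚ) (F := K) (sh W) (Q + Q) hfix
  -- doubling is bijective on the points over `K`
  have hfinW : Finite (Pt (sh W) K) := by
    let e : (base W K).toAffine.Point ≃ Pt (sh W) K := Equiv.ofBijective (Y355.G.tr (isSh' W K))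
      ⟨fun P Q h => Y355.G.tr_inj _ h, fun Q => Y355.G.tr_surj _ Q⟩
    exact Finite.of_equiv _ e
  have hinj : Function.Injective (fun x : Pt (sh W) K => x + x) := by
    intro x y hxy
    have hxy' : x + x = y + y := hxy
    have h5 : (x - y) + (x - y) = 0 := by
      rw [sub_add_sub_comm, hxy', sub_self]
    have h6 : act (sh W) (incl ℚ K (AlgebraicClosure K)) (x - y) = 0 := by
      apply no_two hC hnr
      · rw [← map_add, h5, map_zero]
      · intro σ
        exact rs_act_incl (sh W) σ (x - y)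
    have h7 : x - y = 0 := by
      apply act_inj (sh W) (incl ℚ K (AlgebraicClosure K))
      rw [h6, map_zero]
    exact sub_eq_zero.1 h7
  obtain ⟨R', hR'⟩ := (Finite.injective_iff_surjective.1 hinj) R
  have hR'' : R' + R' = R := hR'
  refine ⟨Q - act (sh W) (incl ℚ K (AlgebraicClosure K)) R', ?_, fun σ => ?_⟩
  · have h8 : act (sh W) (incl ℚ K (AlgebraicClosure K)) R' +
        act (sh W) (incl ℚ K (AlgebraicClosure K)) R' = Q + Q := by rw [← map_add, hR'', hR]
    rw [sub_add_sub_comm, h8, sub_self]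
  · rw [hgQ σ, map_sub, rs_act_incl]
    abel

/-- If the Selmer group is trivial then there is no root modulo the ramified primes. -/
theorem no_root_ram [IsGalois ℚ K] (hD : W.Δ < 0) (hnr : ∀ x : K, cub (sh W) x ≠ 0)
    (hS : SelT (sh W) K) {l : ℕ} (hl : l.Prime) (hlD : ¬ (l : ℤ) ∣ 2 * W.Δ) (hram : Ev K l)
    (n : ℤ) : ¬ (l : ℤ) ∣ n ^ 3 + W.b₂ * n ^ 2 + 8 * W.b₄ * n + 16 * W.b₆ := by
  intro hn
  haveI : IsGalois ℚ (AlgebraicClosure K) := IsGalois.mk
  obtain ⟨g, hg1, hg2, hg3, hg4, hg5, hg6⟩ := exists_class K hD hnr hl hlD hn hram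
  apply hg6
  have hcocQ : IsCoc (F := ℚ) (sh W) g := ⟨hg1, hg2⟩
  have hcoc : IsCoc (F := K) (sh W) (fun σ : AlgebraicClosure K ≃ₐ[K] AlgebraicClosure K =>
      g (σ.restrictScalars ℚ)) := by
    refine ⟨?_, fun σ τ => hg2 (σ.restrictScalars ℚ) (τ.restrictScalars ℚ)⟩
    exact hg1.comp_continuous cont_rs
  have hloc : ∀ (L : Type) [Field L] [Algebra K L] [Algebra ℚ L] [IsScalarTower ℚ K L],
      LocTriv (F := ℚ) (Ω := AlgebraicClosure K) (sh W) L (AlgebraicClosure L) g →
      LocTriv (F := K) (Ω := AlgebraicClosure K) (sh W) L (AlgebraicClosure L)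
        (fun σ : AlgebraicClosure K ≃ₐ[K] AlgebraicClosure K => g (σ.restrictScalars ℚ)) := by
    intro L _ _ _ _ h
    let ι : AlgebraicClosure K →ₐ[K] AlgebraicClosure L := IsAlgClosed.lift
    obtain ⟨P, hP⟩ := LocTriv.of_any (sh W) hcocQ h (ι.restrictScalars ℚ)
    exact ⟨ι, P, fun τ σ hτ => hP τ (σ.restrictScalars ℚ) hτ⟩
  exact hS _ hcoc (fun σ => hg3 _) (fun v => hloc _ (hg4 v)) (fun v => hloc _ (hg5 v))

end main

end Pool.Agent.R425.G
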