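import Pool.Agent.R425.G.Cl5

/-!
# From a Galois extension to the base field
-/

set_option autoImplicit false
set_option linter.all false

open NumberField IsDedekindDomain WithZero WeierstrassCurve WeierstrassCurve.Affine
open scoped NNReal Classical

namespace Pool.Agent.R425.G

open Pool.Agent.TH115.GD
open Pool.Agent.Y702.G (sh base pts)
open Pool.Agent.Y355.G (trE trE_inj trE_surj trE_act V_roots sh_disc isSh')

section abs

variable {V : WeierstrassCurve ℚ} {F Ω M Ω2 : Type} [Field F] [Field Ω] [Field M] [Field Ω2]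
  [Algebra ℚ F] [Algebra F Ω] [Algebra ℚ Ω] [IsScalarTower ℚ F Ω] [Algebra ℚ M] [Algebra M Ω2]
  [Algebra ℚ Ω2] [IsScalarTower ℚ M Ω2] [Algebra F M] [Algebra F Ω2] [IsScalarTower F M Ω2]
  [IsScalarTower ℚ F Ω2] [IsGalois F Ω] [IsGalois M Ω2]

section infl

variable [IsSepClosed Ω2] {a b c : Ω2}

/-- A cocycle over `F` which is trivial over `M` is trivial. -/
theorem infl (hN : Preserves F M Ω2) (hC : IsC (V.baseChange Ω2).toAffine a b c)
    (hnr : ∀ x : M, cub V x ≠ 0)
    {g : (Ω2 ≃ₐ[F] Ω2) → Pt V Ω2}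
    (hg : ∀ σ τ, g (σ * τ) = g σ + act V (rs ℚ σ) (g τ)) (hg2 : ∀ σ, g σ + g σ = 0)
    {T : Pt V Ω2} (hT : T + T = 0)
    (hgT : ∀ σ : Ω2 ≃ₐ[M] Ω2,
      g (σ.restrictScalars F) = act V (rs ℚ σ) T - T) (σ : Ω2 ≃ₐ[F] Ω2) :
    g σ = act V (rs ℚ σ) T - T := by
  have haa : ∀ (σ ρ : Ω2 ≃ₐ[F] Ω2) (P : Pt V Ω2),
      act V (rs ℚ (σ * ρ)) P = act V (rs ℚ σ) (act V (rs ℚ ρ) P) := by
    intro σ ρ P
    rw [act_act]
    rfl
  set h : (Ω2 ≃ₐ[F] Ω2) → Pt V Ω2 := fun σ => g σ - (act V (rs ℚ σ) T - T) with hh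
  have hhm : ∀ σ τ, h (σ * τ) = h σ + act V (rs ℚ σ) (h τ) := by
    intro σ τ
    simp only [hh]
    rw [hg, haa, map_sub, map_sub]
    abel
  have hh0 : ∀ τ : Ω2 ≃ₐ[M] Ω2, h (τ.restrictScalars F) = 0 := by
    intro τ
    simp only [hh]
    rw [hgT]
    exact sub_self _
  have hh2 : h σ + h σ = 0 := by
    simp only [hh]
    have h1 : act V (rs ℚ σ) T + act V (rs ℚ σ) T = 0 := (two_act V _ _).2 hT
    have h3 : g σ - (act V (rs ℚ σ) T - T) + (g σ - (act V (rs ℚ σ) T - T)) =
        (g σ + g σ) - ((act V (rs ℚ σ) T + act V (rs ℚ σ) T) - (T + T)) := by abel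
    rw [h3, hg2, h1, hT, sub_zero, sub_zero]
  have hfix : ∀ τ : Ω2 ≃ₐ[M] Ω2, act V (rs ℚ τ) (h σ) = h σ := by
    intro τ
    obtain ⟨τ', hτ'⟩ := exists_conj hN σ τ
    have e1 : (τ.restrictScalars F) * σ = σ * (τ'.restrictScalars F) := by
      apply AlgEquiv.ext
      intro x
      exact (hτ' x).symm
    have e2 := hhm (τ.restrictScalars F) σ
    rw [e1, hhm, hh0, hh0, map_zero, add_zero, zero_add] at e2
    exact e2.symm
  have h0 := no_two hC hnr hh2 hfix
  exact sub_eq_zero.1 h0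

end infl

section bc

/-- the isomorphism of the closures -/
noncomputable def eq' (ε : Ω ≃ₐ[F] Ω2) : Ω →ₐ[ℚ] Ω2 := ε.toAlgHom.restrictScalars ℚ

/-- the cocycle on the absolute Galois group of the other closure -/
noncomputable def cj (V : WeierstrassCurve ℚ) (ε : Ω ≃ₐ[F] Ω2)
    (f : (Ω ≃ₐ[F] Ω) → Pt V Ω) (σ : Ω2 ≃ₐ[F] Ω2) : Pt V Ω2 :=
  act V (eq' ε) (f ((ε.trans σ).trans ε.symm))

variable (ε : Ω ≃ₐ[F] Ω2) {f : (Ω ≃ₐ[F] Ω) → Pt V Ω}

theorem cj_two (hf : ∀ σ, f σ + f σ = 0) (σ : Ω2 ≃ₐ[F] Ω2) : cj V ε f σ + cj V ε f σ = 0 := by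
  unfold cj
  rw [← map_add, hf, map_zero]

theorem cj_mul (hf : IsCoc (F := F) V f) (σ τ : Ω2 ≃ₐ[F] Ω2) :
    cj V ε f (σ * τ) = cj V ε f σ + act V (rs ℚ σ) (cj V ε f τ) := by
  unfold cj
  have e1 : (ε.trans (σ * τ)).trans ε.symm = ((ε.trans σ).trans ε.symm) *
      ((ε.trans τ).trans ε.symm) := by
    apply AlgEquiv.ext
    intro x
    show ε.symm (σ (τ (ε x))) = ε.symm (σ (ε (ε.symm (τ (ε x)))))
    rw [ε.apply_symm_apply]
  rw [e1, hf.2, map_add, act_act, act_act]
  congr 1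
  have e2 : (eq' ε).comp (rs ℚ ((ε.trans σ).trans ε.symm)) = (rs ℚ σ).comp (eq' ε) := by
    apply AlgHom.ext
    intro x
    show ε (ε.symm (σ (ε x))) = σ (ε x)
    rw [ε.apply_symm_apply]
  rw [e2]

/-- local triviality after base change -/
theorem loc_bc (hf : IsCoc (F := F) V f) {L Ω' E Ω'' : Type} [Field L] [Field Ω'] [Algebra L Ω']
    [Algebra ℚ L] [Algebra ℚ Ω'] [Algebra F Ω'] [IsScalarTower ℚ L Ω'] [IsScalarTower ℚ F Ω']
    [Algebra F L] [IsScalarTower F L Ω'] [IsGalois L Ω']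
    [Field E] [Field Ω''] [Algebra E Ω''] [Algebra ℚ E] [Algebra ℚ Ω''] [IsScalarTower ℚ E Ω'']
    [Algebra M Ω''] [IsScalarTower ℚ M Ω''] [Algebra F E] [Algebra F Ω''] [IsScalarTower F E Ω'']
    [IsScalarTower ℚ F Ω''] [IsScalarTower F M Ω''] [IsGalois E Ω''] [IsSepClosed Ω'']
    (j : L →+* E) (hj : ∀ x : F, j (algebraMap F L x) = algebraMap F E x)
    (ι2 : Ω2 →ₐ[M] Ω'')
    (h : LocTriv (F := F) (Ω := Ω) V L Ω' f) :
    LocTriv (F := M) (Ω := Ω2) V E Ω''
      (fun σ : Ω2 ≃ₐ[M] Ω2 => cj V ε f (σ.restrictScalars F)) := by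
  obtain ⟨κ, hκ1, hκ2⟩ := exists_kappa (F := F) (L := L) (Ω' := Ω') (E := E)
    (Ω'' := Ω'') j hj
  obtain ⟨ι, P, hP⟩ := h
  have h1 : LocTriv (F := F) (Ω := Ω) V E Ω'' f := by
    refine ⟨κ.comp ι, act V (κ.restrictScalars ℚ) P, fun τ σ hτ => ?_⟩
    obtain ⟨τ', hτ'⟩ := hκ2 τ
    have h2 : ∀ x, τ' (ι x) = ι (σ x) := by
      intro x
      have h3 : κ (τ' (ι x)) = κ (ι (σ x)) := by
        rw [← hτ']
        exact hτ x
      exact (κ : Ω' →+* Ω'').injective h3
    have h4 := congrArg (act V (κ.restrictScalars ℚ)) (hP τ' σ h2)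
    rw [map_sub, act_act, act_act] at h4
    have e1 : (κ.restrictScalars ℚ).comp (rs ℚ τ') = (rs ℚ τ).comp (κ.restrictScalars ℚ) :=
      AlgHom.ext fun x => (hτ' x).symm
    rw [e1] at h4
    rw [act_act]
    exact h4
  obtain ⟨P', hP'⟩ := LocTriv.of_any V hf h1
    ((ι2.restrictScalars F).comp (ε : Ω →ₐ[F] Ω2))
  refine ⟨ι2, P', fun τ σ hτ => ?_⟩
  have h5 := hP' τ (((ε.trans (σ.restrictScalars F)).trans ε.symm)) (fun x => by
    show τ (ι2 (ε x)) = ι2 (ε (ε.symm (σ (ε x))))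
    rw [ε.apply_symm_apply, hτ])
  refine Eq.trans ?_ h5
  show act V (ι2.restrictScalars ℚ) (act V (eq' ε) _) = _
  rw [act_act]
  rfl

end bc

/-- back to the first closure -/
theorem cj_back (ε : Ω ≃ₐ[F] Ω2) {f : (Ω ≃ₐ[F] Ω) → Pt V Ω} {T : Pt V Ω2} (hT : T + T = 0)
    (h : ∀ σ : Ω2 ≃ₐ[F] Ω2, cj V ε f σ = act V (rs ℚ σ) T - T) :
    ∃ T' : Pt V Ω, T' + T' = 0 ∧ ∀ σ, f σ = act V (rs ℚ σ) T' - T' := by
  refine ⟨act V (ε.symm.toAlgHom.restrictScalars ℚ) T, ?_, fun σ => ?_⟩
  · rw [← map_add, hT, map_zero]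
  · have h4 := h ((ε.symm.trans σ).trans ε)
    have h5 : cj V ε f ((ε.symm.trans σ).trans ε) = act V (eq' ε) (f σ) := by
      unfold cj
      congr 2
      apply AlgEquiv.ext
      intro x
      show ε.symm (ε (σ (ε.symm (ε x)))) = σ x
      rw [ε.symm_apply_apply, ε.symm_apply_apply]
    have h6 : act V (eq' ε) (f σ) = act V (rs ℚ ((ε.symm.trans σ).trans ε)) T - T :=
      h5.symm.trans h4
    apply act_inj V (eq' ε)
    have e3 : (eq' ε).comp (ε.symm.toAlgHom.restrictScalars ℚ) = AlgHom.id ℚ Ω2 := by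
      apply AlgHom.ext
      intro x
      show ε (ε.symm x) = x
      rw [ε.apply_symm_apply]
    have e4 : act V (AlgHom.id ℚ Ω2) T = T := by
      rcases T with _ | ⟨x, y, hxy⟩ <;> rfl
    have e5 : ((eq' ε).comp (rs ℚ σ)).comp (ε.symm.toAlgHom.restrictScalars ℚ) =
        rs ℚ ((ε.symm.trans σ).trans ε) := by
      apply AlgHom.ext
      intro x
      rfl
    rw [h6, map_sub, act_act, act_act, act_act, e5, e3, e4]

/-- The conjugation is continuous. -/
theorem cont_cj (ε : Ω ≃ₐ[F] Ω2) :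
    Continuous (fun σ : Ω2 ≃ₐ[F] Ω2 => ((ε.trans σ).trans ε.symm : Ω ≃ₐ[F] Ω)) := by
  haveI : Algebra.IsIntegral F Ω2 := ⟨fun x => by
    have h1 : _root_.IsIntegral F (ε.symm x) := Algebra.IsIntegral.isIntegral _
    have h2 := h1.map ε.toAlgHom
    have h3 : ε.toAlgHom (ε.symm x) = x := ε.apply_symm_apply x
    rwa [h3] at h2⟩
  let φ : (Ω2 ≃ₐ[F] Ω2) →* (Ω ≃ₐ[F] Ω) :=
    { toFun := fun σ => (ε.trans σ).trans ε.symm
      map_one' := by
        apply AlgEquiv.ext
        intro x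
        show ε.symm (ε x) = x
        rw [ε.symm_apply_apply]
      map_mul' := fun σ τ => by
        apply AlgEquiv.ext
        intro x
        show ε.symm (σ (τ (ε x))) = ε.symm (σ (ε (ε.symm (τ (ε x)))))
        rw [ε.apply_symm_apply] }
  have hc : Continuous φ := by
    apply continuous_of_continuousAt_one
    unfold ContinuousAt
    rw [map_one]
    intro s hs
    obtain ⟨E, hE, hEs⟩ := (krullTopology_mem_nhds_one_iff F Ω s).1 hs
    haveI : Algebra.IsSeparable F E := inferInstance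
    obtain ⟨α, hα⟩ := Field.exists_primitive_element F E
    have ho : (MulAction.stabilizer (Ω2 ≃ₐ[F] Ω2) (ε (α : Ω)) : Set (Ω2 ≃ₐ[F] Ω2)) ∈
        nhds (1 : Ω2 ≃ₐ[F] Ω2) :=
      (stabilizer_isOpen_of_isIntegral (K := F) (ε (α : Ω))).mem_nhds
        (MulAction.stabilizer (Ω2 ≃ₐ[F] Ω2) (ε (α : Ω))).one_mem
    rw [Filter.mem_map]
    refine Filter.mem_of_superset ho fun τ hτ => hEs ?_
    have hτ' : τ (ε (α : Ω)) = ε α := hτ
    show φ τ ∈ E.fixingSubgroup
    rw [IntermediateField.mem_fixingSubgroup_iff]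
    intro x hx
    have key : ((φ τ).toAlgHom.comp E.val) = E.val := by
      refine AlgHom.ext fun y => ?_
      have hy : y ∈ (⊤ : IntermediateField F E) := trivial
      rw [← hα] at hy
      refine IntermediateField.adjoin_induction F
        (p := fun y _ => ((φ τ).toAlgHom.comp E.val) y = E.val y) ?_ ?_ ?_ ?_ ?_ hy
      · intro y hy
        rw [Set.mem_singleton_iff] at hy
        subst hy
        show ε.symm (τ (ε (y : Ω))) = y
        rw [hτ', ε.symm_apply_apply]
      · intro y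
        rw [AlgHom.commutes, AlgHom.commutes]
      · intro x y _ _ hx hy
        rw [map_add, map_add, hx, hy]
      · intro x _ hx
        rw [map_inv₀, map_inv₀, hx]
      · intro x y _ _ hx hy
        rw [map_mul, map_mul, hx, hy]
    exact congrArg (fun ψ : E →ₐ[F] Ω => ψ ⟨x, hx⟩) key
  exact hc

end abs

section down

variable (W : WeierstrassCurve ℤ) (hW : W.Δ ≠ 0)

theorem presF (F K : Type) [Field F] [Field K] [Algebra F K] [Normal F K] (Ω2 : Type) [Field Ω2]
    [Algebra K Ω2] [Algebra F Ω2] [IsScalarTower F K Ω2] : Preserves F K Ω2 := fun τ x =>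
  ⟨τ.restrictNormal K x, (τ.restrictNormal_commutes K x).symm⟩

include hW in
theorem selT_down {F K : Type} [Field F] [NumberField F] [Field K] [NumberField K] [Algebra F K]
    [IsGalois F K] (hnr : ∀ x : K, cub (sh W) x ≠ 0)
    (hjF : ∀ v : HeightOneSpectrum (𝓞 K), ∃ (p : HeightOneSpectrum (𝓞 F))
      (j : p.adicCompletion F →+* v.adicCompletion K),
      ∀ x : F, j (algebraMap F _ x) = algebraMap K _ (algebraMap F K x))
    (hjI : ∀ v : InfinitePlace K, ∃ (u : InfinitePlace F)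
      (j : u.Completion →+* v.Completion),
      ∀ x : F, j (algebraMap F _ x) = algebraMap K _ (algebraMap F K x))
    (hS : SelT (sh W) K) : SelT (sh W) F := by
  intro f hf1 hf2 hf3 hf4
  haveI : IsScalarTower ℚ F (AlgebraicClosure K) := IsScalarTower.of_algebraMap_eq fun x => by simp
  haveI : IsGalois F (AlgebraicClosure F) := by
    haveI : CharZero F := inferInstance
    infer_instance
  haveI : IsGalois K (AlgebraicClosure K) := by
    haveI : CharZero K := inferInstance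
    infer_instance
  haveI : IsGalois F (AlgebraicClosure K) := by
    haveI : Algebra.IsAlgebraic F (AlgebraicClosure K) := Algebra.IsAlgebraic.trans F K _
    haveI : IsAlgClosure F (AlgebraicClosure K) := ⟨inferInstance, inferInstance⟩
    exact IsAlgClosure.isGalois F _
  let ε : AlgebraicClosure F ≃ₐ[F] AlgebraicClosure K := by
    haveI : Algebra.IsAlgebraic F (AlgebraicClosure K) := Algebra.IsAlgebraic.trans F K _
    haveI : IsAlgClosure F (AlgebraicClosure K) := ⟨inferInstance, inferInstance⟩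
    exact IsAlgClosure.equiv F (AlgebraicClosure F) (AlgebraicClosure K)
  obtain ⟨a, b, c, hC⟩ := V_roots (V := sh W) rfl rfl (sh_disc hW) (AlgebraicClosure K)
  have hcoc : IsCoc (F := K) (sh W) (fun σ : AlgebraicClosure K ≃ₐ[K] AlgebraicClosure K =>
      cj (sh W) ε f (σ.restrictScalars F)) := by
    refine ⟨?_, fun σ τ => cj_mul ε hf1 (σ.restrictScalars F) (τ.restrictScalars F)⟩
    have h2 : IsLocallyConstant (fun σ : AlgebraicClosure K ≃ₐ[F] AlgebraicClosure K =>
        cj (sh W) ε f σ) := (hf1.1.comp_continuous (cont_cj ε)).comp (act (sh W) (eq' ε))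
    exact h2.comp_continuous cont_rs
  obtain ⟨T, hT, hT2⟩ := hS _ hcoc (fun σ => cj_two ε hf2 _)
    (fun v => by
      obtain ⟨p, j, hj⟩ := hjF v
      haveI : IsGalois (p.adicCompletion F) (AlgebraicClosure (p.adicCompletion F)) := by
        haveI : CharZero (p.adicCompletion F) := algebraRat.charZero _
        infer_instance
      haveI : IsGalois (v.adicCompletion K) (AlgebraicClosure (v.adicCompletion K)) := by
        haveI : CharZero (v.adicCompletion K) := algebraRat.charZero _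
        infer_instance
      letI : Algebra F (v.adicCompletion K) :=
        ((algebraMap K (v.adicCompletion K)).comp (algebraMap F K)).toAlgebra
      haveI : IsScalarTower F K (v.adicCompletion K) := IsScalarTower.of_algebraMap_eq fun x => rfl
      haveI : IsScalarTower F K (AlgebraicClosure (v.adicCompletion K)) :=
        IsScalarTower.of_algebraMap_eq fun x => rfl
      exact loc_bc ε hf1 j hj IsAlgClosed.lift (hf3 p))
    (fun v => by
      obtain ⟨u, j, hj⟩ := hjI v
      haveI : IsGalois (u.Completion) (AlgebraicClosure (u.Completion)) := by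
        haveI : CharZero (u.Completion) := algebraRat.charZero _
        infer_instance
      haveI : IsGalois (v.Completion) (AlgebraicClosure (v.Completion)) := by
        haveI : CharZero (v.Completion) := algebraRat.charZero _
        infer_instance
      letI : Algebra F (v.Completion) :=
        ((algebraMap K (v.Completion)).comp (algebraMap F K)).toAlgebra
      haveI : IsScalarTower F K (v.Completion) := IsScalarTower.of_algebraMap_eq fun x => rfl
      haveI : IsScalarTower F K (AlgebraicClosure (v.Completion)) :=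
        IsScalarTower.of_algebraMap_eq fun x => rfl
      exact loc_bc ε hf1 j hj IsAlgClosed.lift (hf4 u))
  have h3 := infl (presF F K (AlgebraicClosure K)) hC hnr (g := fun σ => cj (sh W) ε f σ)
    (fun σ τ => cj_mul ε hf1 σ τ) (fun σ => cj_two ε hf2 σ) hT hT2
  exact cj_back ε hT h3

end down

end Pool.Agent.R425.G
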