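import Pool.Agent.R425.G.Cl6

/-!
# The groups over the rational numbers
-/

set_option autoImplicit false
set_option linter.all false

open NumberField IsDedekindDomain WithZero WeierstrassCurve WeierstrassCurve.Affine
open scoped NNReal Classical

namespace Pool.Agent.R425.G

open Pool.Agent.TH115.GD
open Pool.Agent.Y702.G (sh base pts)
open Pool.Agent.Y355.G (trE trE_inj trE_surj trE_act V_roots sh_disc isSh')

variable (W : WeierstrassCurve ℤ) (hW : W.Δ ≠ 0)

/-- a homomorphism between the completions at the infinite places -/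
theorem exists_jinf {K : Type} [Field K] [NumberField K] (v : InfinitePlace K)
    (u : InfinitePlace ℚ) : Nonempty (u.Completion →+* v.Completion) := by
  have hu : u.IsReal := by
    rw [Subsingleton.elim u Rat.infinitePlace]
    exact Rat.isReal_infinitePlace
  let e1 : u.Completion ≃+* ℝ := InfinitePlace.Completion.ringEquivRealOfIsReal hu
  rcases v.isReal_or_isComplex with hv | hv
  · exact ⟨((InfinitePlace.Completion.ringEquivRealOfIsReal hv).symm : ℝ →+* v.Completion).comp
      (e1 : u.Completion →+* ℝ)⟩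
  · exact ⟨((InfinitePlace.Completion.ringEquivComplexOfIsComplex hv).symm :
      ℂ →+* v.Completion).comp (Complex.ofRealHom.comp (e1 : u.Completion →+* ℝ))⟩

include hW in
theorem selT_Q {K : Type} [Field K] [NumberField K] [IsGalois ℚ K]
    (hnr : ∀ x : K, cub (sh W) x ≠ 0) (hS : SelT (sh W) K) : SelT (sh W) ℚ := by
  refine selT_down W hW hnr (fun v => ?_) (fun v => ?_) hS
  · obtain ⟨q, hq, hqv⟩ := exists_prime_mem v
    obtain ⟨p, rfl⟩ := exists_ng hq
    obtain ⟨j⟩ := exists_j v p hqv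
    exact ⟨p, j, fun x => RingHom.congr_fun (Subsingleton.elim
      (j.comp (algebraMap ℚ (p.adicCompletion ℚ)))
      ((algebraMap K (v.adicCompletion K)).comp (algebraMap ℚ K))) x⟩
  · obtain ⟨j⟩ := exists_jinf v Rat.infinitePlace
    exact ⟨Rat.infinitePlace, j, fun x => RingHom.congr_fun (Subsingleton.elim
      (j.comp (algebraMap ℚ (Rat.infinitePlace.Completion)))
      ((algebraMap K (v.Completion)).comp (algebraMap ℚ K))) x⟩

include hW in
/-- no element of order two in the Tate-Shafarevich group -/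
theorem sha_two {K : Type} [Field K] [NumberField K] (hS : SelT (sh W) K)
    (s : Pool.Agent.TH841.NF.D.Sha (base W K)) (hs : 2 • s = 0) : s = 0 := by
  obtain ⟨a, b, c, hC⟩ := V_roots (V := sh W) rfl rfl (sh_disc hW) (AlgebraicClosure K)
  obtain ⟨f, rfl⟩ := QuotientAddGroup.mk_surjective
    (s := (Pool.Agent.TH841.SH.D.cob (base W K)).addSubgroupOf
      (Pool.Agent.TH841.NF.D.shaCoc (base W K))) s
  have h2 : (QuotientAddGroup.mk (2 • f) : (Pool.Agent.TH841.NF.D.shaCoc (base W K)) ⧸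
    (Pool.Agent.TH841.SH.D.cob (base W K)).addSubgroupOf
      (Pool.Agent.TH841.NF.D.shaCoc (base W K))) = 0 := hs
  rw [QuotientAddGroup.eq_zero_iff, AddSubgroup.mem_addSubgroupOf] at h2
  obtain ⟨P, hP⟩ := h2
  have hP' : ∀ σ, f.1 σ + f.1 σ = Pool.Agent.TH841.SH.D.act (base W K) σ.toAlgHom P - P := by
    intro σ
    rw [← hP σ, two_nsmul]
    rfl
  obtain ⟨Q, hQ⟩ := halveC hC (trE W (AlgebraicClosure K) P)
  have nat : ∀ (σ : AlgebraicClosure K ≃ₐ[K] AlgebraicClosure K)
      (R : Pool.Agent.TH841.SH.D.Pt (base W K) (AlgebraicClosure K)),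
      trE W (AlgebraicClosure K) (Pool.Agent.TH841.SH.D.act (base W K) σ.toAlgHom R) =
        act (sh W) (rs ℚ σ) (trE W (AlgebraicClosure K) R) := fun σ R =>
    trE_act W σ.toAlgHom (rs ℚ σ) (fun x => rfl) R
  let g : (AlgebraicClosure K ≃ₐ[K] AlgebraicClosure K) → Pt (sh W) (AlgebraicClosure K) :=
    fun σ => trE W (AlgebraicClosure K) (f.1 σ)
  have hgc : IsCoc (sh W) g := by
    refine ⟨f.2.1.1.comp _, fun σ τ => ?_⟩
    show trE W (AlgebraicClosure K) (f.1 (σ * τ)) = trE W (AlgebraicClosure K) (f.1 σ) +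
      act (sh W) (rs ℚ σ) (trE W (AlgebraicClosure K) (f.1 τ))
    rw [f.2.1.2, map_add, nat]
  have hgloc : ∀ v : HeightOneSpectrum (𝓞 K),
      LocTriv (sh W) (v.adicCompletion K) (AlgebraicClosure (v.adicCompletion K)) g :=
    fun v => loc_from W (v.adicCompletion K) (f.2.2.1 v)
  have hgloc' : ∀ v : InfinitePlace K,
      LocTriv (sh W) v.Completion (AlgebraicClosure v.Completion) g :=
    fun v => loc_from W v.Completion (f.2.2.2 v)
  have hg2 : ∀ σ, g σ + g σ = act (sh W) (rs ℚ σ) (trE W (AlgebraicClosure K) P) -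
      trE W (AlgebraicClosure K) P := by
    intro σ
    show trE W (AlgebraicClosure K) (f.1 σ) + trE W (AlgebraicClosure K) (f.1 σ) = _
    rw [← map_add, hP', map_sub, nat]
  obtain ⟨T, hT, h3⟩ := hS (fun σ => g σ - (act (sh W) (rs ℚ σ) Q - Q))
    (hgc.sub (sh W) (cob_isCoc (sh W) Q)) (fun σ => by
      have hQ' : Q + Q = trE W (AlgebraicClosure K) P := hQ
      have e2 : (act (sh W) (rs ℚ σ) Q - Q) + (act (sh W) (rs ℚ σ) Q - Q) =
          act (sh W) (rs ℚ σ) (trE W (AlgebraicClosure K) P) - trE W (AlgebraicClosure K) P := by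
        rw [sub_add_sub_comm, ← map_add]
        exact congrArg (fun z => act (sh W) (rs ℚ σ) z - z) hQ'
      have e3 := hg2 σ
      show (g σ - (act (sh W) (rs ℚ σ) Q - Q)) + (g σ - (act (sh W) (rs ℚ σ) Q - Q)) = 0
      rw [sub_add_sub_comm, e2, e3, sub_self])
    (fun v => LocTriv.sub (sh W) (hgloc v) Q) (fun v => LocTriv.sub (sh W) (hgloc' v) Q)
  obtain ⟨R, hR⟩ := trE_surj W (K := K) (AlgebraicClosure K) (Q + T)
  have h4 : f ∈ (Pool.Agent.TH841.SH.D.cob (base W K)).addSubgroupOf
      (Pool.Agent.TH841.NF.D.shaCoc (base W K)) := by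
    rw [AddSubgroup.mem_addSubgroupOf]
    refine ⟨R, fun σ => ?_⟩
    apply trE_inj W (K := K) (AlgebraicClosure K)
    rw [map_sub, nat, hR, map_add]
    have h5 := h3 σ
    have h6 : g σ = (act (sh W) (rs ℚ σ) T - T) + (act (sh W) (rs ℚ σ) Q - Q) := by
      rw [← h5]; abel
    show g σ = _
    rw [h6]
    abel
  exact (QuotientAddGroup.eq_zero_iff f).2 h4

/-- the points over the rational numbers -/
theorem fin_Q {K : Type} [Field K] [NumberField K] (h : Finite (base W K).toAffine.Point) :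
    Finite (base W ℚ).toAffine.Point := by
  let e : (base W K).toAffine.Point ≃ Pt (sh W) K := Equiv.ofBijective (Y355.G.tr (isSh' W K))
    ⟨fun P Q h => Y355.G.tr_inj _ h, fun Q => Y355.G.tr_surj _ Q⟩
  let e' : (base W ℚ).toAffine.Point ≃ Pt (sh W) ℚ := Equiv.ofBijective (Y355.G.tr (isSh' W ℚ))
    ⟨fun P Q h => Y355.G.tr_inj _ h, fun Q => Y355.G.tr_surj _ Q⟩
  haveI : Finite (Pt (sh W) K) := Finite.of_equiv _ e
  haveI : Finite (Pt (sh W) ℚ) :=
    Finite.of_injective (act (sh W) (Algebra.ofId ℚ K)) (act_inj (sh W) (Algebra.ofId ℚ K))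
  exact Finite.of_equiv _ e'.symm

end Pool.Agent.R425.G
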