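import Pool.Agent.R425.G.Ft

/-!
# The multiplicative group of a local field modulo squares
-/

set_option autoImplicit false
set_option linter.all false

open scoped NNReal Classical

namespace Pool.Agent.R425.G

section

variable {L : Type} [Field L] {u : Valuation L ℝ≥0} {p : ℕ}

theorem u_int (u : Valuation L ℝ≥0) (n : ℤ) : u (n : L) ≤ 1 := by
  have h : (n : L) ∈ u.valuationSubring := intCast_mem _ n
  exact h

theorem LD.unit_of (h : LD u p) {n : ℤ} (hn : ¬ (p : ℤ) ∣ n) : u (n : L) = 1 := by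
  apply le_antisymm (u_int u n)
  by_contra hcon
  rw [not_le] at hcon
  have hp : Prime (p : ℤ) := Nat.prime_iff_prime_int.1 h.pr
  have hco : IsCoprime (p : ℤ) n := (Prime.coprime_iff_not_dvd hp).2 hn
  obtain ⟨a, b, hab⟩ := hco
  have h1 : (1 : L) = a * p + b * n := by
    have := congrArg (fun z : ℤ => (z : L)) hab
    push_cast at this
    exact this.symm
  have h2 : u (1 : L) < 1 := by
    rw [h1]
    refine (Valuation.map_add _ _ _).trans_lt (max_lt ?_ ?_)
    · rw [map_mul, mul_comm]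
      exact mul_lt_one_of_lt_of_le h.lt (u_int u a)
    · rw [map_mul, mul_comm]
      exact mul_lt_one_of_lt_of_le hcon (u_int u b)
  rw [map_one] at h2
  exact lt_irrefl _ h2

theorem LD.dvd_of (h : LD u p) : ∀ (k : ℕ) {n : ℤ}, u (n : L) ≤ u (p : L) ^ k → (p : ℤ) ^ k ∣ n := by
  intro k
  induction k with
  | zero => intro n _; simp
  | succ k ih =>
    intro n hn
    have h1 : (p : ℤ) ∣ n := by
      by_contra hcon
      rw [h.unit_of hcon] at hn
      exact absurd hn (not_le.2 (pow_lt_one₀ zero_le h.lt (by omega)))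
    obtain ⟨m, rfl⟩ := h1
    rw [pow_succ']
    apply mul_dvd_mul_left
    apply ih
    rw [Int.cast_mul, map_mul, pow_succ', Int.cast_natCast] at hn
    exact le_of_mul_le_mul_left hn (pos_of_ne_zero h.ne)

theorem LD.zpow_inj (h : LD u p) {n m : ℤ} (hnm : u (p : L) ^ n = u (p : L) ^ m) : n = m :=
  (zpow_right_injective₀ (pos_of_ne_zero h.ne) h.lt.ne) hnm

/-- the number of the classes -/
theorem card_le_idx {T : Type} [Fintype T] (x : T → Lˣ) (hfin : (Sqr Lˣ).index ≠ 0)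
    (h : ∀ s t, (∃ y : Lˣ, x s = y ^ 2 * x t) → s = t) : Fintype.card T ≤ (Sqr Lˣ).index := by
  haveI : (Sqr Lˣ).FiniteIndex := ⟨hfin⟩
  haveI : Finite (Lˣ ⧸ Sqr Lˣ) := Subgroup.finite_quotient_of_finiteIndex
  rw [← Nat.card_eq_fintype_card]
  refine Nat.card_le_card_of_injective (fun s => (QuotientGroup.mk (x s) : Lˣ ⧸ Sqr Lˣ)) ?_
  intro s t hst
  apply h
  have h1 := QuotientGroup.eq.1 hst
  obtain ⟨y, hy⟩ := h1
  refine ⟨y⁻¹, ?_⟩
  have hy' : y ^ 2 = (x s)⁻¹ * x t := hy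
  rw [inv_pow, hy', mul_inv, inv_inv, mul_assoc, inv_mul_cancel, mul_one]

theorem approx_int (h : LD u p) (k : ℕ) {y : L} (hy : u y = 1) : ∃ a : ℤ, u (y - a) ≤ u (p : L) ^ k := by
  obtain ⟨a, -, ha⟩ := h.approx k y hy.le
  exact ⟨a, by exact_mod_cast ha⟩

theorem cq (h : LD u p) (hfin : (Sqr Lˣ).index ≠ 0) :
    (if p = 2 then 8 else 4) ≤ (Sqr Lˣ).index := by
  have hp0 := h.p0
  split_ifs with hp
  · subst hp
    have h20 : (2 : L) ≠ 0 := by exact_mod_cast hp0
    have h50 : (5 : L) ≠ 0 := by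
      have h1 := h.unit_of (n := 5) (by norm_num)
      intro h0
      push_cast at h1
      rw [h0, map_zero] at h1
      exact zero_ne_one h1
    set x : Fin 2 × Fin 2 × Fin 2 → Lˣ := fun t =>
      Units.mk0 ((-1) ^ (t.1 : ℕ) * 2 ^ (t.2.1 : ℕ) * 5 ^ (t.2.2 : ℕ))
        (mul_ne_zero (mul_ne_zero (pow_ne_zero _ (by norm_num)) (pow_ne_zero _ h20))
          (pow_ne_zero _ h50)) with hx
    have hc : Fintype.card (Fin 2 × Fin 2 × Fin 2) = 8 := by simp
    rw [← hc]
    refine card_le_idx x hfin ?_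
    rintro ⟨i, j, k⟩ ⟨i', j', k'⟩ ⟨y, hy⟩
    have hy1 : (-1 : L) ^ (i : ℕ) * 2 ^ (j : ℕ) * 5 ^ (k : ℕ) =
        (y : L) ^ 2 * ((-1 : L) ^ (i' : ℕ) * 2 ^ (j' : ℕ) * 5 ^ (k' : ℕ)) := by
      have := congrArg Units.val hy
      exact this
    have u1 : ∀ n : ℕ, u ((-1 : L) ^ n) = 1 := fun n => by
      rw [map_pow, Valuation.map_neg, map_one, one_pow]
    have u5 : ∀ n : ℕ, u ((5 : L) ^ n) = 1 := fun n => by
      have h1 := h.unit_of (n := 5) (by norm_num)
      push_cast at h1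
      rw [map_pow, h1, one_pow]
    obtain ⟨m, hm⟩ := h.disc y y.ne_zero
    have hval := congrArg u hy1
    rw [map_mul, map_mul, map_mul, map_mul, map_mul, u1, u5, u1, u5, map_pow, map_pow, map_pow,
      one_mul, mul_one, one_mul, mul_one, hm] at hval
    have e2 : u (2 : L) = u ((2 : ℕ) : L) := by norm_num
    rw [e2, ← zpow_natCast, ← zpow_natCast, ← zpow_natCast, ← zpow_mul,
      ← zpow_add₀ h.ne] at hval
    have hjj := h.zpow_inj hval
    have hj : j = j' := by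
      have h1 := j.2
      have h2 := j'.2
      apply Fin.ext
      push_cast at hjj
      omega
    subst hj
    have hm0 : m = 0 := by push_cast at hjj; omega
    rw [hm0, zpow_zero] at hm
    have hy2 : (-1 : L) ^ (i : ℕ) * 5 ^ (k : ℕ) = (y : L) ^ 2 * ((-1 : L) ^ (i' : ℕ) *
        5 ^ (k' : ℕ)) := by
      apply mul_right_cancel₀ (pow_ne_zero (j : ℕ) h20)
      linear_combination hy1
    obtain ⟨a, ha⟩ := approx_int h 3 hm
    have h8 : ((2 : ℕ) : ℤ) ^ 3 ∣ ((-1) ^ (i : ℕ) * 5 ^ (k : ℕ) - a ^ 2 * ((-1) ^ (i' : ℕ) *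
        5 ^ (k' : ℕ)) : ℤ) := by
      apply h.dvd_of 3
      push_cast
      have e : (-1 : L) ^ (i : ℕ) * 5 ^ (k : ℕ) - (a : L) ^ 2 * ((-1 : L) ^ (i' : ℕ) *
        5 ^ (k' : ℕ)) = (y - a) * ((y + a) * ((-1 : L) ^ (i' : ℕ) * 5 ^ (k' : ℕ))) := by
        rw [hy2]; ring
      rw [e, map_mul]
      have e3 : u ((y + a : L) * ((-1 : L) ^ (i' : ℕ) * 5 ^ (k' : ℕ))) ≤ 1 := by
        rw [map_mul, map_mul, u1, u5, mul_one, mul_one]
        exact u_add hm.le (u_int u a)
      refine (mul_le_of_le_one_right' e3).trans ?_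
      exact_mod_cast ha
    have haodd : ¬ (2 : ℤ) ∣ a := by
      intro h2
      obtain ⟨b, rfl⟩ := h2
      have h3 : u ((y : L)) < 1 := by
        have e : (y : L) = (y - ((2 * b : ℤ) : L)) + ((2 : ℕ) : L) * (b : L) := by push_cast; ring
        rw [e]
        refine (Valuation.map_add _ _ _).trans_lt (max_lt ?_ ?_)
        · exact ha.trans_lt (pow_lt_one₀ zero_le h.lt (by norm_num))
        · rw [map_mul]
          exact mul_lt_one_of_lt_of_le h.lt (u_int u b)
      rw [hm] at h3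
      exact lt_irrefl _ h3
    have ha8 : (8 : ℤ) ∣ a ^ 2 - 1 := by
      have h1 : a % 8 = 1 ∨ a % 8 = 3 ∨ a % 8 = 5 ∨ a % 8 = 7 := by omega
      rw [Int.dvd_iff_emod_eq_zero, Int.sub_emod, pow_two, Int.mul_emod]
      rcases h1 with h1 | h1 | h1 | h1 <;> rw [h1] <;> norm_num
    have h9 : (8 : ℤ) ∣ (-1) ^ (i : ℕ) * 5 ^ (k : ℕ) - (-1) ^ (i' : ℕ) * 5 ^ (k' : ℕ) := by
      have e : ((-1) ^ (i : ℕ) * 5 ^ (k : ℕ) - (-1) ^ (i' : ℕ) * 5 ^ (k' : ℕ) : ℤ) =
        ((-1) ^ (i : ℕ) * 5 ^ (k : ℕ) - a ^ 2 * ((-1) ^ (i' : ℕ) * 5 ^ (k' : ℕ))) +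
        (a ^ 2 - 1) * ((-1) ^ (i' : ℕ) * 5 ^ (k' : ℕ)) := by ring
      rw [e]
      refine dvd_add ?_ (Dvd.dvd.mul_right ha8 _)
      exact_mod_cast h8
    have hik : i = i' ∧ k = k' := by
      clear_value x
      clear hx hy hy1 hval hjj hy2 h8
      fin_cases i <;> fin_cases i' <;> fin_cases k <;> fin_cases k' <;> simp at h9 ⊢ <;> omega
    rw [hik.1, hik.2]
  · obtain ⟨c, hc⟩ : ∃ c : ℤ, ∀ a : ℤ, ¬ (p : ℤ) ∣ c - a ^ 2 := by
      haveI : Fact p.Prime := ⟨h.pr⟩
      obtain ⟨c, hc⟩ := FiniteField.exists_nonsquare (F := ZMod p) (by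
        rw [ZMod.ringChar_zmod_n]; exact hp)
      refine ⟨(c.val : ℤ), fun a ha => hc ⟨(a : ZMod p), ?_⟩⟩
      have := (ZMod.intCast_zmod_eq_zero_iff_dvd _ p).2 ha
      push_cast at this
      rw [ZMod.natCast_val, ZMod.cast_id'] at this
      simp only [id] at this
      linear_combination this
    have hpc : ¬ (p : ℤ) ∣ c := fun hd => hc 0 (by simpa using hd)
    have huc := h.unit_of hpc
    have hc0 : (c : L) ≠ 0 := by
      intro h0
      rw [h0, map_zero] at huc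
      exact zero_ne_one huc
    set x : Fin 2 × Fin 2 → Lˣ := fun t =>
      Units.mk0 ((p : L) ^ (t.1 : ℕ) * (c : L) ^ (t.2 : ℕ))
        (mul_ne_zero (pow_ne_zero _ hp0) (pow_ne_zero _ hc0)) with hx
    have hcard : Fintype.card (Fin 2 × Fin 2) = 4 := by simp
    rw [← hcard]
    refine card_le_idx x hfin ?_
    rintro ⟨j, k⟩ ⟨j', k'⟩ ⟨y, hy⟩
    have hy1 : (p : L) ^ (j : ℕ) * (c : L) ^ (k : ℕ) =
        (y : L) ^ 2 * ((p : L) ^ (j' : ℕ) * (c : L) ^ (k' : ℕ)) := by
      have := congrArg Units.val hy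
      exact this
    obtain ⟨m, hm⟩ := h.disc y y.ne_zero
    have hval := congrArg u hy1
    rw [map_mul, map_mul, map_mul, map_pow, map_pow, map_pow, map_pow, map_pow, huc, one_pow,
      one_pow, mul_one, mul_one, hm] at hval
    rw [← zpow_natCast, ← zpow_natCast, ← zpow_natCast, ← zpow_mul,
      ← zpow_add₀ h.ne] at hval
    have hjj := h.zpow_inj hval
    have hj : j = j' := by
      have h1 := j.2
      have h2 := j'.2
      apply Fin.ext
      push_cast at hjj
      omega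
    subst hj
    have hm0 : m = 0 := by push_cast at hjj; omega
    rw [hm0, zpow_zero] at hm
    have hy2 : (c : L) ^ (k : ℕ) = (y : L) ^ 2 * (c : L) ^ (k' : ℕ) := by
      apply mul_left_cancel₀ (pow_ne_zero (j : ℕ) hp0)
      linear_combination hy1
    have key : ∀ z : L, u z = 1 → (c : L) = z ^ 2 → False := by
      intro z hz hcz
      obtain ⟨a, ha⟩ := approx_int h 1 hz
      apply hc a
      have := h.dvd_of 1 (n := c - a ^ 2) (by
        push_cast
        rw [hcz]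
        have e : z ^ 2 - (a : L) ^ 2 = (z - a) * (z + a) := by ring
        rw [e, map_mul]
        exact (mul_le_of_le_one_right' (u_add hz.le (u_int u a))).trans ha)
      rwa [pow_one] at this
    have hk : k = k' := by
      by_contra hne
      have hk1 := k.2
      have hk2 := k'.2
      have hne' : (k : ℕ) ≠ k' := fun h => hne (Fin.ext h)
      rcases (show ((k : ℕ) = 0 ∧ (k' : ℕ) = 1) ∨ ((k : ℕ) = 1 ∧ (k' : ℕ) = 0) by omega) with
        ⟨h1, h2⟩ | ⟨h1, h2⟩
      · rw [h1, h2, pow_zero, pow_one] at hy2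
        refine key ((y : L)⁻¹) (by rw [map_inv₀, hm, inv_one]) ?_
        have hy0 := y.ne_zero
        rw [inv_pow]
        apply eq_inv_of_mul_eq_one_left
        linear_combination -hy2
      · rw [h1, h2, pow_zero, pow_one, mul_one] at hy2
        exact key y hm hy2
    rw [hk]

end

end Pool.Agent.R425.G
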