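import Pool.Agent.R425.Av
import Pool.Agent.R425.G.Ce
import Pool.Agent.R425.G.Cq
import Mathlib.NumberTheory.Padics.HeightOneSpectrum

/-!
# The local data at the places of the rational numbers
-/

set_option autoImplicit false
set_option linter.all false

open NumberField IsDedekindDomain WithZero
open scoped NNReal Classical

namespace Pool.Agent.R425.G

section

variable (v : HeightOneSpectrum (𝓞 ℚ))

/-- the prime number -/
noncomputable def ng : ℕ := Rat.HeightOneSpectrum.natGenerator v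

theorem ng_prime : (ng v).Prime := Rat.HeightOneSpectrum.prime_natGenerator v

theorem int_of (a : 𝓞 ℚ) : ∃ m : ℤ, a = (m : 𝓞 ℚ) := by
  refine ⟨Rat.IsIntegralClosure.intEquiv (𝓞 ℚ) a, ?_⟩
  apply (Rat.IsIntegralClosure.intEquiv (𝓞 ℚ)).injective
  rw [map_intCast]
  rfl

theorem mem_iff (m : ℤ) : (m : 𝓞 ℚ) ∈ v.asIdeal ↔ (ng v : ℤ) ∣ m := by
  rw [← Ideal.mem_span_singleton, ng, Rat.HeightOneSpectrum.span_natGenerator,
    ← Ideal.apply_mem_of_equiv_iff (f := Rat.IsIntegralClosure.intEquiv (𝓞 ℚ)), map_intCast]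
  rfl

theorem ng_span : v.asIdeal = Ideal.span {((ng v : ℕ) : 𝓞 ℚ)} := by
  ext a
  obtain ⟨m, rfl⟩ := int_of a
  rw [mem_iff, Ideal.mem_span_singleton]
  constructor
  · rintro ⟨k, rfl⟩
    exact ⟨(k : 𝓞 ℚ), by push_cast; rfl⟩
  · rintro ⟨b, hb⟩
    obtain ⟨k, rfl⟩ := int_of b
    refine ⟨k, ?_⟩
    have : (m : 𝓞 ℚ) = ((ng v * k : ℤ) : 𝓞 ℚ) := by rw [hb]; push_cast; rfl
    exact_mod_cast this

theorem ng_val : v.valuation ℚ ((ng v : ℕ) : ℚ) = exp (-1 : ℤ) := by
  have h0 : ((ng v : ℕ) : 𝓞 ℚ) ≠ 0 := by exact_mod_cast (ng_prime v).ne_zero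
  have h1 := v.intValuation_singleton h0 (ng_span v)
  rw [← HeightOneSpectrum.valuation_of_algebraMap (K := ℚ)] at h1
  have e : algebraMap (𝓞 ℚ) ℚ ((ng v : ℕ) : 𝓞 ℚ) = ((ng v : ℕ) : ℚ) := map_natCast _ _
  rw [← e]
  exact h1

/-- the local data at the places of the rational numbers -/
theorem exists_ld : ∃ w : Valuation (AlgebraicClosure (v.adicCompletion ℚ)) ℝ≥0,
    (∀ (σ : AlgebraicClosure (v.adicCompletion ℚ) ≃ₐ[v.adicCompletion ℚ]
        AlgebraicClosure (v.adicCompletion ℚ)) (x : AlgebraicClosure (v.adicCompletion ℚ)),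
          w (σ x) = w x) ∧
    LD (w.comap (algebraMap (v.adicCompletion ℚ) (AlgebraicClosure (v.adicCompletion ℚ)))) (ng v) ∧
    ∀ x : ℚ, w (algebraMap ℚ (AlgebraicClosure (v.adicCompletion ℚ)) x) = 1 →
      v.valuation ℚ x = 1 := by
  have hval : ∀ y : ℚ, Valued.v (algebraMap ℚ (v.adicCompletion ℚ) y) = v.valuation ℚ y := by
    intro y
    rw [HeightOneSpectrum.algebraMap_adicCompletion]
    exact HeightOneSpectrum.valuedAdicCompletion_eq_valuation' v y
  have hq0 : Valued.v ((ng v : ℕ) : v.adicCompletion ℚ) = exp (-1 : ℤ) := by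
    have : algebraMap ℚ (v.adicCompletion ℚ) ((ng v : ℕ) : ℚ) = ((ng v : ℕ) : v.adicCompletion ℚ) :=
      map_natCast _ _
    rw [← this, hval, ng_val]
  obtain ⟨w, hσ, hmono, hint, hlt, happ⟩ := Pool.Agent.R425.exists_data v
  have hthird : ∀ x : ℚ, w (algebraMap (v.adicCompletion ℚ) (AlgebraicClosure (v.adicCompletion ℚ))
      (algebraMap ℚ (v.adicCompletion ℚ) x)) = 1 → v.valuation ℚ x = 1 := by
    intro x hx
    have e1 : w (algebraMap (v.adicCompletion ℚ) (AlgebraicClosure (v.adicCompletion ℚ)) 1) = 1 := by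
      rw [map_one, map_one]
    have h1 : Valued.v (algebraMap ℚ (v.adicCompletion ℚ) x) = Valued.v (1 : v.adicCompletion ℚ) :=
      le_antisymm ((hmono _ _).1 (by rw [hx, e1])) ((hmono _ _).1 (by rw [hx, e1]))
    rw [hval, map_one] at h1
    exact h1
  have hfourth : ∀ x : ℚ, w (algebraMap ℚ (AlgebraicClosure (v.adicCompletion ℚ)) x) = 1 →
      v.valuation ℚ x = 1 := fun x hx => hthird x (by
    rw [← IsScalarTower.algebraMap_apply ℚ (v.adicCompletion ℚ)]
    exact hx)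
  haveI i0 : CharZero (v.adicCompletion ℚ) := algebraRat.charZero _
  haveI : IsGalois (v.adicCompletion ℚ) (AlgebraicClosure (v.adicCompletion ℚ)) := inferInstance
  haveI : CharZero (AlgebraicClosure (v.adicCompletion ℚ)) := algebraRat.charZero _
  set L := v.adicCompletion ℚ with hL
  set Ω' := AlgebraicClosure (v.adicCompletion ℚ) with hΩ'
  refine ⟨w, hσ, ⟨ng_prime v, ?_, ?_, ?_, ?_, ?_⟩, hfourth⟩
  · have h1 := (hlt ((ng v : ℕ) : 𝓞 ℚ)).2 (by
      rw [ng_span v]; exact Ideal.mem_span_singleton_self _)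
    rw [Valuation.comap_apply]
    simpa using h1
  · rw [Valuation.comap_apply, map_natCast, Valuation.ne_zero_iff]
    exact_mod_cast (ng_prime v).ne_zero
  · intro x hx
    have hx0 : Valued.v x ≠ 0 := (Valuation.ne_zero_iff _).2 hx
    obtain ⟨k, hk⟩ : ∃ k : ℤ, Valued.v x = exp k := ⟨log (Valued.v x), (exp_log hx0).symm⟩
    refine ⟨-k, ?_⟩
    have hq : Valued.v ((ng v : ℕ) : L) = exp (-1 : ℤ) := by
      exact hq0
    have h1 : Valued.v x = Valued.v (((ng v : ℕ) : L) ^ (-k)) := by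
      rw [map_zpow₀, hq, hk, ← exp_zsmul]
      simp
    have h2 : w (algebraMap L Ω' x) = w (algebraMap L Ω' (((ng v : ℕ) : L) ^ (-k))) :=
      le_antisymm ((hmono _ _).2 h1.le) ((hmono _ _).2 h1.ge)
    rw [Valuation.comap_apply, Valuation.comap_apply, h2, map_zpow₀, map_zpow₀]
  · intro x hx
    rw [Valuation.comap_apply] at hx
    obtain ⟨a, ha⟩ := happ x hx
    obtain ⟨m, rfl⟩ := int_of a
    have hq0 : ((ng v : ℕ) : ℤ) ≠ 0 := by exact_mod_cast (ng_prime v).ne_zero
    obtain ⟨r, hr⟩ : ∃ r : ℕ, (r : ℤ) = m % (ng v : ℤ) :=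
      ⟨(m % (ng v : ℤ)).toNat, Int.toNat_of_nonneg (Int.emod_nonneg _ hq0)⟩
    refine ⟨r, ?_, ?_⟩
    · have := Int.emod_lt_of_pos m (b := (ng v : ℤ)) (by exact_mod_cast (ng_prime v).pos)
      rw [← hr] at this
      exact_mod_cast this
    · rw [Valuation.comap_apply, map_sub, map_natCast]
      have h1 : w ((m : Ω') - (r : Ω')) < 1 := by
        have h2 : (ng v : ℤ) ∣ m - r := by
          rw [hr]
          exact Int.dvd_self_sub_emod
        have h3 := (hlt ((m - r : ℤ) : 𝓞 ℚ)).2 ((mem_iff v _).2 h2)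
        simpa using h3
      have h4 : w (algebraMap L Ω' x - (m : Ω')) < 1 := by simpa using ha
      have e : algebraMap L Ω' x - (r : Ω') = (algebraMap L Ω' x - (m : Ω')) + ((m : Ω') - (r : Ω')) := by
        ring
      rw [e]
      exact Valuation.map_add_lt _ h4 h1
  · intro x hx
    rw [Valuation.comap_apply, Valuation.comap_apply, map_sub, map_one, map_ofNat] at hx
    obtain ⟨y, hy1, hy2, -⟩ := sq1 w hx
    obtain ⟨l, hl⟩ := Pool.Agent.R425.mem_of_fixed (L := L) (x := y) fun σ => by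
      refine sq1_uniq w ?_ ?_ hy2
      · rw [← map_pow, hy1, σ.commutes]
      · have e1 : σ y - 1 = σ (y - 1) := by rw [map_sub, map_one]
        rw [e1, hσ]
        exact hy2
    refine ⟨l, ?_⟩
    apply (algebraMap L Ω').injective
    rw [map_pow, hl, hy1]

end

end Pool.Agent.R425.G
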