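import Pool.Agent.R425.G.Ft

/-!
# The group of points over a local field modulo two: finite index and the count
-/

set_option autoImplicit false
set_option linter.all false

open WeierstrassCurve WeierstrassCurve.Affine
open scoped NNReal Classical

namespace Pool.Agent.R425.G

section slope

variable {L : Type} [Field L] {u : Valuation L ℝ≥0} {W : WeierstrassCurve.Affine L}

/-- the discriminant of the cubic polynomial -/
def dsc (W : WeierstrassCurve.Affine L) : L :=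
  W.a₂ ^ 2 * W.a₄ ^ 2 - 4 * W.a₄ ^ 3 - 4 * W.a₂ ^ 3 * W.a₆ + 18 * W.a₂ * W.a₄ * W.a₆ -
    27 * W.a₆ ^ 2

theorem dsc_eq (h1 : W.a₁ = 0) (h3 : W.a₃ = 0) : W.Δ = 16 * dsc W := by
  simp only [WeierstrassCurve.Δ, WeierstrassCurve.b₂, WeierstrassCurve.b₄, WeierstrassCurve.b₆,
    WeierstrassCurve.b₈, dsc, h1, h3]
  ring

theorem exists_small {a : ℝ≥0} (ha : 0 < a) (R : ℝ≥0) (hR : 1 < R) :
    ∃ ε : ℝ≥0, 0 < ε ∧ ε ≤ 1 ∧ R * ε < a := by
  have hR0 : (0 : ℝ≥0) < R := zero_lt_one.trans hR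
  refine ⟨min 1 (a / (2 * R)), lt_min zero_lt_one (by positivity), min_le_left _ _, ?_⟩
  calc R * min 1 (a / (2 * R)) ≤ R * (a / (2 * R)) := by gcongr; exact min_le_right _ _
    _ = a / 2 := by field_simp
    _ < a := NNReal.half_lt_self ha.ne'

theorem slope_big (hW : WI u W) (h2 : u 2 ≠ 0) (hd : dsc W ≠ 0) {R : ℝ≥0} (hR : 1 < R) :
    ∃ δ : ℝ≥0, 0 < δ ∧ ∀ x1 y1 x2 y2 : L, W.Equation x1 y1 → W.Equation x2 y2 → u x1 ≤ R →
      u x2 ≤ R → u (x1 - x2) ≤ δ → u (y1 - y2) ≤ δ → ¬ (x1 = x2 ∧ y1 = y2) →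
      R < u (W.slope x1 x2 y1 (-y2)) := by
  have hd0 : 0 < u (dsc W) := pos_of_ne_zero ((Valuation.ne_zero_iff _).2 hd)
  have h20 : (2 : L) ≠ 0 := fun h => h2 (by rw [h, map_zero])
  have hR0 : (0 : ℝ≥0) < R := zero_lt_one.trans hR
  obtain ⟨ε, hε0, hε1, hεR⟩ := exists_small hd0 R hR
  have n2 : u (2 : L) ≤ 1 := by exact_mod_cast u_nat u 2
  have n3 : u (3 : L) ≤ 1 := by exact_mod_cast u_nat u 3
  have n4 : u (4 : L) ≤ 1 := by exact_mod_cast u_nat u 4
  have nn : ∀ n : ℕ, u (n : L) ≤ 1 := u_nat u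
  set c : ℝ≥0 := u (dsc W) / R ^ 2 with hc
  have hc0 : 0 < c := by positivity
  set κ : ℝ≥0 := min (u 2 * ε) c with hκ
  have hκ0 : 0 < κ := lt_min (mul_pos (pos_of_ne_zero h2) hε0) hc0
  obtain ⟨δ, hδ0, hδ1, hδR⟩ := exists_small hκ0 R hR
  have hδκ : δ < κ := lt_of_le_of_lt (by
    calc δ = 1 * δ := (one_mul _).symm
      _ ≤ R * δ := mul_le_mul_left hR.le _) hδR
  refine ⟨δ, hδ0, fun x1 y1 x2 y2 e1 e2 b1 b2 bx byy hne => ?_⟩
  have q1 := hW.eqn e1
  have q2 := hW.eqn e2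
  -- the estimate for the derivative
  have hder : u y1 < ε → c ≤ u (3 * x1 ^ 2 + 2 * W.a₂ * x1 + W.a₄) := by
    intro hy
    set fp := 3 * x1 ^ 2 + 2 * W.a₂ * x1 + W.a₄ with hfp
    have hid : ((18 * W.a₄ - 6 * W.a₂ ^ 2) * x1 + (-4 * W.a₂ ^ 3 + 15 * W.a₂ * W.a₄ - 27 * W.a₆)) *
        y1 ^ 2 + ((2 * W.a₂ ^ 2 - 6 * W.a₄) * x1 ^ 2 + (2 * W.a₂ ^ 3 - 7 * W.a₂ * W.a₄ +
        9 * W.a₆) * x1 + (W.a₂ ^ 2 * W.a₄ - 4 * W.a₄ ^ 2 + 3 * W.a₂ * W.a₆)) * fp = dsc W := by
      rw [q1, hfp, dsc]; ring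
    have m : ∀ {p q : L} {r s : ℝ≥0}, u p ≤ r → u q ≤ s → u (p * q) ≤ r * s := fun hp hq => by
      rw [map_mul]; exact mul_le_mul' hp hq
    have m1 : ∀ {p q : L}, u p ≤ 1 → u q ≤ 1 → u (p * q) ≤ 1 := fun hp hq => by
      rw [map_mul]; exact mul_le_one' hp hq
    have pw : ∀ {p : L} (n : ℕ), u p ≤ 1 → u (p ^ n) ≤ 1 := fun n hp => by
      rw [map_pow]; exact pow_le_one₀ zero_le hp
    have n18 : u (18 : L) ≤ 1 := by exact_mod_cast nn 18
    have n6 : u (6 : L) ≤ 1 := by exact_mod_cast nn 6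
    have n15 : u (15 : L) ≤ 1 := by exact_mod_cast nn 15
    have n27 : u (27 : L) ≤ 1 := by exact_mod_cast nn 27
    have n7 : u (7 : L) ≤ 1 := by exact_mod_cast nn 7
    have n9 : u (9 : L) ≤ 1 := by exact_mod_cast nn 9
    have n4' : u (-4 : L) ≤ 1 := by rw [Valuation.map_neg]; exact n4
    have hU : u ((18 * W.a₄ - 6 * W.a₂ ^ 2) * x1 +
        (-4 * W.a₂ ^ 3 + 15 * W.a₂ * W.a₄ - 27 * W.a₆)) ≤ R := by
      refine u_add ?_ ?_
      · have := m (u_sub (m1 n18 hW.a4) (m1 n6 (pw 2 hW.a2))) b1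
        rwa [one_mul] at this
      · refine le_trans ?_ hR.le
        exact u_sub (u_add (m1 n4' (pw 3 hW.a2)) (m1 (m1 n15 hW.a2) hW.a4)) (m1 n27 hW.a6)
    have hV : u ((2 * W.a₂ ^ 2 - 6 * W.a₄) * x1 ^ 2 + (2 * W.a₂ ^ 3 - 7 * W.a₂ * W.a₄ +
        9 * W.a₆) * x1 + (W.a₂ ^ 2 * W.a₄ - 4 * W.a₄ ^ 2 + 3 * W.a₂ * W.a₆)) ≤ R ^ 2 := by
      refine u_add (u_add ?_ ?_) ?_
      · have hx : u (x1 ^ 2) ≤ R ^ 2 := by rw [map_pow]; exact pow_le_pow_left₀ zero_le b1 2
        have := m (u_sub (m1 n2 (pw 2 hW.a2)) (m1 n6 hW.a4)) hx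
        rwa [one_mul] at this
      · have := m (u_add (u_sub (m1 n2 (pw 3 hW.a2)) (m1 (m1 n7 hW.a2) hW.a4)) (m1 n9 hW.a6)) b1
        rw [one_mul] at this
        refine this.trans ?_
        calc R = R ^ 1 := (pow_one _).symm
          _ ≤ R ^ 2 := pow_le_pow_right₀ hR.le (by norm_num)
      · refine le_trans ?_ (one_le_pow₀ hR.le)
        exact u_add (u_sub (m1 (pw 2 hW.a2) hW.a4) (m1 n4 (pw 2 hW.a4))) (m1 (m1 n3 hW.a2) hW.a6)
    have hUf : u (((18 * W.a₄ - 6 * W.a₂ ^ 2) * x1 +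
        (-4 * W.a₂ ^ 3 + 15 * W.a₂ * W.a₄ - 27 * W.a₆)) * y1 ^ 2) < u (dsc W) := by
      rw [map_mul, map_pow]
      refine lt_of_le_of_lt ?_ hεR
      refine mul_le_mul' hU ?_
      calc u y1 ^ 2 ≤ ε ^ 2 := pow_le_pow_left₀ zero_le hy.le 2
        _ ≤ ε := by rw [pow_two]; exact mul_le_of_le_one_left' hε1
    have h5 : u (dsc W) ≤ u (((2 * W.a₂ ^ 2 - 6 * W.a₄) * x1 ^ 2 + (2 * W.a₂ ^ 3 -
        7 * W.a₂ * W.a₄ + 9 * W.a₆) * x1 + (W.a₂ ^ 2 * W.a₄ - 4 * W.a₄ ^ 2 +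
        3 * W.a₂ * W.a₆)) * fp) := by
      by_contra hcon
      rw [not_le] at hcon
      have h6 := (Valuation.map_add u _ _).trans_lt (max_lt hUf hcon)
      rw [hid] at h6
      exact lt_irrefl _ h6
    rw [map_mul] at h5
    have h6 : u (dsc W) ≤ R ^ 2 * u fp := h5.trans (mul_le_mul_left hV _)
    rw [hc]
    exact div_le_of_le_mul₀ zero_le zero_le (by rwa [mul_comm] at h6)
  -- the slope
  have key : κ ≤ u (W.slope x1 x2 y1 (-y2)) * δ := by
    by_cases hx : x1 = x2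
    · -- same abscissa
      have hyy : y1 ≠ y2 := fun h => hne ⟨hx, h⟩
      have hy12 : y1 = -y2 := by
        have h5 : y1 ^ 2 = y2 ^ 2 := by rw [q1, q2, hx]
        rcases sq_eq_sq_iff_eq_or_eq_neg.1 h5 with h | h
        · exact absurd h hyy
        · exact h
      have hy2 : y2 ≠ 0 := by
        rintro rfl
        apply hyy
        rw [hy12, neg_zero]
      have hsub : u (y1 - y2) = u 2 * u y1 := by
        rw [← map_mul]
        congr 1
        rw [hy12]; ring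
      have hy1 : u y1 < ε := by
        by_contra hcon
        rw [not_lt] at hcon
        have h5 : u 2 * ε ≤ δ := (mul_le_mul_right hcon _).trans (hsub ▸ byy)
        exact absurd (h5.trans_lt hδκ) (not_lt.2 (min_le_left _ _))
      have hne' : y1 ≠ W.negY x2 (-y2) := by
        rw [hW.neg, neg_neg]; exact hyy
      have hsl := slope_of_Y_ne (W := W) hx hne'
      rw [hsl, hW.neg, hW.a1, map_div₀]
      have e5 : y1 - -y1 = 2 * y1 := by ring
      have e6 : 3 * x1 ^ 2 + 2 * W.a₂ * x1 + W.a₄ - 0 * y1 = 3 * x1 ^ 2 + 2 * W.a₂ * x1 + W.a₄ := by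
        ring
      rw [e5, e6, map_mul]
      have hy10 : u 2 * u y1 ≠ 0 := mul_ne_zero h2 ((Valuation.ne_zero_iff _).2 (by
        rw [hy12]; exact neg_ne_zero.2 hy2))
      have h7 := hder hy1
      have h8 : u 2 * u y1 ≤ δ := hsub ▸ byy
      calc κ ≤ c := min_le_right _ _
        _ ≤ u (3 * x1 ^ 2 + 2 * W.a₂ * x1 + W.a₄) := h7
        _ = u (3 * x1 ^ 2 + 2 * W.a₂ * x1 + W.a₄) / (u 2 * u y1) * (u 2 * u y1) := by
            rw [div_mul_cancel₀ _ hy10]
        _ ≤ u (3 * x1 ^ 2 + 2 * W.a₂ * x1 + W.a₄) / (u 2 * u y1) * δ := mul_le_mul_right h8 _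
    · have hx0 : x1 - x2 ≠ 0 := sub_ne_zero.2 hx
      have hsl := slope_of_X_ne (W := W) (y₁ := y1) (y₂ := -y2) hx
      rw [sub_neg_eq_add] at hsl
      have hux0 : u (x1 - x2) ≠ 0 := (Valuation.ne_zero_iff _).2 hx0
      by_cases hy : u y1 < ε
      · -- use the derivative
        have hg : (y1 - y2) * (y1 + y2) = (x1 - x2) * (x1 ^ 2 + x1 * x2 + x2 ^ 2 +
            W.a₂ * (x1 + x2) + W.a₄) := by
          have : (y1 - y2) * (y1 + y2) = y1 ^ 2 - y2 ^ 2 := by ring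
          rw [this, q1, q2]; ring
        have h7 := hder hy
        have hg2 : u (x1 ^ 2 + x1 * x2 + x2 ^ 2 + W.a₂ * (x1 + x2) + W.a₄) =
            u (3 * x1 ^ 2 + 2 * W.a₂ * x1 + W.a₄) := by
          have e5 : x1 ^ 2 + x1 * x2 + x2 ^ 2 + W.a₂ * (x1 + x2) + W.a₄ =
            (3 * x1 ^ 2 + 2 * W.a₂ * x1 + W.a₄) + (-((x1 - x2) * (x2 + 2 * x1 + W.a₂))) := by ring
          rw [e5]
          apply Valuation.map_add_eq_of_lt_left
          refine lt_of_lt_of_le ?_ h7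
          rw [Valuation.map_neg, map_mul]
          have h9 : u (x2 + 2 * x1 + W.a₂) ≤ R := by
            refine u_add (u_add b2 ?_) (hW.a2.trans hR.le)
            rw [map_mul]
            exact (mul_le_of_le_one_left' n2).trans b1
          calc u (x1 - x2) * u (x2 + 2 * x1 + W.a₂) ≤ δ * R := mul_le_mul' bx h9
            _ = R * δ := mul_comm _ _
            _ < κ := hδR
            _ ≤ c := min_le_right _ _
        have h10 : u (W.slope x1 x2 y1 (-y2)) * u (y1 - y2) =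
            u (3 * x1 ^ 2 + 2 * W.a₂ * x1 + W.a₄) := by
          rw [← hg2, ← map_mul, hsl]
          congr 1
          rw [div_mul_eq_mul_div, div_eq_iff hx0]
          linear_combination hg
        calc κ ≤ c := min_le_right _ _
          _ ≤ u (3 * x1 ^ 2 + 2 * W.a₂ * x1 + W.a₄) := h7
          _ = u (W.slope x1 x2 y1 (-y2)) * u (y1 - y2) := h10.symm
          _ ≤ u (W.slope x1 x2 y1 (-y2)) * δ := mul_le_mul_right byy _
      · rw [not_lt] at hy
        have h11 : u 2 * ε ≤ u (y1 + y2) := by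
          have e5 : y1 + y2 = 2 * y1 + (-(y1 - y2)) := by ring
          have h12 : u (y1 + y2) = u (2 * y1) := by
            rw [e5]
            apply Valuation.map_add_eq_of_lt_left
            rw [Valuation.map_neg, map_mul]
            refine (byy.trans_lt hδκ).trans_le ((min_le_left _ _).trans ?_)
            exact mul_le_mul_right hy _
          rw [h12, map_mul]
          exact mul_le_mul_right hy _
        rw [hsl, map_div₀]
        calc κ ≤ u 2 * ε := min_le_left _ _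
          _ ≤ u (y1 + y2) := h11
          _ = u (y1 + y2) / u (x1 - x2) * u (x1 - x2) := by rw [div_mul_cancel₀ _ hux0]
          _ ≤ u (y1 + y2) / u (x1 - x2) * δ := mul_le_mul_right bx _
  by_contra hcon
  rw [not_lt] at hcon
  have h5 := key.trans (mul_le_mul_left hcon δ)
  exact absurd hδR (not_lt.2 h5)

end slope

section fin

theorem fi_of_map {G : Type*} [AddCommGroup G] (H : AddSubgroup G) {T : Type*} [Finite T]
    (φ : G → T) (h : ∀ P Q, φ P = φ Q → P - Q ∈ H) : H.FiniteIndex := by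
  have : Finite (G ⧸ H) := by
    refine Finite.of_injective (fun q : G ⧸ H => φ q.out) fun a b hab => ?_
    have h1 := h _ _ hab
    have h2 : ((a.out : G) : G ⧸ H) = ((b.out : G) : G ⧸ H) := by
      rw [QuotientAddGroup.eq]
      have := H.neg_mem h1
      rwa [neg_sub, sub_eq_add_neg, add_comm] at this
    rwa [QuotientAddGroup.out_eq', QuotientAddGroup.out_eq'] at h2
  exact AddSubgroup.finiteIndex_of_finite_quotient

variable {L : Type} [Field L] {u : Valuation L ℝ≥0} {W : WeierstrassCurve.Affine L} {p : ℕ}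

theorem exists_pw (h : LD u p) {a : ℝ≥0} (ha : 0 < a) : ∃ k : ℕ, u (p : L) ^ k < a := by
  obtain ⟨k, hk⟩ := exists_pow_lt_of_lt_one ha h.lt
  exact ⟨k, hk⟩

theorem HR_fi (h : LD u p) (hW : WI u W) (hd : dsc W ≠ 0) {R : ℝ≥0} (hR : 1 < R) :
    (HR u W hW R hR).FiniteIndex := by
  obtain ⟨δ, hδ0, hδ⟩ := slope_big hW h.two_ne hd hR
  have hR0 : (0 : ℝ≥0) < R := zero_lt_one.trans hR
  obtain ⟨M, hM⟩ := exists_pw h (a := (R ^ 2)⁻¹) (by positivity)
  obtain ⟨K, hK⟩ := exists_pw h (a := δ) hδ0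
  have hup : (0 : ℝ≥0) < u (p : L) := pos_of_ne_zero h.ne
  have hM' : ∀ x : L, u x ≤ R ^ 2 → u ((p : L) ^ M * x) ≤ 1 := by
    intro x hx
    rw [map_mul, map_pow]
    calc u (p : L) ^ M * u x ≤ (R ^ 2)⁻¹ * R ^ 2 := mul_le_mul' hM.le hx
      _ = 1 := inv_mul_cancel₀ (by positivity)
  have hRR : R ≤ R ^ 2 := by
    calc R = R ^ 1 := (pow_one _).symm
      _ ≤ R ^ 2 := pow_le_pow_right₀ hR.le (by norm_num)
  -- the approximation
  have hex : ∀ P : W.Point, P ∉ HR u W hW R hR → ∃ ab : Fin (p ^ (M + K)) × Fin (p ^ (M + K)),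
      ∃ x y hn, P = Point.some x y hn ∧ u x ≤ R ∧
        u ((p : L) ^ M * x - ((ab.1 : ℕ) : L)) ≤ u (p : L) ^ (M + K) ∧
        u ((p : L) ^ M * y - ((ab.2 : ℕ) : L)) ≤ u (p : L) ^ (M + K) := by
    intro P hP
    rcases P with _ | ⟨x, y, hn⟩
    · exact absurd (HR u W hW R hR).zero_mem hP
    · have hx : u x < R := by
        by_contra hcon
        rw [not_lt] at hcon
        apply hP
        intro x' y' h' he
        obtain ⟨e1, e2⟩ := Point.some.inj he
        rw [← e1]; exact hcon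
      have hy : u y ≤ R ^ 2 := by
        have h1 := hW.eqn hn.1
        have h3 : u y ^ 2 ≤ R ^ 3 := by
          rw [← map_pow, h1]
          refine u_add (u_add (u_add ?_ ?_) ?_) ?_
          · rw [map_pow]; exact pow_le_pow_left₀ zero_le hx.le 3
          · rw [map_mul, map_pow]
            refine (mul_le_of_le_one_left' hW.a2).trans ?_
            exact (pow_le_pow_left₀ zero_le hx.le 2).trans (pow_le_pow_right₀ hR.le (by norm_num))
          · rw [map_mul]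
            refine (mul_le_of_le_one_left' hW.a4).trans (hx.le.trans ?_)
            calc R = R ^ 1 := (pow_one _).symm
              _ ≤ R ^ 3 := pow_le_pow_right₀ hR.le (by norm_num)
          · exact hW.a6.trans (one_le_pow₀ hR.le)
        have h4 : u y ^ 2 ≤ (R ^ 2) ^ 2 := h3.trans (by
          rw [← pow_mul]; exact pow_le_pow_right₀ hR.le (by norm_num))
        exact (pow_le_pow_iff_left₀ zero_le zero_le two_ne_zero).1 h4
      obtain ⟨a, ha, ha'⟩ := h.approx (M + K) _ (hM' x (hx.le.trans hRR))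
      obtain ⟨b, hb, hb'⟩ := h.approx (M + K) _ (hM' y hy)
      exact ⟨(⟨a, ha⟩, ⟨b, hb⟩), x, y, hn, rfl, hx.le, ha', hb'⟩
  haveI : Nonempty (Fin (p ^ (M + K)) × Fin (p ^ (M + K))) := by
    have : 0 < p ^ (M + K) := pow_pos h.pr.pos _
    exact ⟨(⟨0, this⟩, ⟨0, this⟩)⟩
  choose! ψ hψ using hex
  have hpM : (p : L) ^ M ≠ 0 := pow_ne_zero _ h.p0
  refine fi_of_map _ (fun P => if P ∈ HR u W hW R hR then none else some (ψ P))
    fun P Q hPQ => ?_
  have hPQ' : (if P ∈ HR u W hW R hR then none else some (ψ P)) =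
    (if Q ∈ HR u W hW R hR then none else some (ψ Q)) := hPQ
  split_ifs at hPQ' with hP hQ
  · exact sub_mem hP hQ
  · have hψe : ψ P = ψ Q := Option.some.inj hPQ'
    obtain ⟨x1, y1, n1, rfl, b1, c1, d1⟩ := hψ P hP
    rename_i hQ
    obtain ⟨x2, y2, n2, rfl, b2, c2, d2⟩ := hψ Q hQ
    rw [hψe] at c1 d1
    have close : ∀ {x y a : L}, u ((p : L) ^ M * x - a) ≤ u (p : L) ^ (M + K) →
        u ((p : L) ^ M * y - a) ≤ u (p : L) ^ (M + K) → u (x - y) ≤ δ := by
      intro x y a h1 h2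
      have h3 : u ((p : L) ^ M * (x - y)) ≤ u (p : L) ^ (M + K) := by
        have e : (p : L) ^ M * (x - y) = ((p : L) ^ M * x - a) - ((p : L) ^ M * y - a) := by ring
        rw [e]
        exact u_sub h1 h2
      rw [map_mul, map_pow, pow_add] at h3
      exact (le_of_mul_le_mul_left h3 (pow_pos hup _)).trans hK.le
    have bx := close c1 c2
    have byy := close d1 d2
    rw [sub_eq_add_neg, Point.neg_some]
    by_cases hxy : x1 = x2 ∧ y1 = y2
    · rw [Point.add_of_Y_eq hxy.1 (by rw [hW.neg, hW.neg, neg_neg]; exact hxy.2)]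
      exact (HR u W hW R hR).zero_mem
    · have hxy' : ¬ (x1 = x2 ∧ y1 = W.negY x2 (W.negY x2 y2)) := by
        rw [hW.neg, hW.neg, neg_neg]; exact hxy
      have hsl := hδ x1 y1 x2 y2 n1.1 n2.1 b1 b2 bx byy hxy
      rw [Point.add_some hxy']
      intro x y hn he
      obtain ⟨e1, -⟩ := Point.some.inj he
      rw [← e1, Affine.addX, hW.a1, hW.neg]
      set l := W.slope x1 x2 y1 (-y2) with hl
      have e5 : l ^ 2 + 0 * l - W.a₂ - x1 - x2 = l ^ 2 + (-W.a₂ - x1 - x2) := by ring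
      have hl2 : R < u (l ^ 2) := by
        rw [map_pow]
        exact hRR.trans_lt (pow_lt_pow_left₀ hsl zero_le two_ne_zero)
      rw [e5, Valuation.map_add_eq_of_lt_left]
      · exact hl2.le
      · refine lt_of_le_of_lt (u_sub (u_sub ?_ b1) b2) hl2
        rw [Valuation.map_neg]
        exact hW.a2.trans hR.le

end fin

section cnt

variable {L : Type} [Field L] {u : Valuation L ℝ≥0} {W : WeierstrassCurve.Affine L} {p : ℕ}

theorem HR_exists (h : LD u p) (hW : WI u W) (hd : dsc W ≠ 0) {R : ℝ≥0} (hR : 1 < R) :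
    ∃ x y hn, (Point.some x y hn : W.Point) ∈ HR u W hW R hR := by
  have hR0 : (0 : ℝ≥0) < R := zero_lt_one.trans hR
  have h20 : (2 : L) ≠ 0 := fun h' => h.two_ne (by rw [h', map_zero])
  have h4 : (0 : ℝ≥0) < u 4 := by
    apply pos_of_ne_zero
    rw [Valuation.ne_zero_iff]
    have : (4 : L) = 2 * 2 := by norm_num
    rw [this]
    exact mul_ne_zero h20 h20
  obtain ⟨k, hk⟩ := exists_pw h (a := min (u 4) R⁻¹) (lt_min h4 (by positivity))
  set t : L := (p : L) ^ k with ht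
  have ht0 : t ≠ 0 := pow_ne_zero _ h.p0
  have hut : u t = u (p : L) ^ k := map_pow _ _ _
  have hut1 : u t ≤ 1 := by rw [hut]; exact pow_le_one₀ zero_le h.lt.le
  have ht2 : u (t ^ 2) ≤ u t := by
    rw [map_pow, pow_two]; exact mul_le_of_le_one_left' hut1
  have hsm : u ((1 + W.a₂ * t ^ 2 + W.a₄ * t ^ 4 + W.a₆ * t ^ 6) - 1) < u 4 := by
    have e : (1 + W.a₂ * t ^ 2 + W.a₄ * t ^ 4 + W.a₆ * t ^ 6) - 1 =
      (W.a₂ + W.a₄ * t ^ 2 + W.a₆ * t ^ 4) * t ^ 2 := by ring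
    rw [e, map_mul]
    have h5 : u (W.a₂ + W.a₄ * t ^ 2 + W.a₆ * t ^ 4) ≤ 1 := by
      refine u_add (u_add hW.a2 ?_) ?_
      · rw [map_mul, map_pow]; exact mul_le_one' hW.a4 (pow_le_one₀ zero_le hut1)
      · rw [map_mul, map_pow]; exact mul_le_one' hW.a6 (pow_le_one₀ zero_le hut1)
    refine lt_of_le_of_lt (mul_le_of_le_one_left' h5) (lt_of_le_of_lt ht2 ?_)
    rw [hut]
    exact hk.trans_le (min_le_left _ _)
  obtain ⟨s, hs⟩ := h.sq _ hsm
  have heq : W.Equation (1 / t ^ 2) (s / t ^ 3) := by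
    rw [Affine.equation_iff, hW.a1, hW.a3]
    field_simp
    linear_combination hs
  have hns : W.Nonsingular (1 / t ^ 2) (s / t ^ 3) := by
    refine (WeierstrassCurve.Affine.equation_iff_nonsingular_of_Δ_ne_zero ?_).1 heq
    rw [dsc_eq hW.a1 hW.a3]
    refine mul_ne_zero ?_ hd
    have : (16 : L) = 2 ^ 4 := by norm_num
    rw [this]
    exact pow_ne_zero 4 h20
  refine ⟨1 / t ^ 2, s / t ^ 3, hns, ?_⟩
  intro x y hn he
  obtain ⟨e1, -⟩ := Point.some.inj he
  rw [← e1, map_div₀, map_one]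
  have h6 : u (t ^ 2) ≤ R⁻¹ := ht2.trans (by rw [hut]; exact (hk.le.trans (min_le_right _ _)))
  rw [le_div_iff₀ (pos_of_ne_zero ((Valuation.ne_zero_iff _).2 (pow_ne_zero 2 ht0)))]
  calc R * u (t ^ 2) ≤ R * R⁻¹ := mul_le_mul_right h6 _
    _ = 1 := mul_inv_cancel₀ hR0.ne'

theorem HR_not_two (h : LD u 2) (hW : WI u W) (hd : dsc W ≠ 0) {R : ℝ≥0} (hR : 1 < R) :
    ∃ P ∈ HR u W hW R hR, ∀ Q ∈ HR u W hW R hR, Q + Q ≠ P := by
  have hup : (0 : ℝ≥0) < u ((2 : ℕ) : L) := pos_of_ne_zero h.ne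
  have hux : ∀ P ∈ HR u W hW R hR, ∀ x y hn, P = Point.some x y hn →
      ∃ m : ℕ, u x = (u ((2 : ℕ) : L))⁻¹ ^ m := by
    rintro P hP x y hn rfl
    have hx : R ≤ u x := hP x y hn rfl
    have hx0 : x ≠ 0 := by
      rintro rfl
      rw [map_zero] at hx
      exact absurd (hR.trans_le hx) (by simp)
    obtain ⟨n, hn'⟩ := h.disc x hx0
    have h1 : n ≤ 0 := by
      by_contra hcon
      rw [not_le] at hcon
      have : u ((2 : ℕ) : L) ^ n ≤ 1 := by
        obtain ⟨k, rfl⟩ := Int.eq_ofNat_of_zero_le hcon.le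
        rw [zpow_natCast]
        exact pow_le_one₀ zero_le h.lt.le
      rw [← hn'] at this
      exact absurd (hR.trans_le (hx.trans this)) (lt_irrefl _)
    obtain ⟨k, hk⟩ := Int.eq_ofNat_of_zero_le (neg_nonneg.2 h1)
    refine ⟨k, ?_⟩
    rw [hn', inv_pow, ← zpow_natCast, ← zpow_neg]
    congr 1
    linarith
  have ex : ∃ m : ℕ, ∃ x y hn, (Point.some x y hn : W.Point) ∈ HR u W hW R hR ∧
      u x = (u ((2 : ℕ) : L))⁻¹ ^ m := by
    obtain ⟨x, y, hn, hP⟩ := HR_exists h hW hd hR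
    obtain ⟨m, hm⟩ := hux _ hP x y hn rfl
    exact ⟨m, x, y, hn, hP, hm⟩
  obtain ⟨x, y, hn, hP, hm⟩ := Nat.find_spec ex
  have hmin := fun k hk => Nat.find_min ex (m := k) hk
  set m := Nat.find ex with hmdef
  refine ⟨_, hP, fun Q hQ hQP => ?_⟩
  obtain ⟨x', y', hn', rfl, he⟩ := HR_dbl hW h.two_ne hR hQ hQP
  obtain ⟨m', hm'⟩ := hux _ hQ x' y' hn' rfl
  apply hmin m' _ ⟨x', y', hn', hQ, hm'⟩
  -- compare
  rw [hm, hm'] at he
  have h4 : u (4 : L) = u ((2 : ℕ) : L) ^ 2 := by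
    rw [← map_pow]; congr 1; norm_num
  rw [h4] at he
  by_contra hcon
  rw [not_lt] at hcon
  have h5 : (u ((2 : ℕ) : L))⁻¹ ^ m ≤ (u ((2 : ℕ) : L))⁻¹ ^ m' :=
    pow_le_pow_right₀ ((one_le_inv₀ hup).2 h.lt.le) hcon
  rw [← he] at h5
  have h6 : (0 : ℝ≥0) < (u ((2 : ℕ) : L))⁻¹ ^ m := by positivity
  have h7 : u ((2 : ℕ) : L) ^ 2 < 1 := pow_lt_one₀ zero_le h.lt two_ne_zero
  have h8 : u ((2 : ℕ) : L) ^ 2 * (u ((2 : ℕ) : L))⁻¹ ^ m < (u ((2 : ℕ) : L))⁻¹ ^ m :=
    mul_lt_of_lt_one_left h6 h7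
  exact absurd h5 (not_le.2 h8)

/-- the number of the classes of the points modulo two -/
theorem ft_main (h : LD u p) (hW : WI u W) (hd : dsc W ≠ 0)
    (hfin : (Sqr (Multiplicative W.Point)).index ≠ 0) :
    (if p = 2 then 2 else 1) * Nat.card (Two (Multiplicative W.Point)) ≤
      (Sqr (Multiplicative W.Point)).index := by
  have hR : (1 : ℝ≥0) < 2 := one_lt_two
  set H : AddSubgroup W.Point := HR u W hW 2 hR with hH
  haveI hfi : H.FiniteIndex := HR_fi h hW hd hR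
  set H' : Subgroup (Multiplicative W.Point) := AddSubgroup.toSubgroup H with hH'
  haveI : H'.FiniteIndex := ⟨hfi.index_ne_zero⟩
  have h2 : ∀ x ∈ H', x ^ 2 = 1 → x = 1 := by
    intro x hx hx2
    have h3 : Multiplicative.toAdd x + Multiplicative.toAdd x = 0 := by
      have := congrArg Multiplicative.toAdd hx2
      rw [pow_two] at this
      exact this
    exact HR_two hW h.two_ne hR hx h3
  have hb := herbrand H' h2
  have h0 : (SqrH H').relIndex H' ≠ 0 := by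
    intro h0
    rw [hb, h0, zero_mul] at hfin
    exact hfin rfl
  rw [hb]
  apply Nat.mul_le_mul_right
  split_ifs with hp
  · subst hp
    obtain ⟨P, hP, hPn⟩ := HR_not_two h hW hd hR
    have h1 : (SqrH H').relIndex H' ≠ 1 := by
      rw [Ne, Subgroup.relIndex_eq_one]
      intro hle
      obtain ⟨Q, hQ, hQ2⟩ := hle (show Multiplicative.ofAdd P ∈ H' from hP)
      apply hPn (Multiplicative.toAdd Q) hQ
      have := congrArg Multiplicative.toAdd hQ2
      have e : Multiplicative.toAdd ((powMonoidHom 2 : Multiplicative W.Point →* _) Q) =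
        Multiplicative.toAdd Q + Multiplicative.toAdd Q := by
        show Multiplicative.toAdd (Q ^ 2) = _
        rw [pow_two]; rfl
      rw [e] at this
      exact this
    omega
  · omega

end cnt

end Pool.Agent.R425.G
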