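import Pool.Agent.R425.G.Ce
import Pool.Agent.R425.G.Ft2
import Pool.Agent.R425.G.Cq

/-!
# The index of the local condition
-/

set_option autoImplicit false
set_option linter.all false

open WeierstrassCurve WeierstrassCurve.Affine
open scoped NNReal Classical

namespace Pool.Agent.R425.G

open Pool.Agent.TH115.GD

/-- integral short models -/
structure IV (V : WeierstrassCurve ℚ) : Prop where
  a1 : V.a₁ = 0
  a3 : V.a₃ = 0
  a2 : ∃ n : ℤ, V.a₂ = n
  a4 : ∃ n : ℤ, V.a₄ = n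
  a6 : ∃ n : ℤ, V.a₆ = n
  Δ : V.Δ ≠ 0

section

variable {V : WeierstrassCurve ℚ} {L Ω' : Type} [Field L] [Field Ω'] [Algebra L Ω'] [Algebra ℚ L]
  [Algebra ℚ Ω'] [IsScalarTower ℚ L Ω'] {a b c : Ω'} (w : Valuation Ω' ℝ≥0) {p : ℕ}

theorem IV.wi (hV : IV V) (u : Valuation L ℝ≥0) : WI u (V.baseChange L).toAffine := by
  have key : ∀ x : ℚ, (∃ n : ℤ, x = n) → u (algebraMap ℚ L x) ≤ 1 := by
    rintro x ⟨n, rfl⟩
    rw [map_intCast]
    exact u_int u n
  refine ⟨?_, ?_, ?_, ?_, ?_⟩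
  · show algebraMap ℚ L V.a₁ = 0
    rw [hV.a1, map_zero]
  · show algebraMap ℚ L V.a₃ = 0
    rw [hV.a3, map_zero]
  · exact key _ hV.a2
  · exact key _ hV.a4
  · exact key _ hV.a6

theorem IV.dsc_ne (hV : IV V) : dsc (V.baseChange L).toAffine ≠ 0 := by
  intro h
  have h1 := dsc_eq (W := (V.baseChange L).toAffine) (hV.wi (1 : Valuation L ℝ≥0)).a1
    (hV.wi (1 : Valuation L ℝ≥0)).a3
  rw [h, mul_zero] at h1
  have h2 : (V.baseChange L).Δ = algebraMap ℚ L V.Δ := WeierstrassCurve.map_Δ _ _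
  have h3 : algebraMap ℚ L V.Δ = 0 := h2.symm.trans h1
  exact hV.Δ ((map_eq_zero _).1 h3)

variable [IsAlgClosed Ω'] [IsGalois L Ω']

variable (V L Ω') in
/-- the local condition -/
def Dl (ζ : Rt V Ω' → Ω') : Prop :=
  ∃ (η : EE V L Ω') (d : Lˣ) (P : Pt V L), ∀ e, ζ e = (η.1 e : Ω') ^ 2 * algebraMap L Ω' d * kpf P e

/-- the map of the points -/
noncomputable def phi (hC : IsC (V.baseChange Ω').toAffine a b c) :
    Lˣ × Multiplicative (Pt V L) →* (EE V L Ω') ⧸ Sqr (EE V L Ω') where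
  toFun x := QuotientGroup.mk (dl V Ω' x.1 * kp hC (Multiplicative.toAdd x.2))
  map_one' := by
    have h1 : dl V Ω' (1 : Lˣ) * kp hC (0 : Pt V L) = 1 := by
      rw [map_one, one_mul]
      exact EE_ext fun e => rfl
    show QuotientGroup.mk (dl V Ω' (1 : Lˣ) * kp hC (0 : Pt V L)) = _
    rw [h1]
    rfl
  map_mul' := by
    intro x y
    obtain ⟨η, hη⟩ := kp_mul hC (Multiplicative.toAdd x.2) (Multiplicative.toAdd y.2)
    have h1 : Multiplicative.toAdd (x * y).2 = Multiplicative.toAdd x.2 + Multiplicative.toAdd y.2 :=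
      rfl
    have h2 : (x * y).1 = x.1 * y.1 := rfl
    rw [h1, h2, map_mul, hη, ← QuotientGroup.mk_mul, QuotientGroup.eq]
    refine ⟨η⁻¹, ?_⟩
    show (η⁻¹) ^ 2 = _
    rw [inv_pow]
    have : ∀ (A B C D E : EE V L Ω'), E⁻¹ = (A * B * (C * D * E))⁻¹ * (A * C * (B * D)) := by
      intro A B C D E
      rw [mul_inv, mul_inv, mul_inv, mul_inv]
      have h5 : A⁻¹ * B⁻¹ * (C⁻¹ * D⁻¹ * E⁻¹) * (A * C * (B * D)) =
        (A⁻¹ * A) * (B⁻¹ * B) * (C⁻¹ * C) * (D⁻¹ * D) * E⁻¹ := by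
        simp only [mul_comm, mul_left_comm, mul_assoc]
      rw [h5]
      simp
    exact this _ _ _ _ _

theorem phi_ker (hC : IsC (V.baseChange Ω').toAffine a b c) :
    (phi (L := L) hC).ker = (Sqr Lˣ).prod (Sqr (Multiplicative (Pt V L))) := by
  ext x
  constructor
  · intro hx
    have h1 : QuotientGroup.mk (dl V Ω' x.1 * kp hC (Multiplicative.toAdd x.2)) =
      (1 : (EE V L Ω') ⧸ Sqr (EE V L Ω')) := hx
    rw [QuotientGroup.eq_one_iff] at h1
    obtain ⟨η, hη⟩ := h1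
    have hη' : kp hC (Multiplicative.toAdd x.2) * dl V Ω' x.1 = η ^ 2 := by
      rw [mul_comm]; exact hη.symm
    obtain ⟨⟨s, hs⟩, R, hR⟩ := kp_inj hC _ _ η hη'
    refine ⟨⟨s, hs⟩, ⟨Multiplicative.ofAdd R, ?_⟩⟩
    show (Multiplicative.ofAdd R) ^ 2 = x.2
    rw [pow_two, ← ofAdd_add, hR]
    rfl
  · rintro ⟨⟨s, hs⟩, ⟨R, hR⟩⟩
    have e1 : x = (s, R) ^ 2 := Prod.ext hs.symm hR.symm
    rw [e1, MonoidHom.mem_ker, map_pow]
    obtain ⟨z, hz⟩ := QuotientGroup.mk_surjective (phi (L := L) hC (s, R))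
    rw [← hz, ← QuotientGroup.mk_pow, QuotientGroup.eq_one_iff]
    exact ⟨z, rfl⟩

/-- the elements with the local condition -/
noncomputable def DD (hC : IsC (V.baseChange Ω').toAffine a b c) : Subgroup (EE V L Ω') :=
  (phi (L := L) hC).range.comap (QuotientGroup.mk' _)

theorem mem_DD (hC : IsC (V.baseChange Ω').toAffine a b c) {ζ : EE V L Ω'} :
    ζ ∈ DD (L := L) hC ↔ Dl V L Ω' (fun e => (ζ.1 e : Ω')) := by
  constructor
  · rintro ⟨⟨d, P⟩, h⟩
    have h1 : QuotientGroup.mk (dl V Ω' d * kp hC (Multiplicative.toAdd P)) =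
      (QuotientGroup.mk ζ : (EE V L Ω') ⧸ Sqr (EE V L Ω')) := h
    rw [QuotientGroup.eq] at h1
    obtain ⟨η, hη⟩ := h1
    refine ⟨η, d, Multiplicative.toAdd P, fun e => ?_⟩
    have hη' : η ^ 2 = (dl V Ω' d * kp hC (Multiplicative.toAdd P))⁻¹ * ζ := hη
    have h2 : ζ = η ^ 2 * dl V Ω' d * kp hC (Multiplicative.toAdd P) := by
      rw [mul_assoc, mul_comm, hη', mul_inv_cancel_left]
    have h3 := congrArg (fun z : EE V L Ω' => (z.1 e : Ω')) h2
    exact h3
  · rintro ⟨η, d, P, h⟩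
    refine ⟨(d, Multiplicative.ofAdd P), ?_⟩
    have h2 : ζ = η ^ 2 * dl V Ω' d * kp hC P := EE_ext h
    show QuotientGroup.mk (dl V Ω' d * kp hC P) = _
    rw [QuotientGroup.mk'_apply, QuotientGroup.eq]
    refine ⟨η, ?_⟩
    show η ^ 2 = _
    rw [h2, mul_assoc, mul_comm (η ^ 2), inv_mul_cancel_left]

/-- the number of the orbits and the number of the fixed roots -/
theorem orb_le (hC : IsC (V.baseChange Ω').toAffine a b c) :
    2 * Nat.card (Orb V L Ω') ≤ 3 + Nat.card {e : Rt V Ω' // ∀ σ : Ω' ≃ₐ[L] Ω', mv σ e = e} := by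
  haveI := rt_finite hC
  haveI : Fintype (Rt V Ω') := Fintype.ofFinite _
  haveI : Finite (Orb V L Ω') := Quotient.finite _
  haveI : Fintype (Orb V L Ω') := Fintype.ofFinite _
  have h1 : ∑ o : Orb V L Ω', Fintype.card {e : Rt V Ω' // Quotient.mk (orb V L Ω') e = o} = 3 := by
    rw [← rt_card hC]
    exact (Fintype.card_congr (Equiv.sigmaFiberEquiv (Quotient.mk (orb V L Ω')))).symm.trans
      (Fintype.card_sigma) |>.symm
  set S : Finset (Orb V L Ω') := Finset.univ.filter (fun o =>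
    Fintype.card {e : Rt V Ω' // Quotient.mk (orb V L Ω') e = o} ≤ 1) with hS
  have h2 : S.card ≤ Nat.card {e : Rt V Ω' // ∀ σ : Ω' ≃ₐ[L] Ω', mv σ e = e} := by
    rw [← Fintype.card_coe, ← Nat.card_eq_fintype_card]
    refine Nat.card_le_card_of_injective (fun o : S => (⟨o.1.out, fun σ => ?_⟩ :
      {e : Rt V Ω' // ∀ σ : Ω' ≃ₐ[L] Ω', mv σ e = e})) ?_
    · have ho : Fintype.card {e : Rt V Ω' // Quotient.mk (orb V L Ω') e = o.1} ≤ 1 :=
        (Finset.mem_filter.1 o.2).2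
      rw [Fintype.card_le_one_iff] at ho
      have h3 := ho ⟨mv σ o.1.out, ?_⟩ ⟨o.1.out, Quotient.out_eq _⟩
      · exact congrArg Subtype.val h3
      · rw [← Quotient.out_eq o.1]
        apply Quotient.sound
        have : (Quotient.mk (orb V L Ω') o.1.out).out = o.1.out := by
          rw [Quotient.out_eq]
        rw [this]
        exact ⟨σ⁻¹, mv_inv' σ _⟩
    · intro o o' h
      apply Subtype.ext
      have h3 : o.1.out = o'.1.out := congrArg (fun z : {e : Rt V Ω' // ∀ σ : Ω' ≃ₐ[L] Ω',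
        mv σ e = e} => z.1) h
      rw [← Quotient.out_eq o.1, ← Quotient.out_eq o'.1, h3]
  have h3 : ∀ o : Orb V L Ω', (2 : ℕ) ≤ Fintype.card {e : Rt V Ω' // Quotient.mk (orb V L Ω') e = o} +
      (if o ∈ S then 1 else 0) := by
    intro o
    have hpos : 0 < Fintype.card {e : Rt V Ω' // Quotient.mk (orb V L Ω') e = o} :=
      Fintype.card_pos_iff.2 ⟨⟨o.out, Quotient.out_eq _⟩⟩
    split_ifs with ho
    · omega
    · rw [hS, Finset.mem_filter] at ho
      simp only [Finset.mem_univ, true_and, not_le] at ho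
      omega
  have h4 := Finset.sum_le_sum (fun o (_ : o ∈ (Finset.univ : Finset (Orb V L Ω'))) => h3 o)
  rw [Finset.sum_add_distrib, h1, Finset.sum_const, Finset.card_univ, ← Finset.sum_filter,
    Finset.sum_const, smul_eq_mul, smul_eq_mul, mul_one] at h4
  have h5 : (Finset.univ.filter (fun o => o ∈ S)) = S := by
    ext o; simp
  rw [h5] at h4
  rw [Nat.card_eq_fintype_card (α := Orb V L Ω')]
  omega

theorem two_fin (hC : IsC (V.baseChange Ω').toAffine a b c) :
    Finite (Two (Multiplicative (Pt V L))) := by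
  set i : Pt V L → Pt V Ω' := fun P => act V (incl ℚ L Ω') P with hi
  refine Finite.of_injective (fun P : Two (Multiplicative (Pt V L)) =>
    (decide (sC a (i (Multiplicative.toAdd P.1)) = 1),
      decide (sC b (i (Multiplicative.toAdd P.1)) = 1),
      decide (sC c (i (Multiplicative.toAdd P.1)) = 1))) fun P Q h => ?_
  have h2 : ∀ P : Two (Multiplicative (Pt V L)), i (Multiplicative.toAdd P.1) +
      i (Multiplicative.toAdd P.1) = 0 := by
    intro P
    have := P.2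
    rw [mem_two, pow_two] at this
    have h4 : Multiplicative.toAdd P.1 + Multiplicative.toAdd P.1 = 0 := this
    simp only [hi]
    rw [← map_add, h4, map_zero]
  have key : ∀ (e : Ω'), decide (sC e (i (Multiplicative.toAdd P.1)) = 1) =
      decide (sC e (i (Multiplicative.toAdd Q.1)) = 1) →
      sC e (i (Multiplicative.toAdd P.1)) = sC e (i (Multiplicative.toAdd Q.1)) := by
    intro e he
    rw [decide_eq_decide] at he
    rcases sC_sq (a := e) (i (Multiplicative.toAdd P.1)) with h5 | h5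
    · rw [h5, he.1 h5]
    · rcases sC_sq (a := e) (i (Multiplicative.toAdd Q.1)) with h6 | h6
      · rw [h6, he.2 h6]
      · rw [h5, h6]
  simp only [Prod.mk.injEq] at h
  have h3 := sC_ext hC (h2 P) (h2 Q) (key a h.1) (key b h.2.1)
  apply Subtype.ext
  apply Multiplicative.toAdd.injective
  exact act_inj V (incl ℚ L Ω') h3

/-- the points of order two -/
theorem two_ge (hC : IsC (V.baseChange Ω').toAffine a b c)
    (hfin : Finite (Two (Multiplicative (Pt V L)))) :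
    1 + Nat.card {e : Rt V Ω' // ∀ σ : Ω' ≃ₐ[L] Ω', mv σ e = e} ≤
      Nat.card (Two (Multiplicative (Pt V L))) := by
  haveI := rt_finite hC
  have hex : ∀ e : {e : Rt V Ω' // ∀ σ : Ω' ≃ₐ[L] Ω', mv σ e = e}, ∃ Q : Pt V L, Q + Q = 0 ∧
      ∃ y h, act V (incl ℚ L Ω') Q = Point.some e.1.1 y h := by
    intro e
    obtain ⟨e', e'', h⟩ := root_set hC e.1
    have hns : (V.baseChange Ω').toAffine.Nonsingular e.1.1 0 := (nonsC h).1
    set T : Pt V Ω' := Point.some e.1.1 0 hns with hT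
    have hfix : ∀ σ : Ω' ≃ₐ[L] Ω', act V (rs ℚ σ) T = T := by
      intro σ
      obtain ⟨h1, h2⟩ := act_some V (rs ℚ σ) hns
      rw [hT, h2]
      have e1 : (rs ℚ σ) e.1.1 = e.1.1 := congrArg Subtype.val (e.2 σ)
      have e2 : (rs ℚ σ) (0 : Ω') = 0 := map_zero _
      congr 1
    obtain ⟨Q, hQ⟩ := fixed_point (K := ℚ) (F := L) V T hfix
    have hTT : T + T = 0 := by
      rw [hT]
      apply Point.add_self_of_Y_eq
      show (0 : Ω') = (V.baseChange Ω').toAffine.negY _ 0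
      have a1 := h.a1
      have a3 := h.a3
      rw [Affine.negY]
      rw [a1, a3]
      ring
    refine ⟨Q, ?_, 0, hns, hQ⟩
    apply act_inj V (incl ℚ L Ω')
    rw [map_add, hQ, hTT, map_zero]
  choose Q hQ1 hQ2 using hex
  have hinj : Function.Injective (fun o : Option {e : Rt V Ω' // ∀ σ : Ω' ≃ₐ[L] Ω', mv σ e = e} =>
      (⟨Multiplicative.ofAdd (o.elim 0 Q), by
        rw [mem_two, pow_two, ← ofAdd_add]
        rcases o with _ | e
        · show Multiplicative.ofAdd ((0 : Pt V L) + 0) = 1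
          rw [add_zero]; rfl
        · show Multiplicative.ofAdd (Q e + Q e) = 1
          rw [hQ1]; rfl⟩ : Two (Multiplicative (Pt V L)))) := by
    intro o o' h
    have h1 : (o.elim 0 Q : Pt V L) = o'.elim 0 Q := congrArg (fun z : Two (Multiplicative (Pt V L)) =>
      Multiplicative.toAdd z.1) h
    rcases o with _ | e <;> rcases o' with _ | e'
    · rfl
    · exfalso
      obtain ⟨y, hy, h2⟩ := hQ2 e'
      have h3 : (0 : Pt V L) = Q e' := h1
      rw [← h3, map_zero] at h2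
      exact (Point.some_ne_zero _) h2.symm
    · exfalso
      obtain ⟨y, hy, h2⟩ := hQ2 e
      have h3 : Q e = (0 : Pt V L) := h1
      rw [h3, map_zero] at h2
      exact (Point.some_ne_zero _) h2.symm
    · congr 1
      have h3 : Q e = Q e' := h1
      obtain ⟨y, hy, h2⟩ := hQ2 e
      obtain ⟨y', hy', h2'⟩ := hQ2 e'
      rw [h3, h2'] at h2
      obtain ⟨h4, -⟩ := Point.some.inj h2
      exact Subtype.ext (Subtype.ext h4.symm)
  have h1 := Nat.card_le_card_of_injective _ hinj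
  haveI : Fintype {e : Rt V Ω' // ∀ σ : Ω' ≃ₐ[L] Ω', mv σ e = e} := Fintype.ofFinite _
  rw [Nat.card_eq_fintype_card, Fintype.card_option, ← Nat.card_eq_fintype_card] at h1
  omega

variable (hσ : ∀ (σ : Ω' ≃ₐ[L] Ω') (x : Ω'), w (σ x) = w x)
  (hC : IsC (V.baseChange Ω').toAffine a b c) (hL : LD (w.comap (algebraMap L Ω')) p)

include hσ hL in
/-- the index of the local condition -/
theorem lp (hV : IV V) : (DD (L := L) hC).index ≠ 0 ∧
    (DD (L := L) hC).index ≤ 2 ^ (Nat.card (Orb V L Ω') - 1) * (if p = 2 then 2 else 1) := by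
  obtain ⟨k1, k2⟩ := ee_idx w hσ hC hL
  have hD : (DD (L := L) hC).index = (phi (L := L) hC).range.index :=
    Subgroup.index_comap_of_surjective _ (QuotientGroup.mk'_surjective _)
  have h1 : (phi (L := L) hC).range.index * Nat.card (phi (L := L) hC).range =
      (Sqr (EE V L Ω')).index := Subgroup.index_mul_card _
  have h2 : Nat.card (phi (L := L) hC).range = (Sqr Lˣ).index *
      (Sqr (Multiplicative (Pt V L))).index := by
    rw [← Subgroup.index_ker, phi_ker, Subgroup.index_prod]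
  rw [h2, ← hD] at h1
  have hne : (DD (L := L) hC).index ≠ 0 := fun h => k1 (by rw [← h1, h, zero_mul])
  have hneL : (Sqr Lˣ).index ≠ 0 := fun h => k1 (by rw [← h1, h, zero_mul, mul_zero])
  have hneE : (Sqr (Multiplicative (Pt V L))).index ≠ 0 := fun h =>
    k1 (by rw [← h1, h, mul_zero, mul_zero])
  refine ⟨hne, ?_⟩
  have c1 := cq hL hneL
  have c2 := ft_main hL (hV.wi _) hV.dsc_ne hneE
  have hfin2 : Finite (Two (Multiplicative (Pt V L))) := two_fin hC
  have c3 := two_ge (L := L) hC hfin2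
  have c4 := orb_le (L := L) hC
  haveI := rt_finite hC
  haveI : Finite (Orb V L Ω') := Quotient.finite _
  have hr1 : 0 < Nat.card (Orb V L Ω') := by
    haveI : Nonempty (Orb V L Ω') := ⟨Quotient.mk _ ⟨a, hC.root_a⟩⟩
    exact Nat.card_pos
  have hr3 : Nat.card (Orb V L Ω') ≤ 3 := by
    haveI : Fintype (Rt V Ω') := Fintype.ofFinite _
    rw [← rt_card hC, ← Nat.card_eq_fintype_card]
    exact Nat.card_le_card_of_surjective (Quotient.mk (orb V L Ω')) Quotient.mk_surjective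
  set r := Nat.card (Orb V L Ω') with hr
  set f := Nat.card {e : Rt V Ω' // ∀ σ : Ω' ≃ₐ[L] Ω', mv σ e = e} with hf
  set t := Nat.card (Two (Multiplicative (Pt V L))) with ht
  have c5 : 2 ^ (r - 1) ≤ t := by
    interval_cases r
    · show 1 ≤ t; omega
    · show 2 ≤ t; omega
    · show 4 ≤ t; omega
  set D := (DD (L := L) hC).index with hDD
  set Q := (Sqr Lˣ).index with hQ
  set E := (Sqr (Multiplicative (Pt V L))).index with hE
  rw [← h1] at k2
  have h4 : (4 : ℕ) ^ r = 4 * 2 ^ (r - 1) * 2 ^ (r - 1) := by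
    obtain ⟨k, hk⟩ : ∃ k, r = k + 1 := ⟨r - 1, by omega⟩
    rw [hk, Nat.add_sub_cancel, pow_succ]
    have : (4 : ℕ) ^ k = 2 ^ k * 2 ^ k := by
      rw [← mul_pow]; rfl
    rw [this]; ring
  have hpos : 0 < 2 ^ (r - 1) := by positivity
  split_ifs at c1 c2 k2 ⊢ with hp
  · have h5 : 8 * (2 * 2 ^ (r - 1)) ≤ Q * E :=
      Nat.mul_le_mul c1 ((Nat.mul_le_mul_left 2 c5).trans c2)
    have h6 : D * (8 * (2 * 2 ^ (r - 1))) ≤ D * (Q * E) := Nat.mul_le_mul_left _ h5
    have h7 := h6.trans k2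
    rw [h4] at h7
    have h8 : (8 * (2 * 2 ^ (r - 1))) * D ≤ (8 * (2 * 2 ^ (r - 1))) * (2 ^ (r - 1) * 2) := by
      calc (8 * (2 * 2 ^ (r - 1))) * D = D * (8 * (2 * 2 ^ (r - 1))) := by ring
        _ ≤ 4 * 2 ^ (r - 1) * 2 ^ (r - 1) * 8 := h7
        _ = (8 * (2 * 2 ^ (r - 1))) * (2 ^ (r - 1) * 2) := by ring
    exact Nat.le_of_mul_le_mul_left h8 (by positivity)
  · have h5 : 4 * 2 ^ (r - 1) ≤ Q * E :=
      Nat.mul_le_mul c1 (c5.trans (by rw [one_mul] at c2; exact c2))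
    have h6 : D * (4 * 2 ^ (r - 1)) ≤ D * (Q * E) := Nat.mul_le_mul_left _ h5
    have h7 := h6.trans k2
    rw [h4] at h7
    have h8 : (4 * 2 ^ (r - 1)) * D ≤ (4 * 2 ^ (r - 1)) * (2 ^ (r - 1) * 1) := by
      calc (4 * 2 ^ (r - 1)) * D = D * (4 * 2 ^ (r - 1)) := by ring
        _ ≤ 4 * 2 ^ (r - 1) * 2 ^ (r - 1) * 1 := h7
        _ = (4 * 2 ^ (r - 1)) * (2 ^ (r - 1) * 1) := by ring
    exact Nat.le_of_mul_le_mul_left h8 (by positivity)

end

end Pool.Agent.R425.G
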