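import Pool.Agent.R425.G.Pl
import Pool.Agent.R425.G.Ld
import Pool.Agent.R425.G.Lp
import Pool.Agent.TeamU.B1
import Pool.Agent.Y355.G.Desc

/-!
# The cubic field: units and places
-/

set_option autoImplicit false
set_option linter.all false

open NumberField IsDedekindDomain WithZero WeierstrassCurve WeierstrassCurve.Affine
open scoped NNReal Classical

namespace Pool.Agent.R425.G

open Pool.Agent.TH115.GD
open Pool.Agent.TeamU (SU su_fg su_rank index_sq)

section units

variable {M : Type} [Field M] [NumberField M]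

theorem su_idx (S : Finset (HeightOneSpectrum (𝓞 M))) :
    (Sqr (SU S)).index = 2 ^ (Units.rank M + S.card) * Nat.card (Two (SU S)) := by
  haveI := su_fg S
  rw [← su_rank S]
  exact index_sq (SU S)

theorem two_su (S : Finset (HeightOneSpectrum (𝓞 M))) : Nat.card (Two (SU S)) = 2 := by
  have key : ∀ x : Two (SU S), ((x.1 : SU S) : Mˣ) = 1 ∨ ((x.1 : SU S) : Mˣ) = -1 := by
    intro x
    have h1 := x.2
    rw [mem_two] at h1
    have h2 : (((x.1 : SU S) : Mˣ) : M) ^ 2 = 1 ^ 2 := by
      have := congrArg (fun z : SU S => (((z : Mˣ)) : M)) h1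
      rw [one_pow]
      exact this
    rcases sq_eq_sq_iff_eq_or_eq_neg.1 h2 with h3 | h3
    · exact Or.inl (Units.ext h3)
    · exact Or.inr (Units.ext (by rw [h3]; rfl))
  have hinj : Function.Injective (fun x : Two (SU S) => (decide (((x.1 : SU S) : Mˣ) = 1) : Bool)) := by
    intro x y h
    simp only at h
    rw [decide_eq_decide] at h
    apply Subtype.ext
    apply Subtype.ext
    rcases key x with h1 | h1
    · rw [h1, h.1 h1]
    · rcases key y with h2 | h2
      · rw [h2, h.2 h2]
      · rw [h1, h2]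
  haveI : Finite (Two (SU S)) := Finite.of_injective _ hinj
  apply le_antisymm
  · have := Nat.card_le_card_of_injective _ hinj
    simpa using this
  · have hm1 : (-1 : Mˣ) ∈ SU S := by
      intro v _
      show v.valuation M (((-1 : Mˣ)) : M) = 1
      rw [Units.val_neg, Units.val_one, Valuation.map_neg, map_one]
    have h1 : (⟨-1, hm1⟩ : SU S) ∈ Two (SU S) := by
      rw [mem_two]
      apply Subtype.ext
      show (-1 : Mˣ) ^ 2 = 1
      rw [neg_one_sq]
    have hne : (1 : Two (SU S)) ≠ ⟨⟨-1, hm1⟩, h1⟩ := by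
      intro h
      have h2 := congrArg (fun z : Two (SU S) => (((z.1 : SU S) : Mˣ) : M)) h
      have h3 : (1 : M) = -1 := h2
      have h4 : (2 : M) = 0 := by linear_combination h3
      exact two_ne_zero h4
    haveI : Fintype (Two (SU S)) := Fintype.ofFinite _
    rw [Nat.card_eq_fintype_card]
    exact Fintype.one_lt_card_iff.2 ⟨_, _, hne⟩

theorem rank_Q : Units.rank ℚ = 0 := by
  have h1 := InfinitePlace.card_add_two_mul_card_eq_rank ℚ
  have h2 := InfinitePlace.card_eq_nrRealPlaces_add_nrComplexPlaces ℚ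
  rw [Module.finrank_self] at h1
  unfold Units.rank
  omega

theorem rank_cubic (h : Module.finrank ℚ M = 3) : 1 ≤ Units.rank M := by
  have h1 := InfinitePlace.card_add_two_mul_card_eq_rank M
  have h2 := InfinitePlace.card_eq_nrRealPlaces_add_nrComplexPlaces M
  rw [h] at h1
  unfold Units.rank
  omega

end units

section cf

theorem ft_conv {A : Type} [Field A] (i j : Algebra ℚ A) (h : @Module.finrank ℚ A _ _ i.toModule = 3) :
    @Module.finrank ℚ A _ _ j.toModule = 3 := by
  have : i = j := Subsingleton.elim _ _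
  rw [← this]
  exact h

theorem adj_conv {A : Type} [Field A] (i j : Algebra ℚ A) {θ : A}
    (h : @Algebra.adjoin ℚ A _ _ i {θ} = ⊤) : @Algebra.adjoin ℚ A _ _ j {θ} = ⊤ := by
  have : i = j := Subsingleton.elim _ _
  subst this
  exact h

theorem cub_conv {A : Type} [Field A] (i j : Algebra ℚ A) {V : WeierstrassCurve ℚ} {θ : A}
    (h : @cub ℚ _ V A _ i θ = 0) : @cub ℚ _ V A _ j θ = 0 := by
  have : i = j := Subsingleton.elim _ _
  subst this
  exact h

theorem exists_cf {V : WeierstrassCurve ℚ} (hV : IV V) (hnr : ∀ x : ℚ, cub V x ≠ 0) :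
    ∃ (A : Type) (_ : Field A) (_ : NumberField A) (θ : A), CF V A θ := by
  obtain ⟨a, b, c, hC⟩ := Y355.G.V_roots hV.a1 hV.a3 hV.Δ (AlgebraicClosure ℚ)
  have ha := hC.root_a
  have hint : _root_.IsIntegral ℚ a := Algebra.IsIntegral.isIntegral a
  have h1 : FiniteDimensional ℚ (IntermediateField.adjoin ℚ {a}) :=
    IntermediateField.adjoin.finiteDimensional hint
  have h3' : Module.finrank ℚ (IntermediateField.adjoin ℚ {a}) = 3 := by
    rw [IntermediateField.adjoin.finrank hint]
    obtain ⟨hd, hm⟩ := cubP_deg (W := V) (F := ℚ)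
    have h2 : cubP V ℚ = minpoly ℚ a := by
      refine minpoly.eq_of_irreducible_of_monic (cubP_irr (K := ℚ) (F := ℚ) hnr) ?_ hm
      rw [cubP_aeval]
      exact ha
    rw [← h2, hd]
  have hmem : a ∈ IntermediateField.adjoin ℚ {a} :=
    IntermediateField.subset_adjoin _ _ (Set.mem_singleton _)
  have hgen : Algebra.adjoin ℚ {(⟨a, hmem⟩ : IntermediateField.adjoin ℚ {a})} = ⊤ := by
    have h5 := (IntermediateField.adjoin.powerBasis hint).adjoin_gen_eq_top
    exact h5
  letI hNF : NumberField (IntermediateField.adjoin ℚ {a}) :=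
    @NumberField.of_module_finite ℚ _ _ _ _ (IntermediateField.adjoin ℚ {a}).algebra' h1
  refine ⟨IntermediateField.adjoin ℚ {a}, inferInstance, hNF, ⟨a, hmem⟩, ⟨?_, ?_, ?_⟩⟩
  · refine cub_conv (IntermediateField.adjoin ℚ {a}).algebra' _ ?_
    apply Subtype.ext
    have := cub_map V ((IntermediateField.adjoin ℚ {a}).val) ⟨a, hmem⟩
    exact this.symm.trans ha
  · exact ft_conv _ _ h3'
  · exact adj_conv _ _ hgen

theorem IV.int {V : WeierstrassCurve ℚ} (hV : IV V) {A : Type} [Field A] [NumberField A] {θ : A}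
    (h : cub V θ = 0) : _root_.IsIntegral ℤ θ := by
  obtain ⟨x, hx⟩ := hV.a2
  obtain ⟨y, hy⟩ := hV.a4
  obtain ⟨z, hz⟩ := hV.a6
  refine ⟨Polynomial.X ^ 3 + Polynomial.C x * Polynomial.X ^ 2 + Polynomial.C y * Polynomial.X +
    Polynomial.C z, ?_, ?_⟩
  · monicity!
  · simp only [Polynomial.eval₂_add, Polynomial.eval₂_mul, Polynomial.eval₂_pow,
      Polynomial.eval₂_X, Polynomial.eval₂_C]
    unfold cub at h
    rw [hx, hy, hz, map_intCast, map_intCast, map_intCast] at h
    simpa using h

end cf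

end Pool.Agent.R425.G
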