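import Pool.Agent.R425.G.Cn1

/-!
# The pigeonhole principle
-/

set_option autoImplicit false
set_option linter.all false

open NumberField IsDedekindDomain WithZero WeierstrassCurve WeierstrassCurve.Affine
open scoped NNReal Classical

namespace Pool.Agent.R425.G

open Pool.Agent.TH115.GD
open Pool.Agent.TeamU (SU su_fg su_rank index_sq)
open Pool.Agent.Y710.CV (Cond)

section tf

theorem tf_finite (A : Type) [Field A] [NumberField A] {D : ℤ} (hD : D ≠ 0) :
    {u : HeightOneSpectrum (𝓞 A) | ((D : ℤ) : 𝓞 A) ∈ u.asIdeal}.Finite := by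
  have h0 : Ideal.span {((D : ℤ) : 𝓞 A)} ≠ 0 := by
    rw [Ne, Ideal.zero_eq_bot, Ideal.span_singleton_eq_bot]
    exact_mod_cast hD
  refine (Ideal.finite_factors h0).subset fun u hu => ?_
  rw [Set.mem_setOf_eq, Ideal.dvd_span_singleton]
  exact hu

/-- the places over a number -/
noncomputable def TF (A : Type) [Field A] [NumberField A] (D : ℤ) (hD : D ≠ 0) :
    Finset (HeightOneSpectrum (𝓞 A)) := (tf_finite A hD).toFinset

theorem mem_TF {A : Type} [Field A] [NumberField A] {D : ℤ} {hD : D ≠ 0}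
    {u : HeightOneSpectrum (𝓞 A)} : u ∈ TF A D hD ↔ ((D : ℤ) : 𝓞 A) ∈ u.asIdeal := by
  rw [TF, Set.Finite.mem_toFinset]
  rfl

theorem not_both {A : Type} [Field A] [NumberField A] {u : HeightOneSpectrum (𝓞 A)} {q : ℕ}
    (hq : q.Prime) {D : ℤ} (h1 : ((q : ℕ) : 𝓞 A) ∈ u.asIdeal) (h2 : ((D : ℤ) : 𝓞 A) ∈ u.asIdeal) :
    (q : ℤ) ∣ D := by
  by_contra hcon
  have hco : IsCoprime (q : ℤ) D :=
    (Prime.coprime_iff_not_dvd (Nat.prime_iff_prime_int.1 hq)).2 hcon
  obtain ⟨a, b, hab⟩ := hco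
  apply u.isPrime.ne_top
  rw [Ideal.eq_top_iff_one]
  have e : (1 : 𝓞 A) = (a : 𝓞 A) * ((q : ℕ) : 𝓞 A) + (b : 𝓞 A) * ((D : ℤ) : 𝓞 A) := by
    have := congrArg (fun z : ℤ => (z : 𝓞 A)) hab
    push_cast at this
    exact this.symm
  rw [e]
  exact u.asIdeal.add_mem (u.asIdeal.mul_mem_left _ h1) (u.asIdeal.mul_mem_left _ h2)

theorem mem_TFQ {D : ℤ} {hD : D ≠ 0} {p : HeightOneSpectrum (𝓞 ℚ)} :
    p ∈ TF ℚ D hD ↔ (ng p : ℤ) ∣ D := by
  rw [mem_TF, mem_iff]

theorem ng_inj {p p' : HeightOneSpectrum (𝓞 ℚ)} (h : ng p = ng p') : p = p' := by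
  apply HeightOneSpectrum.ext
  rw [ng_span p, ng_span p', h]

theorem exists_ng {l : ℕ} (hl : l.Prime) : ∃ p : HeightOneSpectrum (𝓞 ℚ), ng p = l := by
  refine ⟨Rat.HeightOneSpectrum.primesEquiv.symm ⟨l, hl⟩, ?_⟩
  have := Rat.HeightOneSpectrum.primesEquiv.apply_symm_apply
    (⟨l, hl⟩ : Nat.Primes) (α := HeightOneSpectrum (𝓞 ℚ))
  exact congrArg Subtype.val this

end tf

section val

variable {V : WeierstrassCurve ℚ} {A : Type} [Field A] [NumberField A] {θ : A} (h : CF V A θ)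

theorem gal_p (p : HeightOneSpectrum (𝓞 ℚ)) :
    IsGalois (p.adicCompletion ℚ) (AlgebraicClosure (p.adicCompletion ℚ)) := by
  haveI : CharZero (p.adicCompletion ℚ) := algebraRat.charZero _
  infer_instance

/-- the norm of the units -/
noncomputable def nrm (A : Type) [Field A] [NumberField A] : Aˣ →* ℚˣ := Units.map (Algebra.norm ℚ)

/-- the rational numbers -/
noncomputable def io (A : Type) [Field A] [NumberField A] : ℚˣ →* Aˣ :=
  Units.map (algebraMap ℚ A : ℚ →* A)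

include h in
theorem nrm_mem (hV : IV V) {D : ℤ} (hD : D ≠ 0) {z : Aˣ} (hz : z ∈ SU (TF A D hD)) :
    nrm A z ∈ SU (TF ℚ D hD) := by
  intro p hp
  show p.valuation ℚ (Algebra.norm ℚ (z : A)) = 1
  obtain ⟨w, hσ, hL, hfour⟩ := exists_ld p
  haveI := gal_p p
  obtain ⟨a, b, c, hC⟩ := Y355.G.V_roots hV.a1 hV.a3 hV.Δ (AlgebraicClosure (p.adicCompletion ℚ))
  obtain ⟨wp1, wp0⟩ := w_alg w hL
  apply hfour
  rw [norm_em h hC, map_mul, map_mul]
  have key : ∀ e : Rt V (AlgebraicClosure (p.adicCompletion ℚ)), w (em h e (z : A)) = 1 := by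
    intro e
    apply plc_one w (em h e : A →+* _) hL.pr.ne_zero wp1
    apply hz
    intro hmem
    have h1 := q_mem_plc w (em h e : A →+* _) hL.pr.ne_zero wp1
    have h2 := not_both (ng_prime p) h1 (mem_TF.1 hmem)
    exact hp (mem_TFQ.2 h2)
  rw [key, key, key, one_mul, one_mul]

theorem io_mem {D : ℤ} (hD : D ≠ 0) {r : ℚˣ} (hr : r ∈ SU (TF ℚ D hD)) :
    io A r ∈ SU (TF A D hD) := by
  intro u hu
  show u.valuation A (algebraMap ℚ A (r : ℚ)) = 1
  set p := u.under (𝓞 ℚ) with hp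
  haveI hlo : u.asIdeal.LiesOver p.asIdeal := ⟨rfl⟩
  rw [← HeightOneSpectrum.valuation_liesOver (A := 𝓞 ℚ) A p u (r : ℚ)]
  rw [hr p, one_pow]
  intro hmem
  apply hu
  rw [Finset.mem_coe, mem_TF] at hmem ⊢
  have h3 : algebraMap (𝓞 ℚ) (𝓞 A) ((D : ℤ) : 𝓞 ℚ) ∈ u.asIdeal := hmem
  rwa [map_intCast] at h3

theorem sqr_sub {G : Type} [CommGroup G] (K : Subgroup G) :
    (Sqr K).index = (SqrH K).relIndex K := by
  have e1 : Sqr K = (SqrH K).subgroupOf K := by
    ext x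
    constructor
    · rintro ⟨y, rfl⟩
      exact ⟨y.1, y.2, rfl⟩
    · rintro ⟨y, hy, hyx⟩
      exact ⟨⟨y, hy⟩, Subtype.ext hyx⟩
  rw [e1]
  rfl

/-- the number of the places -/
theorem card_T {D0 : ℤ} (hD0 : D0 ≠ 0) {l : ℕ} (hl : l.Prime) (hlD : ¬ (l : ℤ) ∣ D0)
    (hD : D0 * l ≠ 0) :
    (∑ p ∈ TF ℚ D0 hD0, (Tq A (ng p)).ncard) + (Tq A l).ncard ≤ (TF A (D0 * l) hD).card := by
  obtain ⟨lam, hlam⟩ := exists_ng hl
  set F : HeightOneSpectrum (𝓞 ℚ) → Finset (HeightOneSpectrum (𝓞 A)) := fun p =>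
    (tq_finite (A := A) (ng_prime p).ne_zero).toFinset with hF
  have hFc : ∀ p, (F p).card = (Tq A (ng p)).ncard := fun p =>
    (Set.ncard_eq_toFinset_card _ (tq_finite (A := A) (ng_prime p).ne_zero)).symm
  have hmF : ∀ p u, u ∈ F p ↔ ((ng p : ℕ) : 𝓞 A) ∈ u.asIdeal := by
    intro p u
    rw [hF]
    simp only [Set.Finite.mem_toFinset]
    rfl
  have hlam0 : lam ∉ TF ℚ D0 hD0 := by
    rw [mem_TFQ, hlam]
    exact hlD
  have hdis : (↑(insert lam (TF ℚ D0 hD0)) : Set (HeightOneSpectrum (𝓞 ℚ))).PairwiseDisjoint F := by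
    intro p _ p' _ hne
    rw [Function.onFun, Finset.disjoint_left]
    intro u hu hu'
    rw [hmF] at hu hu'
    apply hne
    apply ng_inj
    have h1 := not_both (ng_prime p) (D := (ng p' : ℤ)) hu (by exact_mod_cast hu')
    have h2 : ng p ∣ ng p' := by exact_mod_cast h1
    exact (Nat.prime_dvd_prime_iff_eq (ng_prime p) (ng_prime p')).1 h2
  have hsub : (insert lam (TF ℚ D0 hD0)).biUnion F ⊆ TF A (D0 * l) hD := by
    intro u hu
    rw [Finset.mem_biUnion] at hu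
    obtain ⟨p, hp, hu⟩ := hu
    rw [hmF] at hu
    rw [mem_TF]
    have hdvd : (ng p : ℤ) ∣ D0 * l := by
      rcases Finset.mem_insert.1 hp with rfl | hp
      · rw [hlam]; exact dvd_mul_left _ _
      · exact (mem_TFQ.1 hp).mul_right _
    obtain ⟨k, hk⟩ := hdvd
    rw [hk]
    push_cast
    exact u.asIdeal.mul_mem_right _ hu
  have h1 := Finset.card_le_card hsub
  rw [Finset.card_biUnion hdis, Finset.sum_insert hlam0] at h1
  simp only [hFc, hlam] at h1
  omega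

end val

section main

variable {V : WeierstrassCurve ℚ} {A : Type} [Field A] [NumberField A] {θ : A} (h : CF V A θ)

include h in
theorem exists_z (hV : IV V) {D0 : ℤ} (hD0 : D0 ≠ 0) {l : ℕ} (hl : l.Prime)
    (hlD : ¬ (l : ℤ) ∣ D0) (hr : 2 ≤ (Tq A l).ncard) (hD : D0 * l ≠ 0) :
    ∃ z : Aˣ, (∃ r : ℚ, r ≠ 0 ∧ Algebra.norm ℚ (z : A) = r ^ 2) ∧ (¬ ∃ s : A, (z : A) = s ^ 2) ∧
      (∀ u : HeightOneSpectrum (𝓞 A), ((D0 * l : ℤ) : 𝓞 A) ∉ u.asIdeal → u.valuation A (z : A) = 1) ∧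
      ∀ p : HeightOneSpectrum (𝓞 ℚ), (ng p : ℤ) ∣ D0 →
        Cond (p.adicCompletion ℚ) (AlgebraicClosure (p.adicCompletion ℚ)) V θ (z : A) := by
  have hθ : _root_.IsIntegral ℤ θ := hV.int h.root
  have hroots := fun p : HeightOneSpectrum (𝓞 ℚ) =>
    Y355.G.V_roots hV.a1 hV.a3 hV.Δ (AlgebraicClosure (p.adicCompletion ℚ))
  choose a b c hC using hroots
  haveI hgal := gal_p
  set S0 := TF ℚ D0 hD0 with hS0
  set S := TF ℚ (D0 * l) hD with hS
  set T := TF A (D0 * l) hD with hT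
  set G := SU T with hG
  set C : S0 → Subgroup Aˣ := fun p => (DD (L := p.1.adicCompletion ℚ) (hC p.1)).comap
    (lo h (p.1.adicCompletion ℚ) (AlgebraicClosure (p.1.adicCompletion ℚ))) with hCdef
  set r : HeightOneSpectrum (𝓞 ℚ) → ℕ := fun p =>
    Nat.card (Orb V (p.adicCompletion ℚ) (AlgebraicClosure (p.adicCompletion ℚ))) with hrdef
  have hCidx : ∀ p : S0, (C p).relIndex G ≠ 0 ∧
      (C p).relIndex G ≤ 2 ^ (r p.1 - 1) * (if ng p.1 = 2 then 2 else 1) := by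
    intro p
    obtain ⟨w, hσ, hL, hfour⟩ := exists_ld p.1
    obtain ⟨k1, k2⟩ := lp w hσ (hC p.1) hL hV
    have h1 : (C p).relIndex G ∣ (DD (L := p.1.adicCompletion ℚ) (hC p.1)).index := by
      rw [hCdef, Subgroup.relIndex_comap]
      exact Subgroup.relIndex_dvd_index_of_normal _ _
    exact ⟨fun h0 => k1 (by rw [h0] at h1; exact Nat.eq_zero_of_zero_dvd h1),
      (Nat.le_of_dvd (Nat.pos_of_ne_zero k1) h1).trans k2⟩
  have hr1 : ∀ p : HeightOneSpectrum (𝓞 ℚ), 1 ≤ r p ∧ r p ≤ (Tq A (ng p)).ncard := by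
    intro p
    obtain ⟨w, hσ, hL, hfour⟩ := exists_ld p
    refine ⟨?_, orb_le_tq h w (hC p) hL hθ⟩
    haveI := rt_finite (hC p)
    haveI : Finite (Orb V (p.adicCompletion ℚ) (AlgebraicClosure (p.adicCompletion ℚ))) :=
      Quotient.finite _
    haveI : Nonempty (Orb V (p.adicCompletion ℚ) (AlgebraicClosure (p.adicCompletion ℚ))) :=
      ⟨Quotient.mk _ ⟨a p, (hC p).root_a⟩⟩
    exact Nat.card_pos
  set I : Subgroup Aˣ := ⨅ p : S0, C p with hI
  have hI0 : I.relIndex G ≠ 0 := Subgroup.relIndex_iInf_ne_zero fun p => (hCidx p).1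
  have hIle : I.relIndex G ≤ 2 ^ (∑ p ∈ S0, (r p - 1)) * 2 := by
    refine (Subgroup.relIndex_iInf_le _).trans ?_
    refine (Finset.prod_le_prod' fun p _ => (hCidx p).2).trans ?_
    rw [Finset.prod_mul_distrib, Finset.prod_coe_sort S0 (fun p => 2 ^ (r p - 1)),
      Finset.prod_coe_sort S0 (fun p => (if ng p = 2 then 2 else 1 : ℕ)),
      Finset.prod_pow_eq_pow_sum]
    apply Nat.mul_le_mul_left
    rw [Finset.prod_ite, Finset.prod_const, Finset.prod_const_one, mul_one]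
    have h1 : (S0.filter (fun p => ng p = 2)).card ≤ 1 := by
      rw [Finset.card_le_one]
      intro p hp p' hp'
      rw [Finset.mem_filter] at hp hp'
      exact ng_inj (hp.2.trans hp'.2.symm)
    calc 2 ^ (S0.filter (fun p => ng p = 2)).card ≤ 2 ^ 1 := Nat.pow_le_pow_right (by norm_num) h1
      _ = 2 := rfl
  -- the subgroup of the squares and of the rational numbers
  set Q : Subgroup Aˣ := (SU S).map (io A) with hQ
  have hQG : Q ≤ G := by
    rintro _ ⟨x, hx, rfl⟩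
    exact io_mem hD hx
  set B : Subgroup Aˣ := SqrH G ⊔ Q with hB
  have hBG : B ≤ G := sup_le (sqrH_le G) hQG
  have hX : (SqrH G).relIndex G = 2 ^ (Units.rank A + T.card) * 2 := by
    rw [← sqr_sub, su_idx, two_su]
  have hX1 : (SqrH G).relIndex B * B.relIndex G = (SqrH G).relIndex G :=
    Subgroup.relIndex_mul_relIndex _ _ _ le_sup_left hBG
  have hX2 : (SqrH G).relIndex B ≤ 2 ^ (S.card + 1) := by
    have e1 : (SqrH G).relIndex B = (SqrH G).relIndex Q := by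
      rw [hB, Subgroup.relIndex_sup_left]
    have e2 : (SqrH G).relIndex Q ∣ (SqrH (SU S)).relIndex (SU S) := by
      rw [hQ, ← Subgroup.relIndex_comap]
      apply Subgroup.relIndex_dvd_of_le_left
      rintro _ ⟨x, hx, rfl⟩
      exact ⟨io A x, io_mem hD hx, by
        show (io A x) ^ 2 = io A (x ^ 2)
        rw [map_pow]⟩
    have e3 : (SqrH (SU S)).relIndex (SU S) = 2 ^ (S.card + 1) := by
      rw [← sqr_sub, su_idx, two_su, rank_Q, zero_add, pow_succ]
    rw [e1]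
    rw [e3] at e2
    exact Nat.le_of_dvd (by positivity) e2
  -- the pigeonhole principle
  have hmain : ∃ z ∈ G, z ∈ I ∧ z ∉ B := by
    by_contra hcon
    push Not at hcon
    have hle : I ⊓ G ≤ B := fun z hz => hcon z hz.2 hz.1
    have h1 : B.relIndex G ∣ I.relIndex G := by
      have := Subgroup.relIndex_dvd_of_le_left G hle
      rwa [Subgroup.inf_relIndex_right] at this
    have h2 : B.relIndex G ≤ 2 ^ (∑ p ∈ S0, (r p - 1)) * 2 :=
      (Nat.le_of_dvd (Nat.pos_of_ne_zero hI0) h1).trans hIle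
    have h3 : (SqrH G).relIndex G ≤ 2 ^ (S.card + 1) * (2 ^ (∑ p ∈ S0, (r p - 1)) * 2) := by
      rw [← hX1]
      exact Nat.mul_le_mul hX2 h2
    rw [hX] at h3
    have hrk := rank_cubic h.deg
    have hT1 : (∑ p ∈ S0, (Tq A (ng p)).ncard) + (Tq A l).ncard ≤ T.card :=
      card_T (A := A) hD0 hl hlD hD
    have hsum : ∑ p ∈ S0, (r p - 1) + S0.card = ∑ p ∈ S0, r p := by
      rw [Finset.card_eq_sum_ones, ← Finset.sum_add_distrib]
      refine Finset.sum_congr rfl fun p _ => ?_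
      have := (hr1 p).1
      omega
    have hsum2 : ∑ p ∈ S0, r p ≤ ∑ p ∈ S0, (Tq A (ng p)).ncard :=
      Finset.sum_le_sum fun p _ => (hr1 p).2
    have hScard : S.card ≤ S0.card + 1 := by
      obtain ⟨lam, hlam⟩ := exists_ng hl
      have : S ⊆ insert lam S0 := by
        intro p hp
        rw [hS, mem_TFQ] at hp
        rw [Finset.mem_insert]
        rcases (Nat.prime_iff_prime_int.1 (ng_prime p)).dvd_or_dvd hp with h4 | h4
        · right; rw [hS0, mem_TFQ]; exact h4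
        · left
          apply ng_inj
          rw [hlam]
          have h5 : ng p ∣ l := by exact_mod_cast h4
          exact (Nat.prime_dvd_prime_iff_eq (ng_prime p) hl).1 h5
      exact (Finset.card_le_card this).trans (Finset.card_insert_le _ _)
    have h4 : 2 ^ (Units.rank A + T.card) * 2 = 2 ^ (Units.rank A + T.card + 1) := by
      rw [pow_succ]
    have h5 : 2 ^ (S.card + 1) * (2 ^ (∑ p ∈ S0, (r p - 1)) * 2) =
        2 ^ (S.card + 1 + (∑ p ∈ S0, (r p - 1) + 1)) := by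
      rw [pow_add 2 (S.card + 1) (∑ p ∈ S0, (r p - 1) + 1), pow_succ 2 (∑ p ∈ S0, (r p - 1))]
    rw [h4, h5] at h3
    have h6 := (Nat.pow_le_pow_iff_right (by norm_num : 1 < 2)).1 h3
    omega
  obtain ⟨z, hzG, hzI, hzB⟩ := hmain
  set N : ℚˣ := nrm A z with hN
  have hNS : N ∈ SU S := nrm_mem h hV hD hzG
  have hNval : (N : ℚ) = Algebra.norm ℚ (z : A) := rfl
  refine ⟨z * io A N, ⟨(N : ℚ) ^ 2, pow_ne_zero 2 N.ne_zero, ?_⟩, ?_, ?_, ?_⟩
  · rw [Units.val_mul, map_mul]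
    have e1 : ((io A N : Aˣ) : A) = algebraMap ℚ A (N : ℚ) := rfl
    rw [e1, Algebra.norm_algebraMap, h.deg, ← hNval]
    ring
  · rintro ⟨s, hs⟩
    apply hzB
    have hs0 : s ≠ 0 := by
      rintro rfl
      rw [zero_pow two_ne_zero] at hs
      exact (z * io A N).ne_zero hs
    have hzN : z * io A N = (Units.mk0 s hs0) ^ 2 := Units.ext (by rw [hs]; rfl)
    have hsG : Units.mk0 s hs0 ∈ G := by
      intro u hu
      have h1 : z * io A N ∈ G := G.mul_mem hzG (io_mem hD hNS)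
      have h2 := h1 u hu
      rw [hzN] at h2
      have h3 : u.valuation A (((Units.mk0 s hs0) ^ 2 : Aˣ) : A) = 1 := h2
      rw [Units.val_pow_eq_pow_val, map_pow] at h3
      exact (pow_eq_one_iff_of_nonneg zero_le' (by norm_num)).1 h3
    have hz : z = (Units.mk0 s hs0) ^ 2 * io A N⁻¹ := by
      rw [map_inv, ← hzN, mul_inv_cancel_right]
    rw [hz]
    exact Subgroup.mul_mem_sup ⟨_, hsG, rfl⟩ ⟨N⁻¹, (SU S).inv_mem hNS, rfl⟩
  · intro u hu
    have h1 : z * io A N ∈ G := G.mul_mem hzG (io_mem hD hNS)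
    exact h1 u (by
      intro hmem
      exact hu (mem_TF.1 hmem))
  · intro p hp
    have hzC : z ∈ C ⟨p, mem_TFQ.2 hp⟩ := (Subgroup.mem_iInf.1 hzI) _
    have hD1 := (mem_DD (L := p.adicCompletion ℚ) (hC p)).1 hzC
    obtain ⟨η, d, P, hη⟩ := hD1
    have hη' : ∀ e, em h e (z : A) = (η.1 e : AlgebraicClosure (p.adicCompletion ℚ)) ^ 2 *
      algebraMap _ _ (d : p.adicCompletion ℚ) * kpf P e := hη
    obtain ⟨y1, hy1⟩ := prod_fixed (hC p) η
    obtain ⟨y2, hy2⟩ := kp_norm (hC p) P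
    set Ω' := AlgebraicClosure (p.adicCompletion ℚ) with hΩ'
    set ι := algebraMap (p.adicCompletion ℚ) Ω' with hι
    have hnorm : algebraMap ℚ Ω' (N : ℚ) = (ι y1 * ι y2 * ι (d : p.adicCompletion ℚ)) ^ 2 *
        ι (d : p.adicCompletion ℚ) := by
      rw [hNval, norm_em h (hC p), hη', hη', hη', hy1]
      linear_combination (((η.1 ⟨a p, (hC p).root_a⟩ : Ω') * (η.1 ⟨b p, (hC p).root_b⟩) *
        (η.1 ⟨c p, (hC p).root_c⟩)) ^ 2 * ι (d : p.adicCompletion ℚ) ^ 3) * hy2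
    refine ⟨act V (incl ℚ (p.adicCompletion ℚ) Ω') P, fun σ => rs_act_incl V σ P, fun φ => ?_⟩
    set e : Rt V Ω' := ⟨φ θ, root_em h φ⟩ with he
    refine ⟨(η.1 e : Ω') * (ι y1 * ι y2 * ι (d : p.adicCompletion ℚ)) *
      ι (d : p.adicCompletion ℚ), fun σ hσ => ?_, fun b' c' hC' => ?_⟩
    · have hmv : mv σ e = e := Subtype.ext hσ
      rw [map_mul, map_mul, map_mul, map_mul, equi, hmv, σ.commutes, σ.commutes, σ.commutes]
    · rw [em_uniq h e φ rfl, Units.val_mul, map_mul, hη' e]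
      have e1 : ((io A N : Aˣ) : A) = algebraMap ℚ A (N : ℚ) := rfl
      rw [e1, (em h e).commutes, hnorm, kpf_eq P e hC']
      ring

end main

end Pool.Agent.R425.G
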