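import Mathlib

/-!
# Herbrand quotients of the squaring map
-/

set_option autoImplicit false
set_option linter.all false

namespace Pool.Agent.R425.G

section mul

variable {G : Type*} [CommGroup G]

/-- the group of squares -/
def Sqr (G : Type*) [CommGroup G] : Subgroup G := (powMonoidHom 2 : G →* G).range

theorem mem_sqr {x : G} : x ∈ Sqr G ↔ ∃ y : G, y ^ 2 = x := Iff.rfl

/-- the squares of the elements of a subgroup -/
def SqrH (H : Subgroup G) : Subgroup G := H.map (powMonoidHom 2 : G →* G)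

theorem mem_sqrH {H : Subgroup G} {x : G} : x ∈ SqrH H ↔ ∃ y ∈ H, y ^ 2 = x := Iff.rfl

theorem sqrH_le (H : Subgroup G) : SqrH H ≤ H := by
  rintro x ⟨y, hy, rfl⟩
  exact H.pow_mem hy 2

theorem sqrH_top : SqrH (⊤ : Subgroup G) = Sqr G := by
  unfold SqrH Sqr
  rw [MonoidHom.range_eq_map]

theorem sqrH_le_sqr (H : Subgroup G) : SqrH H ≤ Sqr G := by
  rintro x ⟨y, hy, rfl⟩
  exact ⟨y, rfl⟩

/-- the elements killed by two -/
def Two (G : Type*) [CommGroup G] : Subgroup G := (powMonoidHom 2 : G →* G).ker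

theorem mem_two {x : G} : x ∈ Two G ↔ x ^ 2 = 1 := Iff.rfl

theorem herbrand1 (H : Subgroup G) [H.FiniteIndex] :
    (Sqr G).index = (SqrH H).relIndex H * H.relIndex (H ⊔ Two G) := by
  have h1 : (SqrH H).relIndex (Sqr G) * (Sqr G).index = (SqrH H).index :=
    Subgroup.relIndex_mul_index (sqrH_le_sqr H)
  have h2 : (SqrH H).relIndex H * H.index = (SqrH H).index :=
    Subgroup.relIndex_mul_index (sqrH_le H)
  have h3 : (SqrH H).relIndex (Sqr G) = (H ⊔ Two G).index := by
    have h := Subgroup.relIndex_map_map (powMonoidHom 2 : G →* G) H ⊤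
    rw [← Subgroup.relIndex_top_right (H ⊔ Two G)]
    have e : (⊤ : Subgroup G) ⊔ (powMonoidHom 2 : G →* G).ker = ⊤ := top_sup_eq _
    rw [e] at h
    rw [← sqrH_top]
    exact h
  have h4 : H.relIndex (H ⊔ Two G) * (H ⊔ Two G).index = H.index :=
    Subgroup.relIndex_mul_index le_sup_left
  have h5 : (H ⊔ Two G).index ≠ 0 := by
    intro h
    rw [h, mul_zero] at h4
    exact Subgroup.FiniteIndex.index_ne_zero h4.symm
  rw [h3] at h1
  rw [← h4] at h2
  apply Nat.eq_of_mul_eq_mul_left (Nat.pos_of_ne_zero h5)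
  rw [h1, ← h2]
  ring

theorem rel_two (H : Subgroup G) : H.relIndex (H ⊔ Two G) = H.relIndex (Two G) :=
  Subgroup.relIndex_sup_left (H := Two G) (K := H)

/-- the Herbrand quotient does not change, if there is no element of order two in `H` -/
theorem herbrand (H : Subgroup G) [H.FiniteIndex] (h2 : ∀ x ∈ H, x ^ 2 = 1 → x = 1) :
    (Sqr G).index = (SqrH H).relIndex H * Nat.card (Two G) := by
  rw [herbrand1 H, rel_two]
  congr 1
  have : H ⊓ Two G = ⊥ := by
    rw [eq_bot_iff]
    rintro x ⟨hx, hx2⟩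
    exact Subgroup.mem_bot.2 (h2 x hx hx2)
  rw [← Subgroup.inf_relIndex_right, this, Subgroup.relIndex_bot_left]

/-- the Herbrand quotient does not change, if all elements of order two are in `H` -/
theorem herbrand' (H : Subgroup G) [H.FiniteIndex] (h2 : ∀ x : G, x ^ 2 = 1 → x ∈ H) :
    (Sqr G).index = (SqrH H).relIndex H := by
  rw [herbrand1 H, rel_two]
  have : Two G ≤ H := fun x hx => h2 x hx
  rw [Subgroup.relIndex_eq_one.2 this, mul_one]

end mul

end Pool.Agent.R425.G
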