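import Pool.Agent.R425.G.Hb

/-!
# Indices of subgroups
-/

set_option autoImplicit false
set_option linter.all false

open scoped NNReal Classical

namespace Pool.Agent.R425.G

section mul

variable {G : Type*} [CommGroup G]

theorem idx_of_ker {T : Type*} [Group T] [Finite T] (f : G →* T) (A : Subgroup G)
    (h : f.ker ≤ A) : A.index ≠ 0 ∧ A.index ≤ Nat.card T := by
  have h1 : f.ker.index = Nat.card f.range := Subgroup.index_ker f
  have h2 : Nat.card f.range ≤ Nat.card T := Nat.card_le_card_of_injective _ Subtype.val_injective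
  have h3 : A.index ∣ f.ker.index := Subgroup.index_dvd_of_le h
  have h4 : f.ker.index ≠ 0 := by
    rw [h1]
    exact Nat.card_pos.ne'
  refine ⟨fun h5 => h4 ?_, (Nat.le_of_dvd (Nat.pos_of_ne_zero h4) h3).trans (h1 ▸ h2)⟩
  rw [h5] at h3
  exact Nat.eq_zero_of_zero_dvd h3

/-- the index of the squares in a lattice -/
theorem idx_lattice {ι : Type} [Fintype ι] (f : G →* Multiplicative (ι → ℤ)) :
    (Sqr G ⊔ f.ker).index ≠ 0 ∧ (Sqr G ⊔ f.ker).index ≤ 2 ^ Fintype.card ι := by
  set M : Submodule ℤ (ι → ℤ) := AddSubgroup.toIntSubmodule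
    (AddMonoidHom.range (MonoidHom.toAdditiveLeft f)) with hM
  have hmem : ∀ x : G, Multiplicative.toAdd (f x) ∈ M := fun x => ⟨Additive.ofMul x, rfl⟩
  have hmem' : ∀ m ∈ M, ∃ x : G, Multiplicative.toAdd (f x) = m := by
    rintro m ⟨x, hx⟩
    exact ⟨Additive.toMul x, hx⟩
  haveI : Module.Free ℤ M := inferInstance
  haveI : Module.Finite ℤ M := inferInstance
  set b := Module.finBasis ℤ M with hb
  have hk : Module.finrank ℤ M ≤ Fintype.card ι := by
    have := Submodule.finrank_le M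
    rwa [Module.finrank_fintype_fun_eq_card] at this
  let φ : G →* Multiplicative (Fin (Module.finrank ℤ M) → ZMod 2) :=
    { toFun := fun x => Multiplicative.ofAdd (fun i =>
        ((b.repr ⟨Multiplicative.toAdd (f x), hmem x⟩ i : ℤ) : ZMod 2))
      map_one' := by
        have e : (⟨Multiplicative.toAdd (f 1), hmem 1⟩ : M) = 0 := by
          apply Subtype.ext
          show Multiplicative.toAdd (f 1) = 0
          rw [map_one]; rfl
        rw [e]
        simp
        rfl
      map_mul' := by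
        intro x y
        have e : (⟨Multiplicative.toAdd (f (x * y)), hmem (x * y)⟩ : M) =
            ⟨Multiplicative.toAdd (f x), hmem x⟩ + ⟨Multiplicative.toAdd (f y), hmem y⟩ := by
          apply Subtype.ext
          show Multiplicative.toAdd (f (x * y)) = _
          rw [map_mul]; rfl
        rw [e, map_add, ← ofAdd_add]
        congr 1
        funext i
        simp }
  have hcard : Nat.card (Multiplicative (Fin (Module.finrank ℤ M) → ZMod 2)) =
      2 ^ Module.finrank ℤ M := by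
    rw [Nat.card_congr Multiplicative.toAdd, Nat.card_fun]
    simp
  have hker : φ.ker ≤ Sqr G ⊔ f.ker := by
    intro x hx
    have h1 : ∀ i, ((b.repr ⟨Multiplicative.toAdd (f x), hmem x⟩ i : ℤ) : ZMod 2) = 0 := fun i =>
      congrFun (congrArg Multiplicative.toAdd hx) i
    have h2 : ∀ i, ∃ c : ℤ, b.repr ⟨Multiplicative.toAdd (f x), hmem x⟩ i = 2 * c := by
      intro i
      have := (ZMod.intCast_zmod_eq_zero_iff_dvd _ 2).1 (h1 i)
      obtain ⟨c, hc⟩ := this
      exact ⟨c, by exact_mod_cast hc⟩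
    choose c hc using h2
    set m : M := ∑ i, c i • b i with hm
    have h3 : (⟨Multiplicative.toAdd (f x), hmem x⟩ : M) = (2 : ℤ) • m := by
      rw [← b.sum_repr ⟨Multiplicative.toAdd (f x), hmem x⟩, hm, Finset.smul_sum]
      refine Finset.sum_congr rfl fun i _ => ?_
      rw [hc, smul_smul]
    obtain ⟨y, hy⟩ := hmem' m m.2
    have h4 : f x = f y ^ 2 := by
      apply Multiplicative.toAdd.injective
      have := congrArg Subtype.val h3
      have h5 : Multiplicative.toAdd (f x) = (2 : ℤ) • (m : ι → ℤ) := this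
      rw [h5, ← hy, pow_two, toAdd_mul, two_smul]
    rw [Subgroup.mem_sup]
    refine ⟨y ^ 2, ⟨y, rfl⟩, (y ^ 2)⁻¹ * x, ?_, by group⟩
    rw [MonoidHom.mem_ker, map_mul, map_inv, map_pow, h4, inv_mul_cancel]
  obtain ⟨h1, h2⟩ := idx_of_ker φ _ hker
  refine ⟨h1, h2.trans ?_⟩
  rw [hcard]
  exact Nat.pow_le_pow_right (by norm_num) hk

/-- the relative form of the Herbrand quotient -/
theorem herbrand_rel {H K : Subgroup G} (hHK : H ≤ K) (hfin : H.relIndex K ≠ 0)
    (h2 : ∀ x ∈ H, x ^ 2 = 1 → x = 1) :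
    (SqrH K).relIndex K = (SqrH H).relIndex H * Nat.card (Two K) := by
  haveI : (H.subgroupOf K).FiniteIndex := ⟨hfin⟩
  have h := herbrand (H.subgroupOf K) (fun x hx hx2 => by
    apply Subtype.ext
    exact h2 x.1 hx (by
      have := congrArg Subtype.val hx2
      exact this))
  have e1 : Sqr K = (SqrH K).subgroupOf K := by
    ext x
    constructor
    · rintro ⟨y, rfl⟩
      exact ⟨y.1, y.2, rfl⟩
    · rintro ⟨y, hy, hyx⟩
      exact ⟨⟨y, hy⟩, Subtype.ext hyx⟩
  have e2 : SqrH (H.subgroupOf K) = (SqrH H).subgroupOf K := by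
    ext x
    constructor
    · rintro ⟨y, hy, rfl⟩
      exact ⟨y.1, hy, rfl⟩
    · rintro ⟨y, hy, hyx⟩
      exact ⟨⟨y, hHK hy⟩, hy, Subtype.ext hyx⟩
  rw [e1, e2, Subgroup.relIndex_subgroupOf hHK] at h
  exact h

/-- the index of the squares, by means of a subgroup that contains the square roots of its squares -/
theorem sqr_idx {E0 : Subgroup G} (h : ∀ x : G, x ^ 2 ∈ E0 → x ∈ E0) :
    (Sqr G).index = (SqrH E0).relIndex E0 * (Sqr G ⊔ E0).index := by
  have h1 : (Sqr G).relIndex (Sqr G ⊔ E0) * (Sqr G ⊔ E0).index = (Sqr G).index :=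
    Subgroup.relIndex_mul_index le_sup_left
  rw [← h1]
  congr 1
  rw [Subgroup.relIndex_sup_left, ← Subgroup.inf_relIndex_right]
  congr 1
  ext x
  constructor
  · rintro ⟨⟨y, rfl⟩, hx⟩
    exact ⟨y, h y hx, rfl⟩
  · rintro ⟨y, hy, rfl⟩
    exact ⟨⟨y, rfl⟩, E0.pow_mem hy 2⟩

theorem fi_of_map' (H K : Subgroup G) {T : Type*} [Finite T]
    (φ : K → T) (h : ∀ x y : K, φ x = φ y → (x : G) / y ∈ H) : H.relIndex K ≠ 0 := by
  have : Finite (K ⧸ H.subgroupOf K) := by
    refine Finite.of_injective (fun q : K ⧸ H.subgroupOf K => φ q.out) fun a b hab => ?_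
    have h1 := h _ _ hab
    have h2 : ((a.out : K) : K ⧸ H.subgroupOf K) = ((b.out : K) : K ⧸ H.subgroupOf K) := by
      rw [QuotientGroup.eq]
      have := H.inv_mem h1
      rw [inv_div, div_eq_mul_inv, mul_comm] at this
      exact this
    rwa [QuotientGroup.out_eq', QuotientGroup.out_eq'] at h2
  have h1 : (H.subgroupOf K).FiniteIndex := Subgroup.finiteIndex_of_finite_quotient
  exact h1.index_ne_zero

end mul

section add

variable {M : Type} [AddCommGroup M]

/-- the multiples of `n` -/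
def Mul (M : Type) [AddCommGroup M] (n : ℕ) : AddSubgroup M := (nsmulAddMonoidHom n : M →+ M).range

theorem mem_mul {n : ℕ} {x : M} : x ∈ Mul M n ↔ ∃ y : M, n • y = x := Iff.rfl

/-- If there are at most `k` elements independent modulo `p`. -/
theorem mul_idx {p : ℕ} [Fact p.Prime] (k : ℕ)
    (h : ∀ x : Fin (k + 1) → M, ∃ a : Fin (k + 1) → ℕ, (∃ i, ¬ p ∣ a i) ∧
      ∑ i, a i • x i ∈ Mul M p) :
    (Mul M p).index ≠ 0 ∧ (Mul M p).index ≤ p ^ k := by
  have hz : ∀ x : M ⧸ Mul M p, p • x = 0 := by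
    intro x
    obtain ⟨x, rfl⟩ := QuotientAddGroup.mk_surjective x
    rw [← QuotientAddGroup.mk_nsmul, QuotientAddGroup.eq_zero_iff]
    exact ⟨x, rfl⟩
  letI : Module (ZMod p) (M ⧸ Mul M p) := AddCommGroup.zmodModule hz
  have hr : Module.rank (ZMod p) (M ⧸ Mul M p) ≤ (k : ℕ) := by
    refine rank_le fun s hs => ?_
    by_contra hcon
    rw [not_le] at hcon
    obtain ⟨t, hts, htc⟩ := Finset.exists_subset_card_eq (s := s) (n := k + 1) hcon
    have ht : LinearIndependent (ZMod p) (fun i : t => (i : M ⧸ Mul M p)) :=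
      hs.comp (fun i : t => (⟨i.1, hts i.2⟩ : s)) (fun i j hij => by
        apply Subtype.ext
        exact congrArg (fun z : s => (z : M ⧸ Mul M p)) hij)
    have e : Fin (k + 1) ≃ t := (finCongr htc.symm).trans t.equivFin.symm
    have ht' := ht.comp e e.injective
    choose x hx using fun i : Fin (k + 1) => QuotientAddGroup.mk_surjective ((e i : M ⧸ Mul M p))
    obtain ⟨a, ⟨i, hi⟩, ha⟩ := h x
    rw [Fintype.linearIndependent_iff] at ht'
    have h1 := ht' (fun i => ((a i : ℕ) : ZMod p)) (by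
      have h3 : ((∑ i, a i • x i : M) : M ⧸ Mul M p) = 0 :=
        (QuotientAddGroup.eq_zero_iff _).2 ha
      rw [← h3]
      have h4 : ((∑ i, a i • x i : M) : M ⧸ Mul M p) =
        ∑ i, a i • ((x i : M) : M ⧸ Mul M p) := by
        rw [← QuotientAddGroup.mk'_apply, map_sum]
        rfl
      rw [h4]
      refine Finset.sum_congr rfl fun i _ => ?_
      rw [hx]
      show ((a i : ℕ) : ZMod p) • (e i : M ⧸ Mul M p) = _
      exact Nat.cast_smul_eq_nsmul _ _ _) i
    exact hi ((ZMod.natCast_eq_zero_iff _ _).1 h1)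
  haveI hMf : Module.Finite (ZMod p) (M ⧸ Mul M p) := by
    rw [← Module.rank_lt_aleph0_iff]
    exact hr.trans_lt Cardinal.natCast_lt_aleph0
  have hf : Module.finrank (ZMod p) (M ⧸ Mul M p) ≤ k := by
    exact Module.finrank_le_of_rank_le hr
  have hc : Nat.card (M ⧸ Mul M p) = Nat.card (ZMod p) ^ Module.finrank (ZMod p) (M ⧸ Mul M p) :=
    @Module.natCard_eq_pow_finrank (ZMod p) (M ⧸ Mul M p) _ _ _ hMf
  rw [Nat.card_zmod] at hc
  have hpp : 0 < p := (Fact.out : p.Prime).pos
  have hi : (Mul M p).index = p ^ Module.finrank (ZMod p) (M ⧸ Mul M p) := hc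
  rw [hi]
  exact ⟨(pow_pos hpp _).ne', Nat.pow_le_pow_right hpp hf⟩

theorem mul_pow_idx {p : ℕ} (h : (Mul M p).index ≠ 0) (k : ℕ) : (Mul M (p ^ k)).index ≠ 0 := by
  induction k with
  | zero =>
    have : Mul M (p ^ 0) = ⊤ := by
      rw [eq_top_iff]
      rintro x -
      exact ⟨x, by simp⟩
    rw [this]
    simp
  | succ k ih =>
    have h1 := AddSubgroup.relIndex_map_map (nsmulAddMonoidHom (p ^ k) : M →+ M) (Mul M p) ⊤
    have e1 : (Mul M p).map (nsmulAddMonoidHom (p ^ k) : M →+ M) = Mul M (p ^ (k + 1)) := by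
      ext x
      constructor
      · rintro ⟨y, ⟨z, rfl⟩, rfl⟩
        exact ⟨z, by
          show (p ^ (k + 1)) • z = (p ^ k) • (p • z)
          rw [smul_smul, pow_succ]⟩
      · rintro ⟨z, rfl⟩
        refine ⟨p • z, ⟨z, rfl⟩, ?_⟩
        show (p ^ k) • (p • z) = (p ^ (k + 1)) • z
        rw [smul_smul, pow_succ]
    have e2 : (⊤ : AddSubgroup M).map (nsmulAddMonoidHom (p ^ k) : M →+ M) = Mul M (p ^ k) := by
      rw [← AddMonoidHom.range_eq_map]; rfl
    rw [e1, e2, top_sup_eq, AddSubgroup.relIndex_top_right] at h1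
    have h3 : Mul M (p ^ (k + 1)) ≤ Mul M (p ^ k) := by
      rintro x ⟨z, rfl⟩
      exact ⟨p • z, by
        show (p ^ k) • (p • z) = (p ^ (k + 1)) • z
        rw [smul_smul, pow_succ]⟩
    rw [← AddSubgroup.relIndex_mul_index h3]
    refine mul_ne_zero ?_ ih
    rw [h1]
    intro h0
    have h4 : (Mul M p ⊔ (nsmulAddMonoidHom (p ^ k) : M →+ M).ker).index ∣ (Mul M p).index :=
      AddSubgroup.index_dvd_of_le le_sup_left
    rw [h0] at h4
    exact h (Nat.eq_zero_of_zero_dvd h4)

end add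

end Pool.Agent.R425.G
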