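import Pool.Agent.R425.G.Ce
import Pool.Agent.TH115.TC.Ext

/-!
# The cubic field: embeddings and places
-/

set_option autoImplicit false
set_option linter.all false

open NumberField IsDedekindDomain WithZero WeierstrassCurve WeierstrassCurve.Affine
open scoped NNReal Classical

namespace Pool.Agent.R425.G

open Pool.Agent.TH115.GD

/-- the cubic field of a curve -/
structure CF (V : WeierstrassCurve ℚ) (A : Type) [Field A] [NumberField A] (θ : A) : Prop where
  root : cub V θ = 0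
  deg : Module.finrank ℚ A = 3
  gen : Algebra.adjoin ℚ {θ} = ⊤

section em

variable {V : WeierstrassCurve ℚ} {A : Type} [Field A] [NumberField A] {θ : A}

theorem CF.int (h : CF V A θ) : _root_.IsIntegral ℚ θ := Algebra.IsIntegral.isIntegral θ

theorem CF.minpoly (h : CF V A θ) : minpoly ℚ θ = cubP V ℚ := by
  obtain ⟨h1, h2⟩ := cubP_deg (W := V) (F := ℚ)
  have h3 : _root_.minpoly ℚ θ ∣ cubP V ℚ := by
    apply minpoly.dvd
    rw [cubP_aeval]
    exact h.root
  have h4 : (_root_.minpoly ℚ θ).natDegree = 3 := by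
    have := PowerBasis.finrank (PowerBasis.ofAdjoinEqTop' h.int h.gen)
    rw [PowerBasis.ofAdjoinEqTop'_dim, h.deg] at this
    exact this.symm
  exact (Polynomial.eq_of_monic_of_dvd_of_natDegree_le (_root_.minpoly.monic h.int) h2 h3
    (by rw [h1, h4])).symm

/-- the embedding of a root -/
noncomputable def em (h : CF V A θ) {F : Type} [Field F] [Algebra ℚ F] (e : Rt V F) : A →ₐ[ℚ] F :=
  (PowerBasis.ofAdjoinEqTop' h.int h.gen).lift e.1 (by
    rw [PowerBasis.ofAdjoinEqTop'_gen, h.minpoly, cubP_aeval]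
    exact e.2)

theorem em_root (h : CF V A θ) {F : Type} [Field F] [Algebra ℚ F] (e : Rt V F) : em h e θ = e.1 := by
  have := (PowerBasis.ofAdjoinEqTop' h.int h.gen).lift_gen e.1 (by
    rw [PowerBasis.ofAdjoinEqTop'_gen, h.minpoly, cubP_aeval]
    exact e.2)
  have e1 := PowerBasis.ofAdjoinEqTop'_gen h.int h.gen
  have e2 : em h e θ = em h e (PowerBasis.ofAdjoinEqTop' h.int h.gen).gen := by rw [e1]
  exact e2.trans this

theorem em_uniq (h : CF V A θ) {F : Type} [Field F] [Algebra ℚ F] (e : Rt V F) (φ : A →+* F)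
    (hφ : φ θ = e.1) (z : A) : φ z = em h e z := by
  have h1 : φ.toRatAlgHom = em h e := by
    apply (PowerBasis.ofAdjoinEqTop' h.int h.gen).algHom_ext
    rw [PowerBasis.ofAdjoinEqTop'_gen, em_root]
    exact hφ
  exact congrArg (fun ψ : A →ₐ[ℚ] F => ψ z) h1

theorem root_em (h : CF V A θ) {F : Type} [Field F] [Algebra ℚ F] (φ : A →+* F) :
    cub V (φ θ) = 0 := by
  have := cub_map V φ.toRatAlgHom θ
  rw [h.root, map_zero] at this
  exact this

theorem em_equi (h : CF V A θ) {L Ω' : Type} [Field L] [Field Ω'] [Algebra L Ω'] [Algebra ℚ L]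
    [Algebra ℚ Ω'] [IsScalarTower ℚ L Ω'] (σ : Ω' ≃ₐ[L] Ω') (e : Rt V Ω') (z : A) :
    σ (em h e z) = em h (mv σ e) z := by
  refine em_uniq h (mv σ e) ((σ : Ω' →+* Ω').comp (em h e : A →+* Ω')) ?_ z
  show σ (em h e θ) = (mv σ e).1
  rw [em_root]
  rfl

/-- the localization -/
noncomputable def lo (h : CF V A θ) (L Ω' : Type) [Field L] [Field Ω'] [Algebra L Ω'] [Algebra ℚ L]
    [Algebra ℚ Ω'] [IsScalarTower ℚ L Ω'] : Aˣ →* EE V L Ω' where
  toFun z := ⟨fun e => Units.map (em h e : A →* Ω') z, fun σ e => em_equi h σ e z⟩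
  map_one' := by
    apply Subtype.ext
    funext e
    simp
  map_mul' := fun x y => by
    apply Subtype.ext
    funext e
    simp

theorem lo_apply (h : CF V A θ) {L Ω' : Type} [Field L] [Field Ω'] [Algebra L Ω'] [Algebra ℚ L]
    [Algebra ℚ Ω'] [IsScalarTower ℚ L Ω'] (z : Aˣ) (e : Rt V Ω') :
    ((lo h L Ω' z).1 e : Ω') = em h e (z : A) := rfl

/-- the norm -/
theorem norm_em (h : CF V A θ) {Ω' : Type} [Field Ω'] [Algebra ℚ Ω'] [IsAlgClosed Ω'] {a b c : Ω'}
    (hC : IsC (V.baseChange Ω').toAffine a b c) (z : A) :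
    algebraMap ℚ Ω' (Algebra.norm ℚ z) = em h (⟨a, hC.root_a⟩ : Rt V Ω') z *
      em h (⟨b, hC.root_b⟩ : Rt V Ω') z * em h (⟨c, hC.root_c⟩ : Rt V Ω') z := by
  haveI := rt_finite hC
  haveI : Fintype (Rt V Ω') := Fintype.ofFinite _
  rw [Algebra.norm_eq_prod_embeddings ℚ Ω' z]
  let E : (A →ₐ[ℚ] Ω') ≃ Rt V Ω' :=
    { toFun := fun φ => ⟨φ θ, root_em h (φ : A →+* Ω')⟩
      invFun := fun e => em h e
      left_inv := fun φ => by
        apply AlgHom.ext
        intro x
        exact (em_uniq h _ (φ : A →+* Ω') rfl x).symm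
      right_inv := fun e => Subtype.ext (em_root h e) }
  have h1 : ∏ σ : A →ₐ[ℚ] Ω', σ z = ∏ e : Rt V Ω', em h e z := by
    rw [← Equiv.prod_comp E]
    refine Finset.prod_congr rfl fun φ _ => ?_
    exact em_uniq h _ (φ : A →+* Ω') rfl z
  rw [h1, rt_univ hC, Finset.prod_insert, Finset.prod_insert, Finset.prod_singleton, mul_assoc]
  · simp only [Finset.mem_singleton]
    exact fun h => hC.bc (congrArg Subtype.val h)
  · simp only [Finset.mem_insert, Finset.mem_singleton]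
    rintro (h | h)
    · exact hC.ab (congrArg Subtype.val h)
    · exact hC.ac (congrArg Subtype.val h)

end em

section plc

variable {A Ω' : Type} [Field A] [NumberField A] [Field Ω'] (w : Valuation Ω' ℝ≥0) (φ : A →+* Ω')

theorem int_w (a : 𝓞 A) : w (φ a) ≤ 1 := by
  have h1 : _root_.IsIntegral ℤ (φ a) := by
    have h2 : _root_.IsIntegral ℤ (a : A) := a.2
    have := h2.map (φ.toIntAlgHom)
    exact this
  have h2 : _root_.IsIntegral w.integer (φ a) := by
    obtain ⟨f, hf, hfa⟩ := h1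
    refine ⟨f.map (Int.castRingHom w.integer), hf.map _, ?_⟩
    rw [Polynomial.eval₂_map]
    have : (algebraMap w.integer Ω').comp (Int.castRingHom w.integer) = algebraMap ℤ Ω' :=
      RingHom.ext_int _ _
    rw [this]
    exact hfa
  exact (Valuation.integer.integers w).mem_of_integral h2

variable {q : ℕ}

/-- the place of an embedding -/
noncomputable def plc (hq0 : q ≠ 0) (hq : w (q : Ω') < 1) : HeightOneSpectrum (𝓞 A) where
  asIdeal :=
    { carrier := {a | w (φ (a : A)) < 1}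
      zero_mem' := by simp
      add_mem' := by
        intro a b ha hb
        show w (φ ((a + b : 𝓞 A) : A)) < 1
        rw [show ((a + b : 𝓞 A) : A) = (a : A) + b from map_add (algebraMap (𝓞 A) A) a b, map_add]
        exact Valuation.map_add_lt _ ha hb
      smul_mem' := by
        intro c a ha
        show w (φ ((c * a : 𝓞 A) : A)) < 1
        rw [show ((c * a : 𝓞 A) : A) = (c : A) * a from map_mul (algebraMap (𝓞 A) A) c a,
          map_mul, map_mul, mul_comm]
        exact mul_lt_one_of_lt_of_le ha (int_w w φ c) }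
  isPrime := by
    refine ⟨?_, ?_⟩
    · rw [Ideal.ne_top_iff_one]
      intro h
      have h1 : w (φ ((1 : 𝓞 A) : A)) < 1 := h
      simp at h1
    · intro a b hab
      have h1 : w (φ ((a * b : 𝓞 A) : A)) < 1 := hab
      rw [show ((a * b : 𝓞 A) : A) = (a : A) * b from map_mul (algebraMap (𝓞 A) A) a b,
        map_mul, map_mul] at h1
      by_contra hcon
      rw [not_or] at hcon
      have h2 : ¬ w (φ (a : A)) < 1 := hcon.1
      have h3 : ¬ w (φ (b : A)) < 1 := hcon.2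
      rw [not_lt] at h2 h3
      exact absurd h1 (not_lt.2 (one_le_mul h2 h3))
  ne_bot := by
    intro h
    have h1 : ((q : ℕ) : 𝓞 A) ∈ (⊥ : Ideal (𝓞 A)) := by
      rw [← h]
      show w (φ (((q : ℕ) : 𝓞 A) : A)) < 1
      have : φ (((q : ℕ) : 𝓞 A) : A) = (q : Ω') := by simp
      rw [this]
      exact hq
    rw [Ideal.mem_bot] at h1
    exact hq0 (by exact_mod_cast h1)

theorem mem_plc (hq0 : q ≠ 0) (hq : w (q : Ω') < 1) (a : 𝓞 A) :
    a ∈ (plc w φ hq0 hq).asIdeal ↔ w (φ (a : A)) < 1 := Iff.rfl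

theorem q_mem_plc (hq0 : q ≠ 0) (hq : w (q : Ω') < 1) :
    ((q : ℕ) : 𝓞 A) ∈ (plc w φ hq0 hq).asIdeal := by
  rw [mem_plc]
  have : φ (((q : ℕ) : 𝓞 A) : A) = (q : Ω') := by simp
  rw [this]
  exact hq

theorem plc_le (hq0 : q ≠ 0) (hq : w (q : Ω') < 1) {z : A}
    (hz : (plc w φ hq0 hq).valuation A z ≤ 1) : w (φ z) ≤ 1 := by
  obtain ⟨n, d, hnd⟩ := (plc w φ hq0 hq).exists_primeCompl_mul_eq_of_integer (K := A) z hz
  have hd : w (φ ((d : 𝓞 A) : A)) = 1 := by
    apply le_antisymm (int_w w φ _)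
    by_contra hcon
    rw [not_le] at hcon
    exact d.2 hcon
  have h1 := congrArg (fun x => w (φ x)) hnd
  simp only [map_mul] at h1
  have h2 : w (φ z) = w (φ ((n : 𝓞 A) : A)) := by
    have h3 : w (φ z) * w (φ ((d : 𝓞 A) : A)) = w (φ ((n : 𝓞 A) : A)) := h1
    rwa [hd, mul_one] at h3
  rw [h2]
  exact int_w w φ n

theorem plc_lt (hq0 : q ≠ 0) (hq : w (q : Ω') < 1) {z : A}
    (hz : (plc w φ hq0 hq).valuation A z < 1) : w (φ z) < 1 := by
  obtain ⟨n, d, hnd⟩ := (plc w φ hq0 hq).exists_primeCompl_mul_eq_of_integer (K := A) z hz.le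
  have hd : w (φ ((d : 𝓞 A) : A)) = 1 := by
    apply le_antisymm (int_w w φ _)
    by_contra hcon
    rw [not_le] at hcon
    exact d.2 hcon
  have h1 := congrArg (fun x => w (φ x)) hnd
  simp only [map_mul] at h1
  have h2 : w (φ z) = w (φ ((n : 𝓞 A) : A)) := by
    have h3 : w (φ z) * w (φ ((d : 𝓞 A) : A)) = w (φ ((n : 𝓞 A) : A)) := h1
    rwa [hd, mul_one] at h3
  rw [h2]
  have h4 : (plc w φ hq0 hq).valuation A (algebraMap (𝓞 A) A n) < 1 := by
    rw [← hnd, map_mul]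
    exact lt_of_le_of_lt (mul_le_of_le_one_right' ((plc w φ hq0 hq).valuation_le_one _)) hz
  rw [HeightOneSpectrum.valuation_lt_one_iff_mem] at h4
  exact h4

theorem plc_one (hq0 : q ≠ 0) (hq : w (q : Ω') < 1) {z : A}
    (hz : (plc w φ hq0 hq).valuation A z = 1) : w (φ z) = 1 := by
  apply le_antisymm (plc_le w φ hq0 hq hz.le)
  have h1 : w (φ z⁻¹) ≤ 1 := plc_le w φ hq0 hq (by rw [map_inv₀, hz, _root_.inv_one])
  have hz0 : z ≠ 0 := by
    rintro rfl
    rw [map_zero] at hz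
    exact zero_ne_one hz
  rw [map_inv₀, map_inv₀] at h1
  exact (inv_le_one₀ (pos_of_ne_zero ((Valuation.ne_zero_iff _).2 ((_root_.map_ne_zero _).2 hz0)))).1 h1

theorem plc_gt (hq0 : q ≠ 0) (hq : w (q : Ω') < 1) {z : A}
    (hz : 1 < (plc w φ hq0 hq).valuation A z) : 1 < w (φ z) := by
  have hz0 : z ≠ 0 := by
    rintro rfl
    rw [map_zero] at hz
    exact absurd hz (by simp)
  have h1 : w (φ z⁻¹) < 1 := plc_lt w φ hq0 hq (by
    rw [map_inv₀]
    exact inv_lt_one_of_one_lt₀ hz)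
  rw [map_inv₀, map_inv₀] at h1
  exact (inv_lt_one₀ (pos_of_ne_zero ((Valuation.ne_zero_iff _).2
    ((_root_.map_ne_zero _).2 hz0)))).1 h1

theorem plc_unr (hq0 : q ≠ 0) (hq : w (q : Ω') < 1)
    (hu : (plc w φ hq0 hq).valuation A (q : A) = exp (-1 : ℤ)) {z : A} (hz : z ≠ 0) :
    ∃ k : ℤ, w (φ z) = w (q : Ω') ^ k := by
  have hv : (plc w φ hq0 hq).valuation A z ≠ 0 := (Valuation.ne_zero_iff _).2 hz
  obtain ⟨k, hk⟩ : ∃ k : ℤ, (plc w φ hq0 hq).valuation A z = exp k := ⟨log _, (exp_log hv).symm⟩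
  refine ⟨-k, ?_⟩
  have hqA : (q : A) ≠ 0 := by exact_mod_cast hq0
  have h1 : (plc w φ hq0 hq).valuation A (z * (q : A) ^ k) = 1 := by
    rw [map_mul, map_zpow₀, hu, hk, ← exp_zsmul, ← exp_add]
    simp
  have h2 := plc_one w φ hq0 hq h1
  rw [map_mul, map_zpow₀, map_mul, map_zpow₀, map_natCast] at h2
  rw [zpow_neg]
  exact eq_inv_of_mul_eq_one_left h2

end plc

section inj

variable {V : WeierstrassCurve ℚ} {A : Type} [Field A] [NumberField A] {θ : A} (h : CF V A θ)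
  {L Ω' : Type} [Field L] [Field Ω'] [Algebra L Ω'] [Algebra ℚ L]
  [Algebra ℚ Ω'] [IsScalarTower ℚ L Ω'] {a b c : Ω'} (w : Valuation Ω' ℝ≥0) {p : ℕ}
  [IsGalois L Ω']

include h in
/-- different orbits give different places -/
theorem plc_orb (hC : IsC (V.baseChange Ω').toAffine a b c)
    (hL : LD (w.comap (algebraMap L Ω')) p) (hθ : _root_.IsIntegral ℤ θ) (hp : w (p : Ω') < 1)
    {e e' : Rt V Ω'}
    (he : plc w (em h e : A →+* Ω') hL.pr.ne_zero hp = plc w (em h e' : A →+* Ω') hL.pr.ne_zero hp) :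
    ∃ σ : Ω' ≃ₐ[L] Ω', mv σ e = e' := by
  by_contra hcon
  obtain ⟨wp1, wp0⟩ := w_alg w hL
  have hp0 : (p : Ω') ≠ 0 := (Valuation.ne_zero_iff _).1 wp0
  -- the indicator function
  set f : Rt V Ω' → Ω' := fun x => if ∃ σ : Ω' ≃ₐ[L] Ω', mv σ e = x then 0 else 1 with hf
  have hfσ : ∀ (σ : Ω' ≃ₐ[L] Ω') (x : Rt V Ω'), σ (f x) = f (mv σ x) := by
    intro σ x
    have hiff : (∃ τ : Ω' ≃ₐ[L] Ω', mv τ e = mv σ x) ↔ ∃ τ : Ω' ≃ₐ[L] Ω', mv τ e = x := by
      constructor
      · rintro ⟨τ, hτ⟩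
        refine ⟨σ⁻¹ * τ, ?_⟩
        rw [mv_mul, hτ, mv_inv']
      · rintro ⟨τ, rfl⟩
        exact ⟨σ * τ, mv_mul _ _ _⟩
    simp only [hf]
    by_cases hx : ∃ τ : Ω' ≃ₐ[L] Ω', mv τ e = x
    · rw [if_pos hx, if_pos (hiff.2 hx), map_zero]
    · rw [if_neg hx, if_neg (fun h => hx (hiff.1 h)), map_one]
  obtain ⟨l, hl⟩ := interp0 hC f hfσ
  have hfe : f e = 0 := by
    simp only [hf]
    rw [if_pos ⟨1, mv_one e⟩]
  have hfe' : f e' = 1 := by
    simp only [hf]
    rw [if_neg hcon]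
  -- scaling
  obtain ⟨M, hM⟩ : ∃ M : ℕ, ∀ i, w (algebraMap L Ω' ((p : L) ^ M * l i)) ≤ 1 := by
    have h1 : ∀ i, ∃ M : ℕ, ∀ N, M ≤ N → w (algebraMap L Ω' ((p : L) ^ N * l i)) ≤ 1 := by
      intro i
      obtain ⟨M, hM⟩ := exists_pow_lt_of_lt_one (y := w (p : Ω'))
        (x := (1 + w (algebraMap L Ω' (l i)))⁻¹) (by positivity) wp1
      refine ⟨M, fun N hN => ?_⟩
      rw [map_mul, map_pow, map_natCast, map_mul, map_pow]
      have h2 : w (p : Ω') ^ N ≤ w (p : Ω') ^ M := pow_le_pow_right_of_le_one' wp1.le hN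
      calc w (p : Ω') ^ N * w (algebraMap L Ω' (l i)) ≤
            (1 + w (algebraMap L Ω' (l i)))⁻¹ * (1 + w (algebraMap L Ω' (l i))) :=
              mul_le_mul' (h2.trans hM.le) (by simp)
        _ = 1 := inv_mul_cancel₀ (by positivity)
    choose M hM using h1
    exact ⟨max (M 0) (max (M 1) (M 2)), fun i => hM i _ (by
      fin_cases i
      · exact le_max_left _ _
      · exact (le_max_left _ _).trans (le_max_right _ _)
      · exact (le_max_right _ _).trans (le_max_right _ _))⟩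
  have happ : ∀ i, ∃ n : ℕ, w (algebraMap L Ω' ((p : L) ^ M * l i) - (n : Ω')) ≤
      w (p : Ω') ^ (M + 1) := by
    intro i
    obtain ⟨n, -, hn⟩ := hL.approx (M + 1) ((p : L) ^ M * l i) (by
      rw [Valuation.comap_apply]; exact hM i)
    refine ⟨n, ?_⟩
    rw [Valuation.comap_apply, Valuation.comap_apply, map_natCast, map_sub, map_natCast] at hn
    exact hn
  choose n hn using happ
  set z0 : A := (n 0 : A) + (n 1 : A) * θ + (n 2 : A) * θ ^ 2 with hz0
  have hwe : ∀ x : Rt V Ω', w x.1 ≤ 1 := by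
    intro x
    have := int_w w (em h x : A →+* Ω') ⟨θ, hθ⟩
    have e1 : (em h x : A →+* Ω') ((⟨θ, hθ⟩ : 𝓞 A) : A) = x.1 := em_root h x
    exact (congrArg w e1).symm.le.trans this
  have hz : ∀ x : Rt V Ω', w (em h x z0 - (p : Ω') ^ M * f x) ≤ w (p : Ω') ^ (M + 1) := by
    intro x
    have e1 : em h x z0 = (n 0 : Ω') + (n 1 : Ω') * x.1 + (n 2 : Ω') * x.1 ^ 2 := by
      rw [hz0]
      simp only [map_add, map_mul, map_pow, map_natCast, em_root]
    have e2 : em h x z0 - (p : Ω') ^ M * f x =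
        -((algebraMap L Ω' ((p : L) ^ M * l 0) - (n 0 : Ω')) +
        (algebraMap L Ω' ((p : L) ^ M * l 1) - (n 1 : Ω')) * x.1 +
        (algebraMap L Ω' ((p : L) ^ M * l 2) - (n 2 : Ω')) * x.1 ^ 2) := by
      rw [e1, hl x]
      simp only [map_mul, map_pow, map_natCast]
      ring
    rw [e2, Valuation.map_neg]
    refine u_add (u_add (hn 0) ?_) ?_
    · rw [map_mul]
      exact (mul_le_of_le_one_right' (hwe x)).trans (hn 1)
    · rw [map_mul, map_pow]
      exact (mul_le_of_le_one_right' (pow_le_one₀ zero_le (hwe x))).trans (hn 2)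
  set z : A := z0 / (p : A) ^ (M + 1) with hzdef
  have hwz : ∀ x : Rt V Ω', w (em h x z) = w (em h x z0) / w (p : Ω') ^ (M + 1) := by
    intro x
    rw [hzdef, map_div₀, map_pow, map_natCast, map_div₀, map_pow]
  have hpos : (0 : ℝ≥0) < w (p : Ω') := pos_of_ne_zero wp0
  have c1 : w (em h e z) ≤ 1 := by
    rw [hwz]
    have := hz e
    rw [hfe, mul_zero, sub_zero] at this
    exact div_le_one_of_le₀ this zero_le
  have c2 : 1 < w (em h e' z) := by
    rw [hwz]
    have h1 := hz e'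
    rw [hfe', mul_one] at h1
    have h2 : w (em h e' z0) = w (p : Ω') ^ M := by
      have e3 : em h e' z0 = (p : Ω') ^ M + (em h e' z0 - (p : Ω') ^ M) := by ring
      rw [e3, Valuation.map_add_eq_of_lt_left, map_pow]
      rw [map_pow]
      refine h1.trans_lt ?_
      rw [pow_succ]
      exact mul_lt_of_lt_one_right (pow_pos hpos _) wp1
    rw [h2, one_lt_div (pow_pos hpos _), pow_succ]
    exact mul_lt_of_lt_one_right (pow_pos hpos _) wp1
  -- compare
  have c3 : (plc w (em h e : A →+* Ω') hL.pr.ne_zero hp).valuation A z ≤ 1 := by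
    by_contra hc
    rw [not_le] at hc
    have := plc_gt w (em h e : A →+* Ω') hL.pr.ne_zero hp hc
    exact absurd c1 (not_le.2 this)
  rw [he] at c3
  have c4 := plc_le w (em h e' : A →+* Ω') hL.pr.ne_zero hp c3
  exact absurd c4 (not_le.2 c2)

/-- the places over a prime number -/
def Tq (A : Type) [Field A] [NumberField A] (q : ℕ) : Set (HeightOneSpectrum (𝓞 A)) :=
  {u | ((q : ℕ) : 𝓞 A) ∈ u.asIdeal}

theorem tq_finite {q : ℕ} (hq : q ≠ 0) : (Tq A q).Finite := by
  have h0 : Ideal.span {((q : ℕ) : 𝓞 A)} ≠ 0 := by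
    rw [Ne, Ideal.zero_eq_bot, Ideal.span_singleton_eq_bot]
    exact_mod_cast hq
  refine (Ideal.finite_factors h0).subset fun u hu => ?_
  rw [Set.mem_setOf_eq, Ideal.dvd_span_singleton]
  exact hu

include h in
theorem orb_le_tq (hC : IsC (V.baseChange Ω').toAffine a b c)
    (hL : LD (w.comap (algebraMap L Ω')) p) (hθ : _root_.IsIntegral ℤ θ) :
    Nat.card (Orb V L Ω') ≤ (Tq A p).ncard := by
  obtain ⟨wp1, wp0⟩ := w_alg w hL
  have hfin := tq_finite (A := A) hL.pr.ne_zero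
  haveI : Finite (Tq A p) := hfin.to_subtype
  rw [← Nat.card_coe_set_eq]
  refine Nat.card_le_card_of_injective (fun o : Orb V L Ω' =>
    (⟨plc w (em h o.out : A →+* Ω') hL.pr.ne_zero wp1,
      q_mem_plc w (em h o.out : A →+* Ω') hL.pr.ne_zero wp1⟩ : Tq A p)) ?_
  intro o o' hoo
  have h1 := congrArg Subtype.val hoo
  obtain ⟨σ, hσ⟩ := plc_orb h w hC hL hθ wp1 h1
  rw [← Quotient.out_eq o, ← Quotient.out_eq o']
  exact Quotient.sound ⟨σ, hσ⟩

end inj

end Pool.Agent.R425.G
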