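import Pool.Agent.R425.G.Cn2
import Pool.Agent.R425.Ram

/-!
# The places of good reduction of the cubic field
-/

set_option autoImplicit false
set_option linter.all false

open NumberField IsDedekindDomain WithZero WeierstrassCurve WeierstrassCurve.Affine
open scoped NNReal Classical

namespace Pool.Agent.R425.G

open Pool.Agent.TH115.GD
open Pool.Agent.Y702.G (sh base pts)

section sh

variable (W : WeierstrassCurve ℤ)

theorem iv_sh (hW : W.Δ ≠ 0) : IV (sh W) :=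
  ⟨rfl, rfl, ⟨W.b₂, rfl⟩, ⟨8 * W.b₄, by show (8 * (W.b₄ : ℚ)) = _; push_cast; rfl⟩,
    ⟨16 * W.b₆, by show (16 * (W.b₆ : ℚ)) = _; push_cast; rfl⟩, Y355.G.sh_disc hW⟩

variable {F : Type} [Field F] [Algebra ℚ F]

theorem cub_sh (x : F) : cub (sh W) x = x ^ 3 + (W.b₂ : F) * x ^ 2 + 8 * (W.b₄ : F) * x +
    16 * (W.b₆ : F) := by
  unfold cub
  have e2 : algebraMap ℚ F (sh W).a₂ = (W.b₂ : F) := by
    show algebraMap ℚ F ((W.b₂ : ℤ) : ℚ) = _
    rw [map_intCast]
  have e4 : algebraMap ℚ F (sh W).a₄ = 8 * (W.b₄ : F) := by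
    show algebraMap ℚ F (8 * ((W.b₄ : ℤ) : ℚ)) = _
    rw [map_mul, map_ofNat, map_intCast]
  have e6 : algebraMap ℚ F (sh W).a₆ = 16 * (W.b₆ : F) := by
    show algebraMap ℚ F (16 * ((W.b₆ : ℤ) : ℚ)) = _
    rw [map_mul, map_ofNat, map_intCast]
  rw [e2, e4, e6]

theorem cub'_sh (x : F) : cub' (sh W) x = 3 * x ^ 2 + 2 * (W.b₂ : F) * x + 8 * (W.b₄ : F) := by
  unfold cub'
  have e2 : algebraMap ℚ F (sh W).a₂ = (W.b₂ : F) := by
    show algebraMap ℚ F ((W.b₂ : ℤ) : ℚ) = _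
    rw [map_intCast]
  have e4 : algebraMap ℚ F (sh W).a₄ = 8 * (W.b₄ : F) := by
    show algebraMap ℚ F (8 * ((W.b₄ : ℤ) : ℚ)) = _
    rw [map_mul, map_ofNat, map_intCast]
  rw [e2, e4]

theorem disc_id : 256 * W.Δ = W.b₂ ^ 2 * (8 * W.b₄) ^ 2 - 4 * (8 * W.b₄) ^ 3 -
    4 * W.b₂ ^ 3 * (16 * W.b₆) + 18 * W.b₂ * (8 * W.b₄) * (16 * W.b₆) - 27 * (16 * W.b₆) ^ 2 := by
  have h := W.b_relation
  unfold WeierstrassCurve.Δ
  linear_combination (-64 * W.b₂ ^ 2) * h

variable {W}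

theorem disc_sh {e1 e2 e3 : F} (hC : IsC ((sh W).baseChange F).toAffine e1 e2 e3) :
    (e1 - e2) ^ 2 * (e1 - e3) ^ 2 * (e2 - e3) ^ 2 = 256 * (W.Δ : F) := by
  have h2 := hC.e2
  have h4 := hC.e4
  have h6 := hC.e6
  have c2 : algebraMap ℚ F (sh W).a₂ = (W.b₂ : F) := by
    show algebraMap ℚ F ((W.b₂ : ℤ) : ℚ) = _
    rw [map_intCast]
  have c4 : algebraMap ℚ F (sh W).a₄ = 8 * (W.b₄ : F) := by
    show algebraMap ℚ F (8 * ((W.b₄ : ℤ) : ℚ)) = _
    rw [map_mul, map_ofNat, map_intCast]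
  have c6 : algebraMap ℚ F (sh W).a₆ = 16 * (W.b₆ : F) := by
    show algebraMap ℚ F (16 * ((W.b₆ : ℤ) : ℚ)) = _
    rw [map_mul, map_ofNat, map_intCast]
  rw [c2] at h2
  rw [c4] at h4
  rw [c6] at h6
  have h := congrArg (fun z : ℤ => (z : F)) (disc_id W)
  push_cast at h
  rw [h, h4, h6, h2]
  ring

end sh

section w

variable {W : WeierstrassCurve ℤ} {Ω' : Type} [Field Ω'] [Algebra ℚ Ω'] (w : Valuation Ω' ℝ≥0)

theorem one_of_mul {x y : ℝ≥0} (hx : x ≤ 1) (hy : y ≤ 1) (h : x * y = 1) : x = 1 := by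
  apply le_antisymm hx
  rw [← h]
  exact mul_le_of_le_one_right' hy

theorem w_rt {e : Ω'} (he : cub (sh W) e = 0) : w e ≤ 1 := by
  by_contra hcon
  rw [not_le] at hcon
  rw [cub_sh] at he
  have h1 : e ^ 3 = -((W.b₂ : Ω') * e ^ 2 + ((8 * W.b₄ : ℤ) : Ω') * e + ((16 * W.b₆ : ℤ) : Ω')) := by
    push_cast
    linear_combination he
  have h2 : w (e ^ 3) ≤ w e ^ 2 := by
    rw [h1, Valuation.map_neg]
    refine u_add (u_add ?_ ?_) ?_
    · rw [map_mul, map_pow]
      exact mul_le_of_le_one_left' (u_int w _)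
    · rw [map_mul]
      refine (mul_le_of_le_one_left' (u_int w _)).trans ?_
      calc w e = w e ^ 1 := (pow_one _).symm
        _ ≤ w e ^ 2 := pow_le_pow_right₀ hcon.le (by norm_num)
    · exact (u_int w _).trans (one_le_pow₀ hcon.le)
  rw [map_pow] at h2
  exact absurd h2 (not_le.2 (pow_lt_pow_right₀ hcon (by norm_num)))

theorem w_sub_one {e1 e2 e3 : Ω'} (hC : IsC ((sh W).baseChange Ω').toAffine e1 e2 e3)
    (hΔ : w (256 * (W.Δ : Ω')) = 1) :
    w (e1 - e2) = 1 ∧ w (e1 - e3) = 1 ∧ w (e2 - e3) = 1 := by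
  have hd := disc_sh hC
  have h1 := w_rt w hC.root_a
  have h2 := w_rt w hC.root_b
  have h3 := w_rt w hC.root_c
  have d12 : w (e1 - e2) ≤ 1 := (Valuation.map_sub _ _ _).trans (max_le h1 h2)
  have d13 : w (e1 - e3) ≤ 1 := (Valuation.map_sub _ _ _).trans (max_le h1 h3)
  have d23 : w (e2 - e3) ≤ 1 := (Valuation.map_sub _ _ _).trans (max_le h2 h3)
  have p12 := pow_le_one' d12 2
  have p13 := pow_le_one' d13 2
  have p23 := pow_le_one' d23 2
  have hprod := congrArg w hd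
  rw [hΔ, map_mul, map_mul, map_pow, map_pow, map_pow] at hprod
  have q23 : w (e2 - e3) ^ 2 = 1 := by
    rw [mul_comm] at hprod
    exact one_of_mul p23 (mul_le_one' p12 p13) hprod
  have q1213 : w (e1 - e2) ^ 2 * w (e1 - e3) ^ 2 = 1 := by
    rw [q23, mul_one] at hprod
    exact hprod
  have q12 := one_of_mul p12 p13 q1213
  have q13 : w (e1 - e3) ^ 2 = 1 := by
    rw [q12, one_mul] at q1213
    exact q1213
  have sq1 : ∀ x : ℝ≥0, x ^ 2 = 1 → x = 1 := fun x hx =>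
    (pow_eq_one_iff_of_nonneg zero_le (by norm_num)).1 hx
  exact ⟨sq1 _ q12, sq1 _ q13, sq1 _ q23⟩

end w

section glob

variable {W : WeierstrassCurve ℤ} {A : Type} [Field A] [NumberField A] {θ : A}

/-- the good primes are not ramified in the cubic field -/
theorem unr_A (h : CF (sh W) A θ) (hW : W.Δ ≠ 0) {l : ℕ} (hl : l.Prime)
    (hlD : ¬ (l : ℤ) ∣ 2 * W.Δ) {u : HeightOneSpectrum (𝓞 A)} (hu : u ∈ Tq A l) :
    u.valuation A (l : A) = exp (-1 : ℤ) := by
  have hθ : _root_.IsIntegral ℤ θ := (iv_sh W hW).int h.root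
  set t : 𝓞 A := ⟨θ, hθ⟩ with ht
  have htA : algebraMap (𝓞 A) A t = θ := rfl
  -- the minimal polynomial
  set f : Polynomial ℤ := Polynomial.X ^ 3 + Polynomial.C W.b₂ * Polynomial.X ^ 2 +
    Polynomial.C (8 * W.b₄) * Polynomial.X + Polynomial.C (16 * W.b₆) with hf
  have hfd : f.natDegree = 3 := by
    rw [hf]
    compute_degree!
  have hfm : f.Monic := by
    rw [hf]
    monicity!
  have hroot := h.root
  rw [cub_sh] at hroot
  have hft : Polynomial.aeval t f = 0 := by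
    apply FaithfulSMul.algebraMap_injective (𝓞 A) A
    rw [hf]
    simp only [map_add, map_mul, map_pow, Polynomial.aeval_X, Polynomial.aeval_C, map_zero]
    rw [htA]
    simp only [eq_intCast, map_intCast]
    push_cast
    exact hroot
  have hmin : minpoly ℤ t = f := by
    have h1 : minpoly ℤ t ∣ f := minpoly.isIntegrallyClosed_dvd (RingOfIntegers.isIntegral t) hft
    have h2 : (minpoly ℤ t).natDegree = 3 := by
      have h3 := minpoly.isIntegrallyClosed_eq_field_fractions' (R := ℤ) ℚ (s := θ) hθ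
      have h4 : (minpoly ℚ θ).natDegree = 3 := by
        rw [h.minpoly]
        exact (cubP_deg (W := sh W) (F := ℚ)).1
      rw [h3, (minpoly.monic hθ).natDegree_map] at h4
      rw [← RingOfIntegers.minpoly_coe]
      exact h4
    exact (Polynomial.eq_of_monic_of_dvd_of_natDegree_le
      (minpoly.monic (RingOfIntegers.isIntegral t)) hfm h1 (by rw [hfd, h2])).symm
  have hder := aeval_derivative_mem_differentIdeal ℤ ℚ A t (by rw [htA]; exact h.gen)
  rw [hmin] at hder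
  have hdf : Polynomial.derivative f = Polynomial.C (3 : ℤ) * Polynomial.X ^ 2 +
      Polynomial.C (2 * W.b₂) * Polynomial.X + Polynomial.C (8 * W.b₄) := by
    rw [hf, Polynomial.derivative_add, Polynomial.derivative_add, Polynomial.derivative_add,
      Polynomial.derivative_C, Polynomial.derivative_C_mul, Polynomial.derivative_C_mul,
      Polynomial.derivative_X_pow, Polynomial.derivative_X_pow, Polynomial.derivative_X,
      Polynomial.C_mul]
    norm_num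
    ring
  have hder' : Polynomial.aeval t (Polynomial.derivative f) =
      3 * t ^ 2 + 2 * (W.b₂ : 𝓞 A) * t + 8 * (W.b₄ : 𝓞 A) := by
    rw [hdf, map_add, map_add, map_mul, map_mul, map_pow, Polynomial.aeval_X, Polynomial.aeval_C,
      Polynomial.aeval_C, Polynomial.aeval_C, eq_intCast, eq_intCast, eq_intCast]
    push_cast
    ring
  rw [hder'] at hder
  haveI := u.isPrime
  have hlZ : Prime (l : ℤ) := Nat.prime_iff_prime_int.1 hl
  have hnot : ¬ u.asIdeal ∣ differentIdeal ℤ (𝓞 A) := by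
    intro hdvd
    have h1 : 3 * t ^ 2 + 2 * (W.b₂ : 𝓞 A) * t + 8 * (W.b₄ : 𝓞 A) ∈ u.asIdeal :=
      (Ideal.dvd_iff_le.1 hdvd) hder
    have hroot' : t ^ 3 + (W.b₂ : 𝓞 A) * t ^ 2 + 8 * (W.b₄ : 𝓞 A) * t + 16 * (W.b₆ : 𝓞 A) = 0 := by
      apply FaithfulSMul.algebraMap_injective (𝓞 A) A
      simp only [map_add, map_mul, map_pow, map_intCast, map_ofNat, map_zero]
      exact hroot
    have h2 : ((256 * W.Δ : ℤ) : 𝓞 A) ∈ u.asIdeal := by
      rw [disc_id]
      have e : (((W.b₂ ^ 2 * (8 * W.b₄) ^ 2 - 4 * (8 * W.b₄) ^ 3 - 4 * W.b₂ ^ 3 * (16 * W.b₆) +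
          18 * W.b₂ * (8 * W.b₄) * (16 * W.b₆) - 27 * (16 * W.b₆) ^ 2 : ℤ)) : 𝓞 A) =
          ((2 * (W.b₂ : 𝓞 A) ^ 2 - 6 * (8 * (W.b₄ : 𝓞 A))) * t ^ 2 + (2 * (W.b₂ : 𝓞 A) ^ 3 -
          7 * (W.b₂ : 𝓞 A) * (8 * (W.b₄ : 𝓞 A)) + 9 * (16 * (W.b₆ : 𝓞 A))) * t +
          ((W.b₂ : 𝓞 A) ^ 2 * (8 * (W.b₄ : 𝓞 A)) - 4 * (8 * (W.b₄ : 𝓞 A)) ^ 2 +
          3 * (W.b₂ : 𝓞 A) * (16 * (W.b₆ : 𝓞 A)))) *
          (3 * t ^ 2 + 2 * (W.b₂ : 𝓞 A) * t + 8 * (W.b₄ : 𝓞 A)) := by
        push_cast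
        linear_combination (((18 * (8 * (W.b₄ : 𝓞 A)) - 6 * (W.b₂ : 𝓞 A) ^ 2) * t +
          (-4 * (W.b₂ : 𝓞 A) ^ 3 + 15 * (W.b₂ : 𝓞 A) * (8 * (W.b₄ : 𝓞 A)) -
          27 * (16 * (W.b₆ : 𝓞 A))))) * hroot'
      rw [e]
      exact u.asIdeal.mul_mem_left _ h1
    have h3 := not_both hl hu h2
    apply hlD
    have e8 : (256 * W.Δ : ℤ) = 2 ^ 8 * W.Δ := by norm_num
    rw [e8] at h3
    rcases hlZ.dvd_or_dvd h3 with h4 | h4
    · exact (hlZ.dvd_of_dvd_pow h4).mul_right _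
    · exact h4.mul_left _
  rw [not_dvd_differentIdeal_iff] at hnot
  have h5 : u.asIdeal.ramificationIdx ℤ = 1 := Ideal.ramificationIdx'_eq_one_iff.2 hnot
  rw [Pool.Agent.R425.val_ram A hl u hu, h5]
  rfl

/-- the number of the places over a good prime with a root -/
theorem tq_two (h : CF (sh W) A θ) (hW : W.Δ ≠ 0) {l : ℕ} (hl : l.Prime)
    (hlD : ¬ (l : ℤ) ∣ 2 * W.Δ) {n : ℤ}
    (hn : (l : ℤ) ∣ n ^ 3 + W.b₂ * n ^ 2 + 8 * W.b₄ * n + 16 * W.b₆) : 2 ≤ (Tq A l).ncard := by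
  obtain ⟨p, rfl⟩ := exists_ng hl
  obtain ⟨w, hσ, hL, -⟩ := exists_ld p
  haveI := gal_p p
  have hV := iv_sh W hW
  obtain ⟨a, b, c, hC⟩ := Y355.G.V_roots hV.a1 hV.a3 hV.Δ (AlgebraicClosure (p.adicCompletion ℚ))
  obtain ⟨wp1, wp0⟩ := w_alg w hL
  refine le_trans ?_ (orb_le_tq h w hC hL (hV.int h.root))
  -- the discriminant is a unit
  have hlZ : Prime ((ng p : ℕ) : ℤ) := Nat.prime_iff_prime_int.1 hl
  have hun : w (256 * (W.Δ : (AlgebraicClosure (p.adicCompletion ℚ)))) = 1 := by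
    have h1 := hL.unit_of (n := 256 * W.Δ) (fun h3 => by
      apply hlD
      have e8 : (256 * W.Δ : ℤ) = 2 ^ 8 * W.Δ := by norm_num
      rw [e8] at h3
      rcases hlZ.dvd_or_dvd h3 with h4 | h4
      · exact (hlZ.dvd_of_dvd_pow h4).mul_right _
      · exact h4.mul_left _)
    rw [Valuation.comap_apply, map_intCast] at h1
    push_cast at h1
    exact h1
  obtain ⟨d12, d13, d23⟩ := w_sub_one w hC hun
  have hprod : w (((n : (AlgebraicClosure (p.adicCompletion ℚ))) - a) * ((n : (AlgebraicClosure (p.adicCompletion ℚ))) - b) * ((n : (AlgebraicClosure (p.adicCompletion ℚ))) - c)) < 1 := by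
    have h1 : cub (sh W) (n : (AlgebraicClosure (p.adicCompletion ℚ))) = ((n : (AlgebraicClosure (p.adicCompletion ℚ))) - a) * ((n : (AlgebraicClosure (p.adicCompletion ℚ))) - b) * ((n : (AlgebraicClosure (p.adicCompletion ℚ))) - c) := hC.cub_eq _
    rw [← h1, cub_sh]
    obtain ⟨k, hk⟩ := hn
    have h2 : (n : (AlgebraicClosure (p.adicCompletion ℚ))) ^ 3 + (W.b₂ : (AlgebraicClosure (p.adicCompletion ℚ))) * (n : (AlgebraicClosure (p.adicCompletion ℚ))) ^ 2 + 8 * (W.b₄ : (AlgebraicClosure (p.adicCompletion ℚ))) * (n : (AlgebraicClosure (p.adicCompletion ℚ))) +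
        16 * (W.b₆ : (AlgebraicClosure (p.adicCompletion ℚ))) = ((ng p : ℕ) : (AlgebraicClosure (p.adicCompletion ℚ))) * (k : (AlgebraicClosure (p.adicCompletion ℚ))) := by
      have := congrArg (fun z : ℤ => (z : (AlgebraicClosure (p.adicCompletion ℚ)))) hk
      push_cast at this
      exact this
    rw [h2, map_mul]
    exact mul_lt_one_of_lt_of_le wp1 (u_int w k)
  -- some root is close
  obtain ⟨e, hen, hdiff⟩ : ∃ e : Rt (sh W) (AlgebraicClosure (p.adicCompletion ℚ)), w ((n : (AlgebraicClosure (p.adicCompletion ℚ))) - e.1) < 1 ∧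
      ∀ e' : Rt (sh W) (AlgebraicClosure (p.adicCompletion ℚ)), e' ≠ e → w (e'.1 - e.1) = 1 := by
    have d21 : w (b - a) = 1 := by rw [Valuation.map_sub_swap]; exact d12
    have d31 : w (c - a) = 1 := by rw [Valuation.map_sub_swap]; exact d13
    have d32 : w (c - b) = 1 := by rw [Valuation.map_sub_swap]; exact d23
    by_cases h1 : w ((n : (AlgebraicClosure (p.adicCompletion ℚ))) - a) < 1
    · refine ⟨⟨a, hC.root_a⟩, h1, fun e' he' => ?_⟩
      rcases rt_list hC e' with rfl | rfl | rfl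
      · exact absurd rfl he'
      · exact d21
      · exact d31
    by_cases h2 : w ((n : (AlgebraicClosure (p.adicCompletion ℚ))) - b) < 1
    · refine ⟨⟨b, hC.root_b⟩, h2, fun e' he' => ?_⟩
      rcases rt_list hC e' with rfl | rfl | rfl
      · exact d12
      · exact absurd rfl he'
      · exact d32
    by_cases h3 : w ((n : (AlgebraicClosure (p.adicCompletion ℚ))) - c) < 1
    · refine ⟨⟨c, hC.root_c⟩, h3, fun e' he' => ?_⟩
      rcases rt_list hC e' with rfl | rfl | rfl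
      · exact d13
      · exact d23
      · exact absurd rfl he'
    · exfalso
      rw [not_lt] at h1 h2 h3
      rw [map_mul, map_mul] at hprod
      exact absurd hprod (not_lt.2 (one_le_mul (one_le_mul h1 h2) h3))
  have hfix : ∀ σ : (AlgebraicClosure (p.adicCompletion ℚ)) ≃ₐ[p.adicCompletion ℚ] (AlgebraicClosure (p.adicCompletion ℚ)), mv σ e = e := by
    intro σ
    by_contra hne
    have h1 := hdiff _ hne
    have h2 : w ((n : (AlgebraicClosure (p.adicCompletion ℚ))) - (mv σ e).1) < 1 := by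
      have e1 : (n : (AlgebraicClosure (p.adicCompletion ℚ))) - (mv σ e).1 = σ ((n : (AlgebraicClosure (p.adicCompletion ℚ))) - e.1) := by
        rw [map_sub, map_intCast]
        rfl
      rw [e1, hσ]
      exact hen
    have h3 : w ((mv σ e).1 - e.1) < 1 := by
      have e1 : (mv σ e).1 - e.1 = ((n : (AlgebraicClosure (p.adicCompletion ℚ))) - e.1) - ((n : (AlgebraicClosure (p.adicCompletion ℚ))) - (mv σ e).1) := by ring
      rw [e1]
      exact (Valuation.map_sub _ _ _).trans_lt (max_lt hen h2)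
    exact absurd h1 h3.ne
  -- two orbits
  haveI := rt_finite hC
  haveI : Finite (Orb (sh W) (p.adicCompletion ℚ) (AlgebraicClosure (p.adicCompletion ℚ))) := Quotient.finite _
  haveI : Fintype (Orb (sh W) (p.adicCompletion ℚ) (AlgebraicClosure (p.adicCompletion ℚ))) := Fintype.ofFinite _
  obtain ⟨e', he'⟩ : ∃ e' : Rt (sh W) (AlgebraicClosure (p.adicCompletion ℚ)), e' ≠ e := by
    by_cases h1 : (⟨a, hC.root_a⟩ : Rt (sh W) (AlgebraicClosure (p.adicCompletion ℚ))) = e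
    · refine ⟨⟨b, hC.root_b⟩, fun h2 => hC.ab ?_⟩
      exact congrArg Subtype.val (h1.trans h2.symm)
    · exact ⟨_, h1⟩
  rw [Nat.card_eq_fintype_card]
  refine Fintype.one_lt_card_iff.2 ⟨Quotient.mk _ e, Quotient.mk _ e', fun h1 => ?_⟩
  obtain ⟨σ, hσe⟩ := Quotient.exact h1
  exact he' (hσe.symm.trans (hfix σ))

end glob

end Pool.Agent.R425.G
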